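import Pool.Agent.MP_6d5e8e_al.H27.No
import Mathlib.FieldTheory.SeparableDegree
import Mathlib.Algebra.Group.AddChar
import Mathlib.Algebra.CharP.Lemmas

/-! Thin vectors: towers of group rings over which a vector is locally uniserial. -/

set_option autoImplicit false

namespace Pool.Agent.MP_6d5e8e_al.Bd

open Polynomial

variable {M C V : Type*} [AddCommGroup M] [CommRing C] [AddCommGroup V] [Module C V]
  {P : Ideal C} {w : V}

/-- The subring generated by a subgroup. -/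
def Sr (o : AddChar M C) (H : AddSubgroup M) : Subring C := Subring.closure (o '' H)

/-- The elements of `D ∩ P` kill `w` locally at `P`. -/
def Loc (P : Ideal C) (w : V) (D : Subring C) : Prop :=
  ∀ c ∈ D, c ∈ P → ∃ s, s ∉ P ∧ (s * c) • w = 0

/-- Any two multiples of `w` are dependent locally at `P`. -/
def Uni (P : Ideal C) (w : V) : Prop :=
  ∀ x y : C, ∃ a b, ¬(a ∈ P ∧ b ∈ P) ∧ (a * x - b * y) • w = 0

/-- The subring generated by `D` and `z`. -/
noncomputable def Ad (D : Subring C) (z : C) : Subring C := (eval₂RingHom D.subtype z).range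

theorem Sr.mem (o : AddChar M C) {H : AddSubgroup M} {a : M} (h : a ∈ H) : o a ∈ Sr o H :=
  Subring.subset_closure ⟨a, h, rfl⟩

theorem Sr.mono (o : AddChar M C) {H K : AddSubgroup M} (h : H ≤ K) : Sr o H ≤ Sr o K :=
  Subring.closure_mono (Set.image_mono h)

theorem Sr.le (o : AddChar M C) {H : AddSubgroup M} {D : Subring C} (h : ∀ a ∈ H, o a ∈ D) :
    Sr o H ≤ D := Subring.closure_le.2 (by rintro _ ⟨a, ha, rfl⟩; exact h a ha)

theorem le_Ad (D : Subring C) (z : C) : D ≤ Ad D z := fun c hc =>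
  ⟨Polynomial.C ⟨c, hc⟩, eval₂_C _ _⟩

theorem mem_Ad (D : Subring C) (z : C) : z ∈ Ad D z := ⟨X, eval₂_X _ _⟩

theorem Ad_le {D E : Subring C} {z : C} (h : D ≤ E) (hz : z ∈ E) : Ad D z ≤ E := by
  rintro _ ⟨g, rfl⟩
  rw [coe_eval₂RingHom, eval₂_eq_sum, Polynomial.sum]
  exact sum_mem fun n _ => mul_mem (h (g.coeff n).2) (pow_mem hz n)

theorem unit_notMem (hp : P.IsPrime) (o : AddChar M C) (a : M) : o a ∉ P := fun h =>
  hp.ne_top ((Ideal.eq_top_iff_one _).2 (by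
    have := P.mul_mem_left (o (-a)) h
    rwa [← o.map_add_eq_mul, neg_add_cancel, o.map_zero_eq_one] at this))

theorem loc_map (hp : P.IsPrime) {D : Subring C} (h : Loc P w D) :
    ∀ c ∈ (P.comap D.subtype).map D.subtype, ∃ s, s ∉ P ∧ (s * c) • w = 0 := fun c hc => by
  induction hc using Submodule.span_induction with
  | mem x hx =>
    obtain ⟨d, hd, rfl⟩ := hx
    exact h _ d.2 hd
  | zero => exact ⟨1, fun k => hp.ne_top ((Ideal.eq_top_iff_one _).2 k), by simp⟩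
  | add x y _ _ h k =>
    obtain ⟨s, hs, e⟩ := h
    obtain ⟨t, ht, f⟩ := k
    refine ⟨s * t, fun m => (hp.mem_or_mem m).elim hs ht, ?_⟩
    have : (s * t * (x + y)) • w = t • (s * x) • w + s • (t * y) • w := by module
    rw [this, e, f, smul_zero, smul_zero, add_zero]
  | smul a x _ h =>
    obtain ⟨s, hs, e⟩ := h
    exact ⟨s, hs, by rw [smul_eq_mul, mul_left_comm, mul_smul, e, smul_zero]⟩

theorem eval_mem {R : Type*} [CommRing R] (ρ : R →+* C) (q : Ideal R) (s : C) (F : R[X])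
    (h : ∀ n, F.coeff n ∈ q) : F.eval₂ ρ s ∈ q.map ρ := by
  rw [eval₂_eq_sum, Polynomial.sum]
  exact Submodule.sum_mem _ fun n _ => Ideal.mul_mem_right _ _ (Ideal.mem_map_of_mem _ (h n))

theorem loc_Ad (hp : P.IsPrime) {D : Subring C} (h : Loc P w D) (z : C)
    (k : ∀ g : D[X], g.eval₂ D.subtype z ∈ P → ∃ a, a ∉ P ∧
      a * g.eval₂ D.subtype z ∈ (P.comap D.subtype).map D.subtype) : Loc P w (Ad D z) := by
  rintro _ ⟨g, rfl⟩ hg
  obtain ⟨a, ha, m⟩ := k g hg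
  obtain ⟨s, hs, e⟩ := loc_map hp h _ m
  exact ⟨s * a, fun m => (hp.mem_or_mem m).elim hs ha, by rw [mul_assoc]; exact e⟩

/-- Adjoining a simple root. -/
theorem loc_simple (hp : P.IsPrime) {D : Subring C} (h : Loc P w D) (z : C) (F : D[X])
    (h0 : F.eval₂ D.subtype z = 0) (h1 : F.derivative.eval₂ D.subtype z ∉ P) :
    Loc P w (Ad D z) := by
  refine loc_Ad hp h z fun g hg => ?_
  set ρ := D.subtype
  set q := P.comap ρ
  have su := Polynomial.map_surjective _ (Ideal.Quotient.mk_surjective (I := q))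
  have ke : ∀ F : D[X], F.map (Ideal.Quotient.mk q) = 0 → F.eval₂ ρ z ∈ q.map ρ := fun F h =>
    eval_mem ρ q z F fun n => by rw [← Ideal.Quotient.eq_zero_iff_mem, ← coeff_map, h, coeff_zero]
  obtain ⟨a, b, c, d, e, he, h2, h3⟩ :=
    bez_dom (g.map (Ideal.Quotient.mk q)) (F.map (Ideal.Quotient.mk q))
  obtain ⟨a, rfl⟩ := su a
  obtain ⟨b, rfl⟩ := su b
  obtain ⟨c, rfl⟩ := su c
  obtain ⟨d, rfl⟩ := su d
  obtain ⟨e, rfl⟩ := Ideal.Quotient.mk_surjective e
  have z0 : (a * g - b * F).map (Ideal.Quotient.mk q) = 0 := by simp [h2]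
  refine ⟨a.eval₂ ρ z, fun ha => he ?_, ?_⟩
  · have k1 : _ ∈ P := Ideal.map_comap_le (ke (derivative (a * g - b * F)) (by
      rw [← derivative_map, z0, derivative_zero]))
    simp only [derivative_sub, derivative_mul, eval₂_sub, eval₂_add, eval₂_mul, h0, mul_zero,
      zero_add] at k1
    have hb : b.eval₂ ρ z ∈ P := by
      have := P.sub_mem (P.add_mem (P.mul_mem_left (a.derivative.eval₂ ρ z) hg)
        (P.mul_mem_right (g.derivative.eval₂ ρ z) ha)) k1
      rw [sub_sub_cancel] at this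
      exact (hp.mem_or_mem this).resolve_right h1
    have k2 : _ ∈ P := Ideal.map_comap_le (ke (c * a + d * b - Polynomial.C e) (by simp [h3]))
    rw [eval₂_sub, eval₂_add, eval₂_mul, eval₂_mul, eval₂_C] at k2
    have := P.sub_mem (P.add_mem (P.mul_mem_left (c.eval₂ ρ z) ha)
      (P.mul_mem_left (d.eval₂ ρ z) hb)) k2
    rw [sub_sub_cancel] at this
    exact Ideal.Quotient.eq_zero_iff_mem.2 this
  · have k := ke _ z0
    rwa [eval₂_sub, eval₂_mul, eval₂_mul, h0, mul_zero, sub_zero] at k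

/-- The unramified part of the tower. -/
theorem loc_unram (hp : P.IsPrime) (o : AddChar M C) {H₀ H : AddSubgroup M} (h : Loc P w (Sr o H₀))
    (hn : ∀ a ∈ H, ∃ n : ℕ, (n : C) ∉ P ∧ n • a ∈ H₀) : Loc P w (Sr o H) := by
  have key : ∀ c ∈ Sr o H, ∀ D : Subring C, Sr o H₀ ≤ D → Loc P w D →
      ∃ E : Subring C, D ≤ E ∧ Loc P w E ∧ c ∈ E := fun c hc => by
    induction hc using Subring.closure_induction with
    | mem x hx =>
      obtain ⟨a, ha, rfl⟩ := hx
      obtain ⟨n, h1, h2⟩ := hn a ha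
      refine fun D l k => ⟨_, le_Ad D (o a), loc_simple hp k _
        (X ^ n - Polynomial.C ⟨_, l (Sr.mem o h2)⟩) (by simp [o.map_nsmul_eq_pow]) ?_, mem_Ad _ _⟩
      simp only [derivative_sub, derivative_X_pow, derivative_C, sub_zero, eval₂_mul, eval₂_C,
        eval₂_X_pow, map_natCast, eval₂_natCast, ← o.map_nsmul_eq_pow]
      exact fun m => (hp.mem_or_mem m).elim h1 (unit_notMem hp o _)
    | zero => exact fun D _ k => ⟨D, le_rfl, k, zero_mem _⟩
    | one => exact fun D _ k => ⟨D, le_rfl, k, one_mem _⟩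
    | add x y _ _ a b =>
      intro D l k
      obtain ⟨E, l1, k1, m1⟩ := a D l k
      obtain ⟨F, l2, k2, m2⟩ := b E (l.trans l1) k1
      exact ⟨F, l1.trans l2, k2, add_mem (l2 m1) m2⟩
    | neg x _ a =>
      intro D l k
      obtain ⟨E, l1, k1, m1⟩ := a D l k
      exact ⟨E, l1, k1, neg_mem m1⟩
    | mul x y _ _ a b =>
      intro D l k
      obtain ⟨E, l1, k1, m1⟩ := a D l k
      obtain ⟨F, l2, k2, m2⟩ := b E (l.trans l1) k1
      exact ⟨F, l1.trans l2, k2, mul_mem (l2 m1) m2⟩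
  intro c hc m
  obtain ⟨E, -, k, e⟩ := key c hc _ le_rfl h
  exact k c e m

/-- Over a uniserial quotient finitely many elements need only one generator. -/
theorem ad_one (o : AddChar M C) {H H' : AddSubgroup M}
    (hu : ∀ x ∈ H', ∀ y ∈ H', ∃ j : ℕ, x - j • y ∈ H ∨ y - j • x ∈ H) :
    ∀ c ∈ Sr o H', ∀ z ∈ H', ∃ z' ∈ H', Ad (Sr o H) (o z) ≤ Ad (Sr o H) (o z') ∧
      c ∈ Ad (Sr o H) (o z') := fun c hc => by
  have t : ∀ (x y : M) (j : ℕ), x - j • y ∈ H → o x ∈ Ad (Sr o H) (o y) := fun x y j h => by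
    rw [← sub_add_cancel x (j • y), o.map_add_eq_mul, o.map_nsmul_eq_pow]
    exact mul_mem (le_Ad _ _ (Sr.mem o h)) (pow_mem (mem_Ad _ _) _)
  induction hc using Subring.closure_induction with
  | mem x hx =>
    obtain ⟨a, ha, rfl⟩ := hx
    intro z hz
    obtain ⟨j, h | h⟩ := hu a ha z hz
    · exact ⟨z, hz, le_rfl, t _ _ _ h⟩
    · exact ⟨a, ha, Ad_le (le_Ad _ _) (t _ _ _ h), mem_Ad _ _⟩
  | zero => exact fun z k => ⟨z, k, le_rfl, zero_mem _⟩
  | one => exact fun z k => ⟨z, k, le_rfl, one_mem _⟩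
  | add x y _ _ a b =>
    intro z k
    obtain ⟨E, k1, l1, m1⟩ := a z k
    obtain ⟨F, k2, l2, m2⟩ := b E k1
    exact ⟨F, k2, l1.trans l2, add_mem (l2 m1) m2⟩
  | neg x _ a =>
    intro z k
    obtain ⟨E, k1, l1, m1⟩ := a z k
    exact ⟨E, k1, l1, neg_mem m1⟩
  | mul x y _ _ a b =>
    intro z k
    obtain ⟨E, k1, l1, m1⟩ := a z k
    obtain ⟨F, k2, l2, m2⟩ := b E k1
    exact ⟨F, k2, l1.trans l2, mul_mem (l2 m1) m2⟩

/-- The last step of the tower. -/
theorem uni_of (hp : P.IsPrime) (o : AddChar M C) (ho : Sr o ⊤ = ⊤) {H H' : AddSubgroup M}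
    (h : Loc P w (Sr o H)) (hu : ∀ x ∈ H', ∀ y ∈ H', ∃ j : ℕ, x - j • y ∈ H ∨ y - j • x ∈ H)
    (ha : ∀ a, ∃ b ∈ H', o a • w = o b • w) : Uni P w := by
  have t : ∀ x ∈ Sr o ⊤, ∃ y ∈ Sr o H', x • w = y • w := fun x hx => by
    induction hx using Subring.closure_induction with
    | mem x hx =>
      obtain ⟨a, -, rfl⟩ := hx
      obtain ⟨b, hb, e⟩ := ha a
      exact ⟨_, Sr.mem o hb, e⟩
    | zero => exact ⟨0, zero_mem _, rfl⟩
    | one => exact ⟨1, one_mem _, rfl⟩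
    | add x y _ _ a b =>
      obtain ⟨x', h1, e1⟩ := a
      obtain ⟨y', h2, e2⟩ := b
      exact ⟨x' + y', add_mem h1 h2, by rw [add_smul, add_smul, e1, e2]⟩
    | neg x _ a =>
      obtain ⟨x', h1, e1⟩ := a
      exact ⟨-x', neg_mem h1, by rw [neg_smul, neg_smul, e1]⟩
    | mul x y _ _ a b =>
      obtain ⟨x', h1, e1⟩ := a
      obtain ⟨y', h2, e2⟩ := b
      exact ⟨x' * y', mul_mem h1 h2, by rw [mul_smul, mul_smul, e2, smul_comm, e1, smul_comm]⟩
  intro x y
  obtain ⟨x', h1, e1⟩ := t x (ho ▸ Subring.mem_top x)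
  obtain ⟨y', h2, e2⟩ := t y (ho ▸ Subring.mem_top y)
  obtain ⟨z1, k1, -, m1⟩ := ad_one o hu x' h1 0 (zero_mem _)
  obtain ⟨z, -, l, Q, rfl⟩ := ad_one o hu y' h2 z1 k1
  obtain ⟨R, rfl⟩ := l m1
  obtain ⟨a, b, hab, m⟩ := bez (Sr o H).subtype hp (o z) R Q
  obtain ⟨s, hs, e⟩ := loc_map hp h _ m
  refine ⟨s * a, s * b, fun k => hab ⟨(hp.mem_or_mem k.1).resolve_left hs,
    (hp.mem_or_mem k.2).resolve_left hs⟩, ?_⟩
  rw [sub_smul, mul_smul _ x, mul_smul _ y, e1, e2, ← e, coe_eval₂RingHom]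
  module

/-- The purely inseparable part of the tower. -/
theorem loc_insep (hp : P.IsPrime) (o : AddChar M C) {p : ℕ} (pp : p.Prime) (hc : (p : C) ∈ P)
    {B H : AddSubgroup M} (h : Loc P w (Sr o B))
    (hu : ∀ x ∈ H, ∀ y ∈ H, ∃ j : ℕ, x - j • y ∈ B ∨ y - j • x ∈ B)
    (ht : ∀ z ∈ H, ∃ k : ℕ, p ^ k • z ∈ B)
    (hz : ∀ z ∈ H, ∀ r ∈ Sr o B, ∀ s ∈ Sr o B, s ∉ P → s * o z - r ∈ P → z ∈ B) :
    Loc P w (Sr o H) := by
  intro c hc'
  obtain ⟨z, mz, -, m⟩ := ad_one o hu c hc' 0 (zero_mem _)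
  refine loc_Ad hp h (o z) (fun g hg => ⟨1, fun k => hp.ne_top ((Ideal.eq_top_iff_one _).2 k), ?_⟩)
    c m
  let D := Sr o B
  let K := FractionRing (C ⧸ P)
  let β : C →+* K := (algebraMap (C ⧸ P) K).comp (Ideal.Quotient.mk P)
  have hβ : ∀ c, β c = 0 ↔ c ∈ P := fun c => by
    rw [RingHom.comp_apply, map_eq_zero_iff _ (IsFractionRing.injective _ _),
      Ideal.Quotient.eq_zero_iff_mem]
  let k : Subfield K := Subfield.closure (D.map β)
  let δ : D →+* k := (β.comp D.subtype).codRestrict k fun d => Subfield.subset_closure ⟨d, d.2, rfl⟩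
  have : CharP K p := (CharP.charP_iff_prime_eq_zero pp).2 (by rw [← map_natCast β, hβ]; exact hc)
  have : ExpChar k p := ExpChar.prime pp
  obtain ⟨n, hn⟩ := ht z mz
  obtain ⟨f, y, e⟩ := (minpoly.natSepDegree_eq_one_iff_eq_X_pow_sub_C p).1
    ((minpoly.natSepDegree_eq_one_iff_pow_mem (F := k) (x := β (o z)) p).2
      ⟨n, δ ⟨_, Sr.mem o hn⟩, by rw [← map_pow, ← o.map_nsmul_eq_pow]; rfl⟩)
  have hy : β (o (p ^ f • z)) = y := by
    have := minpoly.aeval k (β (o z))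
    rw [e, map_sub, map_pow, aeval_X, aeval_C, sub_eq_zero] at this
    rw [o.map_nsmul_eq_pow, map_pow, this]; rfl
  have hf : p ^ f • z ∈ B := by
    obtain ⟨a, ha, b, hb, e⟩ := Subfield.mem_closure_iff.1 y.2
    rw [Subring.closure_eq] at ha hb
    obtain ⟨r, hr, rfl⟩ := ha
    obtain ⟨s, hs, rfl⟩ := hb
    have b0 : β s ≠ 0 := fun k => unit_notMem hp o _ ((hβ _).1 (by rw [hy, ← e, k, div_zero]))
    refine hz _ (nsmul_mem mz _) r hr s hs (fun k => b0 ((hβ _).2 k)) ((hβ _).1 ?_)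
    rw [map_sub, map_mul, hy, ← e, mul_div_cancel₀ _ b0, sub_self]
  let F : D[X] := X ^ p ^ f - Polynomial.C ⟨_, Sr.mem o hf⟩
  have mo : F.Monic := monic_X_pow_sub_C _ (pow_ne_zero _ pp.ne_zero)
  have F0 : F.eval₂ D.subtype (o z) = 0 := by simp [F, o.map_nsmul_eq_pow]
  have ev : g.eval₂ D.subtype (o z) = (g %ₘ F).eval₂ D.subtype (o z) := by
    conv_lhs => rw [← modByMonic_add_div g F]
    rw [eval₂_add, eval₂_mul, F0, zero_mul, add_zero]
  rw [one_mul, ev]
  have r0 : (g %ₘ F).map δ = 0 := by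
    by_contra c
    have d1 := minpoly.degree_le_of_ne_zero k (β (o z)) c (by
      rw [aeval_def, eval₂_map, show (algebraMap k K).comp δ = β.comp D.subtype from rfl,
        ← hom_eval₂, hβ, ← ev]
      exact hg)
    have : Nontrivial D := δ.domain_nontrivial
    have d2 := degree_modByMonic_lt g mo
    rw [degree_X_pow_sub_C (pow_pos pp.pos _)] at d2
    rw [e, degree_X_pow_sub_C (pow_pos pp.pos _)] at d1
    exact absurd (d1.trans degree_map_le) d2.not_ge
  refine eval_mem _ _ _ _ fun n => (hβ _).1 ?_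
  have := congrArg (fun F => ((coeff F n : k) : K)) r0
  simpa [δ] using this

/-- Congruences for roots of elements of `D` depend only on the prime below. -/
theorem frob {P' : Ideal C} (hp : P.IsPrime) {p : ℕ} (pp : p.Prime) (hc : (p : C) ∈ P)
    {D : Subring C} (h : ∀ c ∈ D, c ∈ P' ↔ c ∈ P) {x r : C} {k : ℕ} (hx : x ^ p ^ k ∈ D)
    (hr : r ∈ D) (m : x - r ∈ P') : x - r ∈ P := by
  obtain ⟨s, e⟩ := exists_add_pow_prime_pow_eq pp (x - r) r k
  rw [sub_add_cancel] at e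
  have h1 : x ^ p ^ k - r ^ p ^ k ∈ P := (h _ (sub_mem hx (pow_mem hr _))).1 (by
    rw [e, add_sub_right_comm, add_sub_cancel_right]
    exact P'.add_mem (P'.pow_mem_of_mem m _ (pow_pos pp.pos _))
      (P'.mul_mem_right _ (P'.mul_mem_right _ (P'.mul_mem_left _ m))))
  rw [e, add_sub_right_comm, add_sub_cancel_right] at h1
  refine hp.mem_of_pow_mem (p ^ k) ((P.add_mem_iff_left ?_).1 h1)
  exact P.mul_mem_right _ (P.mul_mem_right _ (P.mul_mem_right _ hc))

end Pool.Agent.MP_6d5e8e_al.Bd
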