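import Pool.Agent.MP_6d5e8e_al.H27.Comm
import Mathlib.Algebra.MonoidAlgebra.MapDomain
import Mathlib.Algebra.Group.Pointwise.Finset.Basic
import Mathlib.Analysis.SpecificLimits.Normed
import Mathlib.RingTheory.KrullDimension.Polynomial
import Mathlib.RingTheory.KrullDimension.PID
import Mathlib.GroupTheory.Finiteness
import Mathlib.GroupTheory.Commutator.Basic

/-! No cyclic module is isomorphic to its square when the group is abelian-by-abelian and the
normal subgroup is locally cyclic modulo a finitely generated subgroup. -/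

set_option autoImplicit false

namespace Pool.Agent.MP_6d5e8e_al.Bd

open Finset Polynomial MonoidAlgebra
open scoped Pointwise commutatorElement

theorem card_pow_le {Q : Type*} [CommGroup Q] [DecidableEq Q] (T : Finset Q) (n : ℕ) :
    (T ^ n).card ≤ (n + 1) ^ T.card := by
  have h : ∀ n, ∀ x ∈ T ^ n, ∃ e : T → ℕ, (∀ s, e s ≤ n) ∧ ∏ s : T, (s : Q) ^ e s = x := by
    intro n
    induction n with
    | zero => exact fun x hx => ⟨0, fun _ => le_rfl, by simpa [eq_comm] using hx⟩
    | succ n ih =>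
      intro x hx
      rw [pow_succ] at hx
      obtain ⟨y, hy, s, hs, rfl⟩ := mem_mul.1 hx
      obtain ⟨e, he, rfl⟩ := ih y hy
      refine ⟨fun u => e u + if u = ⟨s, hs⟩ then 1 else 0, fun u => ?_, ?_⟩
      · have := he u
        beta_reduce
        split_ifs <;> omega
      · simp only [pow_add, prod_mul_distrib]
        simp
  calc (T ^ n).card ≤ ((Fintype.piFinset fun _ : T => range (n + 1)).image
        fun e => ∏ s : T, (s : Q) ^ e s).card := card_le_card fun x hx => by
        obtain ⟨e, he, rfl⟩ := h n x hx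
        exact mem_image_of_mem _ (Fintype.mem_piFinset.2 fun s => mem_range_succ_iff.2 (he s))
    _ ≤ _ := card_image_le.trans (by simp)

theorem exists_lt_two_pow (k K : ℕ) : ∃ n : ℕ, (n + 1) ^ k * K < 2 ^ n := by
  have h := tendsto_pow_const_div_const_pow_of_one_lt k (r := 2) one_lt_two
  have p : (0 : ℝ) < 1 / (2 * (K + 1)) := by positivity
  obtain ⟨m, h1, h2⟩ := ((h.eventually (gt_mem_nhds p)).and (Filter.eventually_ge_atTop 1)).exists
  obtain ⟨n, rfl⟩ := Nat.exists_eq_add_of_le' h2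
  refine ⟨n, ?_⟩
  rw [div_lt_div_iff₀ (by positivity) (by positivity), pow_succ] at h1
  have : (((n + 1 : ℕ) : ℝ)) ^ k * K < 2 ^ n := by
    have : (0 : ℝ) ≤ ((n + 1 : ℕ) : ℝ) ^ k := by positivity
    nlinarith
  exact_mod_cast this

/-- Exponentially many independent copies do not fit into polynomially many pieces. -/
theorem grow {G Q C V : Type*} [Group G] [CommGroup Q] (χ : G →* Q) [CommRing C]
    (φ : C →+* MonoidAlgebra ℤ G) [AddCommGroup V] [Module (MonoidAlgebra ℤ G) V] [Module C V]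
    (hφ : ∀ (c : C) (x : V), c • x = φ c • x) (hker : ∀ g, χ g = 1 → ∃ c, φ c = of ℤ G g)
    (v : V) (hv : Submodule.span (MonoidAlgebra ℤ G) {v} = ⊤)
    (e : V ≃ₗ[MonoidAlgebra ℤ G] V × V) {p : Ideal C} (hp : p.IsPrime)
    (hI : ∀ c : C, c • v = 0 → c ∈ p) {K : ℕ} (hK : ∀ (g : G) (N : Submodule C V) (k : ℕ),
      Dep p N k → Dep p (N ⊔ Submodule.span C {of ℤ G g • v}) (k + K)) : False := by
  classical
  let W : Finset Q → Submodule C V := fun E =>
    Submodule.span C {x | ∃ g, χ g ∈ E ∧ of ℤ G g • v = x}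
  have hW : ∀ {E g}, χ g ∈ E → of ℤ G g • v ∈ W E := fun h => Submodule.subset_span ⟨_, h, rfl⟩
  have dW : ∀ E, Dep p (W E) (E.card * K) := fun E => by
    induction E using Finset.induction_on with
    | empty =>
      refine (dep_bot hp).mono (Submodule.span_le.2 ?_) (by simp)
      rintro x ⟨g, h, _⟩
      simp at h
    | insert q E hq ih =>
      rw [card_insert_of_notMem hq, add_mul, one_mul]
      by_cases c : ∃ g, χ g = q
      · obtain ⟨g, rfl⟩ := c
        refine (hK g _ _ ih).mono (Submodule.span_le.2 ?_) le_rfl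
        rintro x ⟨h, hh, rfl⟩
        rcases mem_insert.1 hh with k | k
        · obtain ⟨c, hc⟩ := hker (h * g⁻¹) (by simp [k])
          refine Submodule.mem_sup_right (Submodule.mem_span_singleton.2 ⟨c, ?_⟩)
          rw [hφ, hc, ← mul_smul, ← map_mul, inv_mul_cancel_right]
        · exact Submodule.mem_sup_left (hW k)
      · refine ih.mono (Submodule.span_le.2 ?_) (Nat.le_add_right _ _)
        rintro x ⟨h, hh, rfl⟩
        exact hW ((mem_insert.1 hh).resolve_left fun k => c ⟨h, k⟩)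
  let B : Bool → V →ₗ[MonoidAlgebra ℤ G] V := fun b =>
    e.symm.toLinearMap ∘ₗ if b then LinearMap.inl _ V V else LinearMap.inr _ V V
  let A : Bool → V →ₗ[MonoidAlgebra ℤ G] V := fun b =>
    (if b then LinearMap.fst _ V V else LinearMap.snd _ V V) ∘ₗ e.toLinearMap
  have hAB : ∀ b b' x, A b (B b' x) = if b = b' then x else 0 := by
    rintro (_ | _) (_ | _) x <;> simp [A, B]
  have hr : ∀ b, ∃ r : MonoidAlgebra ℤ G, r • v = B b v := fun b =>
    Submodule.mem_span_singleton.1 (hv ▸ Submodule.mem_top)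
  choose r hr using hr
  let T : Finset Q := ((r true).coeff.support ∪ (r false).coeff.support).image χ
  have hB : ∀ b E, ∀ x ∈ W E, B b x ∈ W (E * T) := fun b E x hx => by
    induction hx using Submodule.span_induction with
    | zero => simp
    | add x y _ _ h k => rw [map_add]; exact add_mem h k
    | smul c x _ h => rw [hφ, map_smul, ← hφ]; exact Submodule.smul_mem _ _ h
    | mem x hx =>
      obtain ⟨g, hg, rfl⟩ := hx
      rw [map_smul, ← hr, ← mul_smul, ← sum_coeff_single (r b), Finsupp.sum, mul_sum, sum_smul]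
      refine sum_mem fun s hs => ?_
      have : of ℤ G g * single s ((r b).coeff s) = (r b).coeff s • of ℤ G (g * s) := by
        simp [single_mul_single]
      rw [this, smul_assoc]
      refine zsmul_mem (hW ?_) _
      rw [map_mul]
      refine mul_mem_mul hg (mem_image_of_mem _ ?_)
      cases b
      · exact mem_union_right _ hs
      · exact mem_union_left _ hs
  have words : ∀ n : ℕ, ∃ (ι : Type) (_ : Fintype ι), Fintype.card ι = 2 ^ n ∧
      ∃ α β : ι → V →ₗ[MonoidAlgebra ℤ G] V,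
        (∀ i j x, α i (β j x) = if i = j then x else 0) ∧ ∀ i, β i v ∈ W (T ^ n) := fun n => by
    induction n with
    | zero =>
      refine ⟨Unit, inferInstance, rfl, fun _ => .id, fun _ => .id, by simp, fun _ => ?_⟩
      have := hW (E := T ^ 0) (g := 1) (by simp)
      rwa [map_one, one_smul] at this
    | succ n ih =>
      obtain ⟨ι, _, hc, α, β, h1, h2⟩ := ih
      refine ⟨ι × Bool, inferInstance, by simp [hc, pow_succ], fun i => α i.1 ∘ₗ A i.2,
        fun i => B i.2 ∘ₗ β i.1, fun i j x => ?_, fun i => pow_succ T n ▸ hB _ _ _ (h2 _)⟩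
      simp only [LinearMap.comp_apply, hAB, Prod.ext_iff]
      by_cases c : i.2 = j.2 <;> simp [c, h1]
  obtain ⟨n, hn⟩ := exists_lt_two_pow T.card K
  obtain ⟨ι, _, hc, α, β, h1, h2⟩ := words n
  obtain ⟨l, ⟨i, -, hi⟩, e⟩ := dW (T ^ n) ι univ (fun i => β i v) (fun i _ => h2 i) (by
    rw [card_univ, hc]
    exact (Nat.mul_le_mul_right _ (card_pow_le T n)).trans_lt hn)
  have := congrArg (α i) e
  simp only [map_sum, hφ, map_smul, h1, map_zero, smul_ite, smul_zero, sum_ite_eq, mem_univ,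
    if_true] at this
  exact hi (hI _ (by rw [hφ]; exact this))

/-- The abstract form of the theorem. -/
theorem no_sq' {G A Q V : Type*} [Group G] [CommGroup A] [CommGroup Q] (ι : A →* G) (χ : G →* Q)
    (hker : ∀ g, χ g = 1 → ∃ a, ι a = g) (hconj : ∀ g, ∃ e : A ≃* A, ∀ a, ι (e a) * g = g * ι a)
    (S : Finset A) (htor : ∀ a : A, ∃ n, 0 < n ∧ a ^ n ∈ Submonoid.closure (S : Set A))
    (hc : ∀ T : Finset A, ∃ z, ∀ x ∈ T, ∃ b ∈ Submonoid.closure (S : Set A), ∃ i : ℕ, x = b * z ^ i)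
    [AddCommGroup V] [Module (MonoidAlgebra ℤ G) V] [Nontrivial V]
    (v : V) (hv : Submodule.span (MonoidAlgebra ℤ G) {v} = ⊤)
    (e : V ≃ₗ[MonoidAlgebra ℤ G] V × V) : False := by
  classical
  let C := MonoidAlgebra ℤ A
  let R := MvPolynomial S ℤ
  let φ : C →+* MonoidAlgebra ℤ G := mapDomainRingHom ℤ ι
  have hφ : ∀ a z, φ (single a z) = single (ι a) z := fun a z => mapDomain_single
  let : Module C V := Module.compHom V φ
  let ρ : R →+* C := (MvPolynomial.aeval fun s : S => of ℤ A s).toRingHom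
  let : Algebra R C := ρ.toAlgebra
  have hρ : ∀ b ∈ Submonoid.closure (S : Set A), ∃ r, ρ r = of ℤ A b := fun b hb => by
    induction hb using Submonoid.closure_induction with
    | mem x hx => exact ⟨.X ⟨x, hx⟩, MvPolynomial.aeval_X _ _⟩
    | one => exact ⟨1, by rw [map_one, map_one]⟩
    | mul x y _ _ h k =>
      obtain ⟨r, h⟩ := h
      obtain ⟨s, k⟩ := k
      exact ⟨r * s, by rw [map_mul, map_mul, h, k]⟩
  have hs : ∀ (a : A) (z : ℤ), (single a z : C) = z • of ℤ A a := fun a z => by simp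
  have : Algebra.IsIntegral R C := ⟨fun x => by
    induction x using MonoidAlgebra.induction_linear with
    | zero => exact isIntegral_zero
    | add x y h k => exact h.add k
    | single a z =>
      obtain ⟨n, hn, h⟩ := htor a
      obtain ⟨r, hr⟩ := hρ _ h
      rw [hs]
      refine IsIntegral.zsmul (IsIntegral.of_pow hn ?_) _
      rw [← map_pow, ← hr]
      exact isIntegral_algebraMap⟩
  have hd : ringKrullDim R ≤ (1 + Nat.card S : ℕ) := by
    rw [MvPolynomial.ringKrullDim_of_isNoetherianRing,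
      IsPrincipalIdealRing.ringKrullDim_eq_one ℤ Int.not_isField]
    push_cast
    exact le_rfl
  have hm : ∀ x y : C, ∃ (s : C) (P Q : R[X]),
      P.eval₂ (algebraMap R C) s = x ∧ Q.eval₂ (algebraMap R C) s = y := fun x y => by
    obtain ⟨z, hz⟩ := hc (x.coeff.support ∪ y.coeff.support)
    have : ∀ w : C, w.coeff.support ⊆ x.coeff.support ∪ y.coeff.support →
        w ∈ (eval₂RingHom ρ (of ℤ A z)).range := fun w hw => by
      rw [← sum_coeff_single w, Finsupp.sum]
      refine sum_mem fun a ha => ?_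
      obtain ⟨b, hb, i, rfl⟩ := hz a (hw ha)
      obtain ⟨r, hr⟩ := hρ b hb
      rw [hs]
      refine zsmul_mem (RingHom.mem_range.2 ⟨Polynomial.C r * X ^ i, ?_⟩) _
      rw [map_mul, map_pow, coe_eval₂RingHom, eval₂_C, eval₂_X, hr, map_mul, map_pow]
    obtain ⟨P, hP⟩ := this x subset_union_left
    obtain ⟨Q, hQ⟩ := this y subset_union_right
    exact ⟨_, P, Q, hP, hQ⟩
  let I : Ideal C := LinearMap.ker (LinearMap.toSpanSingleton C V v)
  have hI : ∀ c, c ∈ I ↔ φ c • v = 0 := fun c => Iff.rfl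
  have hne : I ≠ ⊤ := fun h => by
    have := (hI 1).1 (h ▸ Submodule.mem_top)
    rw [map_one, one_smul] at this
    rw [this, Submodule.span_zero_singleton] at hv
    exact bot_ne_top hv
  obtain ⟨p, hp, hIp, K, hK⟩ := core hd hm hne V
  refine grow χ φ (fun _ _ => rfl) (fun g hg => ?_) v hv e hp (fun c h => hIp h) (K := K)
    fun g => ?_
  · obtain ⟨a, rfl⟩ := hker g hg
    exact ⟨single a 1, hφ a 1⟩
  · obtain ⟨ε, hε⟩ := hconj g
    refine hK (mapDomainRingEquiv ℤ ε) _ fun c hc => ?_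
    have : ∀ c : C, φ (mapDomainRingEquiv ℤ ε c) * of ℤ G g = of ℤ G g * φ c := fun c => by
      induction c using MonoidAlgebra.induction_linear with
      | zero => simp
      | add x y h k => simp only [map_add, add_mul, mul_add, h, k]
      | single a z => simp [mapDomainRingEquiv_single, hφ, single_mul_single, hε]
    show φ (mapDomainRingEquiv ℤ ε c) • of ℤ G g • v = 0
    rw [← mul_smul, this, mul_smul, (hI c).1 hc, smul_zero]

theorem prep {A : Type*} [CommGroup A] (B : Subgroup A) (hfg : B.FG)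
    (hc : ∀ x y : A, ∃ z, ∃ b ∈ B, ∃ b' ∈ B, ∃ i j : ℤ, x = b * z ^ i ∧ y = b' * z ^ j) :
    ∃ S : Finset A, (∀ a : A, ∃ n, 0 < n ∧ a ^ n ∈ Submonoid.closure (S : Set A)) ∧
      ∀ T : Finset A, ∃ z, ∀ x ∈ T, ∃ b ∈ Submonoid.closure (S : Set A), ∃ i : ℕ,
        x = b * z ^ i := by
  classical
  obtain ⟨B', h1, h2, h3⟩ : ∃ B' : Subgroup A, B ≤ B' ∧ B'.FG ∧ ∀ a : A, ∃ n, 0 < n ∧ a ^ n ∈ B' := by
    by_cases c : ∀ a, a ∈ B
    · exact ⟨B, le_rfl, hfg, fun a => ⟨1, one_pos, c _⟩⟩
    obtain ⟨x, hx⟩ := not_forall.1 c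
    obtain ⟨S, hS, hf⟩ := (Subgroup.fg_iff B).1 hfg
    have l : B ≤ Subgroup.closure (insert x S) :=
      hS ▸ Subgroup.closure_mono (Set.subset_insert _ _)
    refine ⟨_, l, (Subgroup.fg_iff _).2 ⟨_, rfl, hf.insert x⟩, fun a => ?_⟩
    obtain ⟨z, b, hb, b', hb', i, j, e1, e2⟩ := hc x a
    have hi : i ≠ 0 := fun h => hx (by rw [e1, h, zpow_zero, mul_one]; exact hb)
    have : a ^ i ∈ Subgroup.closure (insert x S) := by
      have : a ^ i = b' ^ i * (b⁻¹ * x) ^ j := by
        rw [e2, e1, inv_mul_cancel_left, mul_zpow, ← zpow_mul, ← zpow_mul, mul_comm i j]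
      rw [this]
      exact mul_mem (zpow_mem (l hb') _) (zpow_mem (mul_mem (inv_mem (l hb))
        (Subgroup.subset_closure (Set.mem_insert _ _))) _)
    refine ⟨i.natAbs, Int.natAbs_pos.2 hi, ?_⟩
    rw [← zpow_natCast]
    rcases Int.natAbs_eq i with h | h
    · rwa [← h]
    · rw [← inv_mem_iff, ← zpow_neg, ← h]; exact this
  obtain ⟨S, hS⟩ := (Subgroup.fg_iff_submonoid_fg B').1 h2
  refine ⟨S, by rw [hS]; exact h3, fun T => ?_⟩
  rw [hS]
  obtain ⟨z, hz⟩ : ∃ z, ∀ x ∈ T, ∃ b ∈ B', ∃ i : ℤ, x = b * z ^ i := by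
    induction T using Finset.induction_on with
    | empty => exact ⟨1, by simp⟩
    | insert x T _ ih =>
      obtain ⟨z, hz⟩ := ih
      obtain ⟨w, b, hb, b', hb', i, j, e1, e2⟩ := hc x z
      refine ⟨w, fun y hy => ?_⟩
      rcases mem_insert.1 hy with rfl | hy
      · exact ⟨b, h1 hb, i, e1⟩
      · obtain ⟨c, hc, k, e⟩ := hz y hy
        exact ⟨c * b' ^ k, mul_mem hc (zpow_mem (h1 hb') _), j * k, by
          rw [e, e2, mul_zpow, zpow_mul, mul_assoc]⟩
  obtain ⟨n, hn, h⟩ := h3 z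
  refine ⟨z, fun x hx => ?_⟩
  obtain ⟨b, hb, i, e⟩ := hz x hx
  refine ⟨b * (z ^ n) ^ (i / n), mul_mem hb (zpow_mem h _), (i % n).toNat, ?_⟩
  rw [e, mul_assoc, ← zpow_natCast, ← zpow_natCast, ← zpow_mul, ← zpow_add,
    Int.toNat_of_nonneg (Int.emod_nonneg _ (by omega)), Int.mul_ediv_add_emod]

/-- The no-go theorem. -/
theorem no_sq {G V : Type*} [Group G] (A B : Subgroup G) (hA : ∀ x ∈ A, ∀ y ∈ A, x * y = y * x)
    (hQ : commutator G ≤ A) (hB : B ≤ A) (hfg : B.FG)
    (hc : ∀ x ∈ A, ∀ y ∈ A, ∃ z ∈ A, ∃ b ∈ B, ∃ b' ∈ B, ∃ i j : ℤ, x = b * z ^ i ∧ y = b' * z ^ j)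
    [AddCommGroup V] [Module (MonoidAlgebra ℤ G) V] [Nontrivial V]
    (v : V) (hv : Submodule.span (MonoidAlgebra ℤ G) {v} = ⊤)
    (e : V ≃ₗ[MonoidAlgebra ℤ G] V × V) : False := by
  have hn : A.Normal := ⟨fun a ha g => by
    have : g * a * g⁻¹ = ⁅g, a⁆ * a := by rw [commutatorElement_def, inv_mul_cancel_right]
    rw [this]
    exact mul_mem (hQ (Subgroup.commutator_mem_commutator (Subgroup.mem_top _)
      (Subgroup.mem_top _))) ha⟩
  let : CommGroup A := { (inferInstance : Group A) with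
    mul_comm := fun x y => Subtype.ext (hA _ x.2 _ y.2) }
  have hfg' : (B.subgroupOf A).FG := by
    have : Group.FG B := (Group.fg_iff_subgroup_fg B).2 hfg
    exact (Group.fg_iff_subgroup_fg _).1 (Group.fg_of_surjective
      (f := (Subgroup.subgroupOfEquivOfLe hB).symm.toMonoidHom) (MulEquiv.surjective _))
  obtain ⟨S, h1, h2⟩ := prep (B.subgroupOf A) hfg' fun x y => by
    obtain ⟨z, hz, b, hb, b', hb', i, j, e1, e2⟩ := hc x x.2 y y.2
    exact ⟨⟨z, hz⟩, ⟨b, hB hb⟩, hb, ⟨b', hB hb'⟩, hb', i, j, Subtype.ext e1, Subtype.ext e2⟩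
  let : CommGroup (G ⧸ A) := { (inferInstance : Group (G ⧸ A)) with
    mul_comm := (Subgroup.Normal.quotient_commutative_iff_commutator_le.2 hQ).is_comm.comm }
  exact no_sq' A.subtype (QuotientGroup.mk' A)
    (fun g hg => ⟨⟨g, (QuotientGroup.eq_one_iff g).1 hg⟩, rfl⟩)
    (fun g => ⟨MulAut.conjNormal g, fun a => by simp⟩) S h1 h2 v hv e

end Pool.Agent.MP_6d5e8e_al.Bd
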