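import Pool.Agent.MP_6d5e8e_al.H27.Yes
import Pool.Agent.MP_6d5e8e_al.H27.No
import Mathlib.GroupTheory.FiniteAbelian.Basic
import Mathlib.GroupTheory.FinitelyPresentedGroup
import Mathlib.Data.ZMod.QuotientRing
import Mathlib.Algebra.Field.ZMod
import Mathlib.GroupTheory.Solvable

/-! The dichotomy for ascending extensions of finitely generated abelian groups. -/

set_option autoImplicit false

namespace Pool.Agent.MP_6d5e8e_al.Bd

open scoped commutatorElement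

/-- A finitely generated abelian group is cyclic or maps onto the square of a prime field. -/
theorem cyc_or (M : Type*) [AddCommGroup M] [AddGroup.FG M] : IsAddCyclic M ∨
    ∃ p : ℕ, p.Prime ∧ ∃ π : M →+ ZMod p × ZMod p, Function.Surjective π := by
  classical
  obtain ⟨n, ι, _, p, -, e, ⟨f⟩⟩ := AddCommGroup.equiv_free_prod_directSum_zmod M
  let m : Fin n ⊕ ι → ℕ := Sum.elim (fun _ => 0) fun i => p i ^ e i
  let g : M ≃+ ∀ j, ZMod (m j) := f.trans ((AddEquiv.prodCongr Finsupp.addEquivFunOnFinite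
    (DirectSum.linearEquivFunOnFintype ℤ ι fun i => ZMod (p i ^ e i)).toAddEquiv).trans
      (LinearEquiv.sumPiEquivProdPi ℤ (Fin n) ι fun j => ZMod (m j)).symm.toAddEquiv)
  by_cases c : Pairwise fun i j => Nat.Coprime (m i) (m j)
  · exact Or.inl (isAddCyclic_of_surjective
      ((ZMod.prodEquivPi m c).toAddEquiv.trans g.symm) (AddEquiv.surjective _))
  · obtain ⟨i, j, hij, h⟩ : ∃ i j, i ≠ j ∧ ¬Nat.Coprime (m i) (m j) := by
      by_contra k
      exact c fun i j h => not_not.1 fun z => k ⟨i, j, h, z⟩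
    obtain ⟨q, hq, hi, hj⟩ := Nat.Prime.not_coprime_iff_dvd.1 h
    refine Or.inr ⟨q, hq, (((ZMod.castHom hi (ZMod q)).toAddMonoidHom.comp
      (Pi.evalAddMonoidHom _ i)).prod ((ZMod.castHom hj (ZMod q)).toAddMonoidHom.comp
        (Pi.evalAddMonoidHom _ j))).comp g.toAddMonoidHom, fun z => ?_⟩
    obtain ⟨a, ha⟩ := ZMod.castHom_surjective hi z.1
    obtain ⟨b, hb⟩ := ZMod.castHom_surjective hj z.2
    refine ⟨g.symm (Pi.single i a + Pi.single j b), Prod.ext ?_ ?_⟩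
    · simpa [Pi.single_eq_of_ne hij] using ha
    · simpa [Pi.single_eq_of_ne hij.symm] using hb

theorem cyc_or' {M : Type*} [AddCommGroup M] [AddGroup.FG M] (θ : M →+ M) :
    (∃ z, ∀ x, ∃ (b : M) (i : ℤ), x = θ b + i • z) ∨ ∃ p : ℕ, p.Prime ∧
      ∃ π : M →+ ZMod p × ZMod p, Function.Surjective π ∧ ∀ b, π (θ b) = 0 := by
  have : AddGroup.FG (M ⧸ θ.range) :=
    AddGroup.fg_of_surjective (QuotientAddGroup.mk'_surjective θ.range)
  rcases cyc_or (M ⧸ θ.range) with ⟨z, hz⟩ | ⟨p, hp, π, h⟩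
  · obtain ⟨z, rfl⟩ := QuotientAddGroup.mk_surjective z
    refine Or.inl ⟨z, fun x => ?_⟩
    obtain ⟨i, hi⟩ := hz (x : M ⧸ θ.range)
    have : ((i • z : M) : M ⧸ θ.range) = x := hi
    obtain ⟨b, hb⟩ := QuotientAddGroup.eq.1 this
    exact ⟨b, i, by rw [hb]; abel⟩
  · refine Or.inr ⟨p, hp, π.comp (QuotientAddGroup.mk' _),
      h.comp (QuotientAddGroup.mk'_surjective _), fun b => ?_⟩
    have : ((θ b : M) : M ⧸ θ.range) = 0 := (QuotientAddGroup.eq_zero_iff _).2 ⟨b, rfl⟩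
    simp [this]

/-- If the cokernel of the square is cyclic then so is the cokernel of every power. -/
theorem cyc_pow {M : Type*} [AddCommGroup M] [AddGroup.FG M] (θ : AddMonoid.End M) (z : M)
    (hz : ∀ x, ∃ (b : M) (i : ℤ), x = θ (θ b) + i • z) (n : ℕ) :
    ∃ z, ∀ x, ∃ (b : M) (i : ℤ), x = (θ ^ n) b + i • z := by
  refine (cyc_or' (θ ^ n : AddMonoid.End M)).resolve_right ?_
  rintro ⟨p, hp, π, hs, h0⟩
  have : Fact p.Prime := ⟨hp⟩
  have sc : ∀ j x, (θ ^ (j + 1)) x = (θ ^ j) (θ x) := fun j x => by rw [pow_succ]; rfl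
  have dn : ∀ j, (∀ x, π ((θ ^ (j + 2)) x) = 0) → ∀ x, π ((θ ^ (j + 1)) x) = 0 := fun j h x => by
    obtain ⟨b, i, e⟩ := hz (θ z)
    have k : π ((θ ^ (j + 1)) z) = 0 := by
      by_cases c : (i : ZMod p) = 0
      · rw [sc, e, map_add, map_add, ← sc, ← sc, h, map_zsmul, map_zsmul, zero_add,
          ← Int.cast_smul_eq_zsmul (ZMod p), c, zero_smul]
      · have := h z
        rw [sc, e, map_add, map_add, ← sc, h, map_zsmul, map_zsmul, zero_add,
          ← Int.cast_smul_eq_zsmul (ZMod p)] at this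
        exact (smul_eq_zero.1 this).resolve_left c
    obtain ⟨b, i, rfl⟩ := hz x
    rw [map_add, map_add, ← sc, h, map_zsmul, map_zsmul, k, smul_zero, add_zero]
  have one : ∀ j, (∀ x, π ((θ ^ (j + 1)) x) = 0) → ∀ x, π (θ x) = 0 := fun j => by
    induction j with
    | zero => exact fun h x => by simpa using h x
    | succ j ih => exact fun h => ih (dn j h)
  have h1 := one n fun x => by rw [sc]; exact h0 _
  have all : ∀ y, ∃ i : ℤ, y = i • π z := fun y => by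
    obtain ⟨x, rfl⟩ := hs y
    obtain ⟨b, i, rfl⟩ := hz x
    exact ⟨i, by rw [map_add, h1, zero_add, map_zsmul]⟩
  obtain ⟨i, hi⟩ := all (1, 0)
  obtain ⟨j, hj⟩ := all (0, 1)
  simp only [Prod.ext_iff, Prod.smul_fst, Prod.smul_snd] at hi hj
  simp only [zsmul_eq_mul] at hi hj
  exact one_ne_zero (α := ZMod p) (by
    linear_combination (↑j * (π z).2) * hi.1 + hj.2 - (↑j * (π z).1) * hi.2)

/-- The dichotomy. -/
theorem dich {G : Type} [Group G] (B : Subgroup G) (t : G) (hfg : B.FG)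
    (hB : ∀ x ∈ B, ∀ y ∈ B, x * y = y * x) (ht : ∀ b ∈ B, t * b * t⁻¹ ∈ B)
    (hG : B ⊔ Subgroup.zpowers t = ⊤) : Group.FG G ∧ derivedSeries G 2 = ⊥ ∧
      (HasSq G ↔ ¬∃ z ∈ B, ∀ x ∈ B, ∃ b ∈ B, ∃ i : ℤ, x = t ^ 2 * b * (t ^ 2)⁻¹ * z ^ i) := by
  have hp : ∀ n : ℕ, ∀ b ∈ B, t ^ n * b * (t ^ n)⁻¹ ∈ B := fun n b hb => by
    induction n with
    | zero => simpa using hb
    | succ n ih =>
      have := ht _ ih
      rwa [show t * (t ^ n * b * (t ^ n)⁻¹) * t⁻¹ = t ^ (n + 1) * b * (t ^ (n + 1))⁻¹ by group]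
        at this
  have up : ∀ (x : G) (n k : ℕ), t ^ n * x * (t ^ n)⁻¹ ∈ B →
      t ^ (n + k) * x * (t ^ (n + k))⁻¹ ∈ B := fun x n k h => by
    have := hp k _ h
    rwa [show t ^ k * (t ^ n * x * (t ^ n)⁻¹) * (t ^ k)⁻¹ = t ^ (n + k) * x * (t ^ (n + k))⁻¹ by
      group] at this
  have both : ∀ x y : G, (∃ n : ℕ, t ^ n * x * (t ^ n)⁻¹ ∈ B) → (∃ n : ℕ, t ^ n * y * (t ^ n)⁻¹ ∈ B) →
      ∃ n : ℕ, t ^ n * x * (t ^ n)⁻¹ ∈ B ∧ t ^ n * y * (t ^ n)⁻¹ ∈ B := fun x y ⟨n, h⟩ ⟨k, l⟩ =>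
    ⟨n + k, up x n k h, add_comm k n ▸ up y k n l⟩
  let A : Subgroup G :=
    { carrier := {x | ∃ n : ℕ, t ^ n * x * (t ^ n)⁻¹ ∈ B}
      one_mem' := ⟨0, by simp⟩
      mul_mem' := fun {x y} h k => by
        obtain ⟨n, h, k⟩ := both x y h k
        exact ⟨n, by simpa [mul_assoc] using B.mul_mem h k⟩
      inv_mem' := fun {x} ⟨n, h⟩ => ⟨n, by simpa [mul_assoc] using B.inv_mem h⟩ }
  have hBA : B ≤ A := fun x h => ⟨0, by simpa using h⟩
  have hA : ∀ x ∈ A, ∀ y ∈ A, x * y = y * x := fun x h y k => by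
    obtain ⟨n, h, k⟩ := both x y h k
    have := hB _ h _ k
    simp only [← mul_assoc, inv_mul_cancel_right, mul_left_inj] at this
    simpa only [mul_assoc, mul_right_inj] using this
  have hn : A.Normal := by
    rw [← Subgroup.normalizer_eq_top_iff, eq_top_iff, ← hG, sup_le_iff, Subgroup.zpowers_le]
    refine ⟨hBA.trans A.le_normalizer, Subgroup.mem_normalizer_iff.2 fun x => ⟨?_, ?_⟩⟩
    · rintro ⟨n, h⟩
      refine ⟨n, ?_⟩
      have := up x n 1 h
      rwa [show t ^ (n + 1) * x * (t ^ (n + 1))⁻¹ = t ^ n * (t * x * t⁻¹) * (t ^ n)⁻¹ by group]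
        at this
    · rintro ⟨n, h⟩
      refine ⟨n + 1, ?_⟩
      rwa [show t ^ (n + 1) * x * (t ^ (n + 1))⁻¹ = t ^ n * (t * x * t⁻¹) * (t ^ n)⁻¹ by group]
  have hQ : commutator G ≤ A := by
    have dec : ∀ g : G, ∃ i : ℤ, (g : G ⧸ A) = (t : G ⧸ A) ^ i := fun g => by
      have : (⊤ : Subgroup G) ≤ (Subgroup.zpowers (t : G ⧸ A)).comap (QuotientGroup.mk' A) := by
        rw [← hG, sup_le_iff, Subgroup.zpowers_le]
        refine ⟨fun b hb => ?_, Subgroup.mem_zpowers _⟩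
        rw [Subgroup.mem_comap, QuotientGroup.mk'_apply, (QuotientGroup.eq_one_iff b).2 (hBA hb)]
        exact one_mem _
      obtain ⟨i, hi⟩ := this (Subgroup.mem_top g)
      exact ⟨i, hi.symm⟩
    rw [commutator_def, Subgroup.commutator_le]
    intro g _ h _
    obtain ⟨i, hi⟩ := dec g
    obtain ⟨j, hj⟩ := dec h
    rw [← QuotientGroup.eq_one_iff, commutatorElement_def]
    simp only [QuotientGroup.mk_mul, QuotientGroup.mk_inv, hi, hj]
    group
  let : CommGroup B := { (inferInstance : Group B) with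
    mul_comm := fun x y => Subtype.ext (hB _ x.2 _ y.2) }
  have : Group.FG B := (Group.fg_iff_subgroup_fg B).2 hfg
  let θ : AddMonoid.End (Additive B) := AddMonoidHom.mk'
    (fun b => .ofMul ⟨t * b.toMul * t⁻¹, ht _ b.toMul.2⟩) fun a b =>
      congrArg Additive.ofMul (Subtype.ext (by simp [mul_assoc]))
  have hθ : ∀ (n : ℕ) (b : Additive B), (((θ ^ n) b).toMul : G) = t ^ n * b.toMul * (t ^ n)⁻¹ := by
    intro n b
    induction n with
    | zero => simp
    | succ n ih =>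
      rw [pow_succ' θ]
      show t * (((θ ^ n) b).toMul : G) * t⁻¹ = _
      rw [ih]
      group
  have conv : ∀ n : ℕ, (∃ z, ∀ x, ∃ (b : Additive B) (i : ℤ), x = (θ ^ n) b + i • z) ↔
      ∃ z ∈ B, ∀ x ∈ B, ∃ b ∈ B, ∃ i : ℤ, x = t ^ n * b * (t ^ n)⁻¹ * z ^ i := fun n => by
    constructor
    · rintro ⟨z, h⟩
      refine ⟨_, z.toMul.2, fun x hx => ?_⟩
      obtain ⟨b, i, e⟩ := h (.ofMul ⟨x, hx⟩)
      refine ⟨_, b.toMul.2, i, ?_⟩
      rw [← hθ]
      exact congrArg (fun y : Additive B => (y.toMul : G)) e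
    · rintro ⟨z, hz, h⟩
      refine ⟨.ofMul ⟨z, hz⟩, fun x => ?_⟩
      obtain ⟨b, hb, i, e⟩ := h _ x.toMul.2
      refine ⟨.ofMul ⟨b, hb⟩, i, congrArg Additive.ofMul (Subtype.ext (e.trans ?_))⟩
      exact congrArg (· * z ^ i) (hθ n (.ofMul ⟨b, hb⟩)).symm
  refine ⟨Group.fg_def.2 (hG ▸ hfg.sup ((Subgroup.fg_iff _).2
    ⟨{t}, (Subgroup.zpowers_eq_closure t).symm, Set.finite_singleton t⟩)), ?_, ?_, fun h => ?_⟩
  · rw [show (2 : ℕ) = 1 + 1 from rfl, derivedSeries_succ, derivedSeries_one,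
      Subgroup.commutator_eq_bot_iff_le_centralizer]
    exact fun x hx => Subgroup.mem_centralizer_iff.2 fun y hy => hA _ (hQ hy) _ (hQ hx)
  · rintro ⟨V, _, _, _, ⟨v, hv⟩, ⟨e⟩⟩ h
    obtain ⟨z, hz⟩ := (conv 2).2 h
    refine no_sq A B hA hQ hBA hfg (fun x hx y hy => ?_) v hv e
    obtain ⟨n, hx, hy⟩ := both x y hx hy
    obtain ⟨w, hw, k⟩ := (conv n).1 (cyc_pow θ z (fun x => by simpa [pow_two] using hz x) n)
    obtain ⟨b, hb, i, e1⟩ := k _ hx
    obtain ⟨b', hb', j, e2⟩ := k _ hy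
    refine ⟨(t ^ n)⁻¹ * w * (t ^ n)⁻¹⁻¹, ⟨n, by simpa [mul_assoc] using hw⟩, b, hb, b', hb', i, j,
      ?_, ?_⟩
    · rw [conj_zpow, show x = (t ^ n)⁻¹ * (t ^ n * x * (t ^ n)⁻¹) * t ^ n by group, e1]
      group
    · rw [conj_zpow, show y = (t ^ n)⁻¹ * (t ^ n * y * (t ^ n)⁻¹) * t ^ n by group, e2]
      group
  · obtain ⟨p, pp, π, hs, h0⟩ :=
      (cyc_or' (θ ^ 2 : AddMonoid.End (Additive B))).resolve_left fun k => h ((conv 2).1 k)
    have : Fact p.Prime := ⟨pp⟩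
    refine crit B (t ^ 2) (hp 2) (AddMonoidHom.toMultiplicativeRight π) hs fun b hb => ?_
    have e : (.ofMul ⟨_, hp 2 b hb⟩ : Additive B) = (θ ^ 2) (.ofMul ⟨b, hb⟩) :=
      congrArg Additive.ofMul (Subtype.ext (hθ 2 (.ofMul ⟨b, hb⟩)).symm)
    exact congrArg Multiplicative.ofAdd ((congrArg π e).trans (h0 _))

/-- The groups with generators `a i`, `t`, commuting `a i` and `t * a i * t⁻¹ = a i ^ m`. -/
theorem family (r m : ℕ) (hm : 2 ≤ m) : Group.IsFinitelyPresented (PresentedGroup (rels r m)) ∧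
    derivedSeries (PresentedGroup (rels r m)) 2 = ⊥ ∧
      (HasSq (PresentedGroup (rels r m)) ↔ 2 ≤ r) := by
  classical
  have fin : (rels r m).Finite := by
    refine ((Set.finite_range fun i : Fin r × Fin r => FreeGroup.of (some i.1) *
      FreeGroup.of (some i.2) * (FreeGroup.of (some i.1))⁻¹ * (FreeGroup.of (some i.2))⁻¹).union
      (Set.finite_range fun i : Fin r => FreeGroup.of none * FreeGroup.of (some i) *
        (FreeGroup.of none)⁻¹ * (FreeGroup.of (some i) ^ m)⁻¹)).subset ?_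
    rintro w (⟨i, j, rfl⟩ | ⟨i, rfl⟩)
    · exact Or.inl ⟨(i, j), rfl⟩
    · exact Or.inr ⟨i, rfl⟩
  have := fin.to_subtype
  let a : Fin r → PresentedGroup (rels r m) := fun i => .of (some i)
  let t : PresentedGroup (rels r m) := .of none
  have h1 : ∀ i j, a i * a j = a j * a i := fun i j => by
    have := PresentedGroup.one_of_mem (rels := rels r m) (Or.inl ⟨i, j, rfl⟩)
    simp only [map_mul, map_inv] at this
    exact mul_inv_eq_iff_eq_mul.1 (mul_inv_eq_one.1 this)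
  have h2 : ∀ i, t * a i * t⁻¹ = a i ^ m := fun i => by
    have := PresentedGroup.one_of_mem (rels := rels r m) (Or.inr ⟨i, rfl⟩)
    simp only [map_mul, map_inv, map_pow] at this
    exact mul_inv_eq_one.1 this
  let B := Subgroup.closure (Set.range a)
  have ha : ∀ i, a i ∈ B := fun i => Subgroup.subset_closure ⟨i, rfl⟩
  have hB : ∀ x ∈ B, ∀ y ∈ B, x * y = y * x := fun x hx y hy =>
    congrArg Subtype.val ((Subgroup.isMulCommutative_closure (k := Set.range a) (by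
      rintro _ ⟨i, rfl⟩ _ ⟨j, rfl⟩; exact h1 i j)).is_comm.comm ⟨x, hx⟩ ⟨y, hy⟩)
  have ht : ∀ b ∈ B, t * b * t⁻¹ ∈ B := fun b hb => by
    have : B ≤ B.comap (MulAut.conj t).toMonoidHom := (Subgroup.closure_le _).2 (by
      rintro _ ⟨i, rfl⟩
      show t * a i * t⁻¹ ∈ B
      rw [h2]
      exact pow_mem (ha i) m)
    exact this hb
  obtain ⟨-, d2, d3⟩ := dich B t ((Subgroup.fg_iff _).2 ⟨_, rfl, Set.finite_range a⟩) hB ht
    (eq_top_iff.2 fun x _ => PresentedGroup.generated_by _ _ (by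
      rintro (_ | i)
      · exact Subgroup.mem_sup_right (Subgroup.mem_zpowers _)
      · exact Subgroup.mem_sup_left (ha i)) x)
  refine ⟨inferInstance, d2, d3.trans ⟨fun h => not_lt.1 fun hr => h ?_, fun hr => ?_⟩⟩
  · obtain ⟨z, hz, k⟩ : ∃ z ∈ B, ∀ i, a i ∈ Subgroup.zpowers z := by
      rcases Nat.eq_zero_or_pos r with rfl | h
      · exact ⟨1, one_mem _, fun i => i.elim0⟩
      · refine ⟨a ⟨0, h⟩, ha _, fun i => ?_⟩
        rw [show i = ⟨0, h⟩ from Fin.ext (by omega)]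
        exact Subgroup.mem_zpowers _
    refine ⟨z, hz, fun x hx => ?_⟩
    have : B ≤ Subgroup.zpowers z := (Subgroup.closure_le _).2 (by rintro _ ⟨i, rfl⟩; exact k i)
    obtain ⟨i, rfl⟩ := this hx
    exact ⟨1, one_mem _, i, by simp⟩
  · rintro ⟨z, hz, h⟩
    have m0 : (m : ℚ) ≠ 0 := by positivity
    let f : Option (Fin r) → Equiv.Perm (Fin r → ℚ) := fun o => o.elim
      (MulAction.toPerm (Units.mk0 (m : ℚ) m0)) fun i => Equiv.addLeft (Pi.single i 1)
    have hf : ∀ w ∈ rels r m, FreeGroup.lift f w = 1 := by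
      rintro w (⟨i, j, rfl⟩ | ⟨i, rfl⟩)
      · simp only [map_mul, map_inv, FreeGroup.lift_apply_of, mul_inv_eq_one, mul_inv_eq_iff_eq_mul]
        ext1 x
        simp [f, add_left_comm]
      · simp only [map_mul, map_inv, map_pow, FreeGroup.lift_apply_of, mul_inv_eq_one,
          mul_inv_eq_iff_eq_mul]
        ext x j
        simp [f, Units.smul_def]
    let ρ := PresentedGroup.toGroup hf
    have hρ : ∀ b ∈ B, ∃ n : Fin r → ℤ, ρ b = Equiv.addLeft fun i => (n i : ℚ) := fun b hb => by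
      induction hb using Subgroup.closure_induction with
      | mem x hx =>
        obtain ⟨i, rfl⟩ := hx
        refine ⟨Pi.single i 1, (PresentedGroup.toGroup.of hf).trans (congrArg Equiv.addLeft ?_)⟩
        ext j
        simp [Pi.single_apply]
      | one => exact ⟨0, by rw [map_one]; ext x; simp⟩
      | mul x y _ _ h k =>
        obtain ⟨n, h⟩ := h
        obtain ⟨l, k⟩ := k
        exact ⟨n + l, by rw [map_mul, h, k]; ext x; simp [add_assoc]⟩
      | inv x _ h =>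
        obtain ⟨n, h⟩ := h
        exact ⟨-n, by rw [map_inv, h]; ext x; simp⟩
    obtain ⟨n, hn⟩ := hρ z hz
    have key : ∀ i, ∃ (l : Fin r → ℤ) (c : ℤ), ∀ j,
        (if j = i then 1 else 0 : ℤ) = m ^ 2 * l j + c * n j := fun i => by
      obtain ⟨b, hb, c, e⟩ := h _ (ha i)
      obtain ⟨l, hl⟩ := hρ b hb
      refine ⟨l, c, fun j => ?_⟩
      have := congrArg (fun g => ρ g 0 j) e
      have e1 : ρ (a i) = f (some i) := PresentedGroup.toGroup.of hf
      have e2 : ρ t = f none := PresentedGroup.toGroup.of hf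
      simp only [map_mul, map_inv, map_pow, map_zpow, hl, hn, e1, e2] at this
      have k : ((if j = i then 1 else 0 : ℤ) : ℚ) = m ^ 2 * l j + c * n j := by
        simp [f, Pi.single_apply, pow_two, Units.smul_def, mul_add, ← mul_assoc, m0] at this ⊢
        exact this
      exact_mod_cast k
    obtain ⟨l, c, h0⟩ := key ⟨0, by omega⟩
    obtain ⟨l', c', h1⟩ := key ⟨1, by omega⟩
    have a1 := h0 ⟨0, by omega⟩
    have a2 := h0 ⟨1, by omega⟩
    have a3 := h1 ⟨0, by omega⟩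
    have a4 := h1 ⟨1, by omega⟩
    simp only [Fin.mk.injEq, if_true, one_ne_zero, zero_ne_one, if_false] at a1 a2 a3 a4
    generalize l ⟨0, _⟩ = x1, l ⟨1, _⟩ = x2, l' ⟨0, _⟩ = x3, l' ⟨1, _⟩ = x4, n ⟨0, _⟩ = y1,
      n ⟨1, _⟩ = y2 at a1 a2 a3 a4
    have : (m : ℤ) ∣ 1 := ⟨m * (x1 + x4 - m ^ 2 * x1 * x4 + m ^ 2 * x2 * x3), by
      linear_combination (1 - m ^ 2 * x4) * a1 + (c * y1) * a4 + (m ^ 2 * x3) * a2 -
        (c * y2) * a3⟩
    have := Int.le_of_dvd one_pos this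
    omega

end Pool.Agent.MP_6d5e8e_al.Bd
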