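import Pool.Agent.MP_6d5e8e_al.H27.C9
import Pool.Agent.MP_6d5e8e_al.H27.Dich
import Mathlib.Algebra.Module.ZMod
import Mathlib.LinearAlgebra.Basis.VectorSpace

/-! The classification of finitely generated metabelian groups with a nonzero cyclic module
isomorphic to its square. -/

set_option autoImplicit false

namespace Pool.Agent.MP_6d5e8e_al.Bd

open MonoidAlgebra
open scoped commutatorElement

/-- Passage to a quotient without invariant submodules. -/
theorem step0 {Λ V : Type*} [Ring Λ] [AddCommGroup V] [Module Λ V] [Nontrivial V] (v : V)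
    (hv : Submodule.span Λ {v} = ⊤) (e : V ≃ₗ[Λ] V × V) : ∃ N : Submodule Λ V, N ≠ ⊤ ∧
      Nonempty ((V ⧸ N) ≃ₗ[Λ] (V ⧸ N) × (V ⧸ N)) ∧ ∀ M : Submodule Λ (V ⧸ N),
        (∀ f : (V ⧸ N) →ₗ[Λ] V ⧸ N, ∀ x ∈ M, f x ∈ M) → M = ⊥ ∨ M = ⊤ := by
  let T : Set (V →ₗ[Λ] V) := {LinearMap.fst Λ V V ∘ₗ e.toLinearMap,
    LinearMap.snd Λ V V ∘ₗ e.toLinearMap, e.symm.toLinearMap ∘ₗ LinearMap.inl Λ V V,
    e.symm.toLinearMap ∘ₗ LinearMap.inr Λ V V}
  have v0 : v ≠ 0 := fun h => by
    rw [h, Submodule.span_zero_singleton] at hv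
    exact bot_ne_top hv
  have tp : ∀ N : Submodule Λ V, v ∈ N → N = ⊤ := fun N h =>
    top_le_iff.1 (hv ▸ (Submodule.span_singleton_le_iff_mem _ _).2 h)
  obtain ⟨N, -, hN⟩ := zorn_le_nonempty₀ {N : Submodule Λ V | v ∉ N ∧ ∀ f ∈ T, N ≤ N.comap f}
    (fun c hc ch y hy => ⟨sSup c, ⟨fun h => by
      obtain ⟨N, h1, h2⟩ := (Submodule.mem_sSup_of_directed ⟨y, hy⟩ ch.directedOn).1 h
      exact (hc h1).1 h2, fun f hf => sSup_le fun N h1 x hx =>
        le_sSup h1 (a := N) ((hc h1).2 f hf hx)⟩, fun _ => le_sSup⟩) ⊥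
    ⟨v0, fun _ _ => bot_le⟩
  have h := hN.prop.2
  let q : ∀ f ∈ T, (V ⧸ N) →ₗ[Λ] V ⧸ N := fun f hf => N.mapQ N f (h f hf)
  refine ⟨N, fun t => hN.prop.1 (t ▸ Submodule.mem_top), ⟨LinearEquiv.ofLinearMap
    ((q _ (.inl rfl)).prod (q _ (.inr (.inl rfl))))
    ((q _ (.inr (.inr (.inl rfl)))).coprod (q _ (.inr (.inr (.inr rfl))))) ?_ ?_⟩, fun M hM => ?_⟩
  · refine LinearMap.prod_ext ?_ ?_ <;> refine N.linearMap_qext (LinearMap.ext fun x => ?_) <;>
      simp [q]
  · refine N.linearMap_qext (LinearMap.ext fun x => ?_)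
    simp only [q, LinearMap.comp_apply, Submodule.mkQ_apply, LinearMap.prod_apply, Function.prod,
      Submodule.mapQ_apply, LinearMap.coprod_apply, LinearMap.id_apply, LinearEquiv.coe_coe,
      ← Submodule.Quotient.mk_add, ← map_add]
    simp
  · by_cases c : v ∈ M.comap N.mkQ
    · exact Or.inr (Submodule.comap_injective_of_surjective N.mkQ_surjective
        ((tp _ c).trans (Submodule.comap_top _).symm))
    · have := hN.le_of_ge (y := M.comap N.mkQ) ⟨c, fun f hf x hx => hM (q f hf) _ hx⟩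
        (N.le_comap_mkQ M)
      refine Or.inl (eq_bot_iff.2 fun x hx => ?_)
      obtain ⟨x, rfl⟩ := N.mkQ_surjective x
      exact (Submodule.Quotient.mk_eq_zero N).2 (this hx)

theorem cyc_or_p {W : Type*} [AddCommGroup W] (θ : W →+ W) {p : ℕ} (pp : p.Prime) :
    (∃ z, ∀ x, ∃ (b c : W) (i : ℤ), x = θ b + p • c + i • z) ∨
      ∃ π : W →+ ZMod p × ZMod p, Function.Surjective π ∧ ∀ b, π (θ b) = 0 := by
  have : Fact p.Prime := ⟨pp⟩
  let T := θ.range ⊔ (DistribSMul.toAddMonoidHom W p).range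
  let : Module (ZMod p) (W ⧸ T) :=
    QuotientAddGroup.zmodModule fun x => AddSubgroup.mem_sup_right ⟨x, rfl⟩
  by_cases c : ∃ z : W ⧸ T, ∀ x, ∃ r : ZMod p, r • z = x
  · obtain ⟨z, hz⟩ := c
    obtain ⟨z, rfl⟩ := QuotientAddGroup.mk_surjective z
    refine Or.inl ⟨z, fun x => ?_⟩
    obtain ⟨r, hr⟩ := hz x
    obtain ⟨i, rfl⟩ := ZMod.intCast_surjective r
    rw [Int.cast_smul_eq_zsmul, ← QuotientAddGroup.mk_zsmul, QuotientAddGroup.eq] at hr
    obtain ⟨_, ⟨b, rfl⟩, _, ⟨c, rfl⟩, e⟩ := AddSubgroup.mem_sup.1 hr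
    exact ⟨b, c, i, by rw [← eq_neg_add_iff_add_eq.1 e, add_comm]; rfl⟩
  · push Not at c
    obtain ⟨x, hx⟩ := c 0
    obtain ⟨y, hy⟩ := c x
    obtain ⟨l, hl⟩ := LinearMap.exists_leftInverse_of_injective
      ((LinearMap.toSpanSingleton (ZMod p) _ x).coprod (LinearMap.toSpanSingleton (ZMod p) _ y))
      (LinearMap.ker_eq_bot'.2 fun ⟨a, b⟩ h => by
        have h : a • x + b • y = 0 := h
        have b0 : b = 0 := by
          by_contra k
          refine hy (-(b⁻¹ * a)) ?_
          rw [neg_smul, mul_smul, eq_neg_of_add_eq_zero_left h, smul_neg, neg_neg, inv_smul_smul₀ k]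
        rw [b0, zero_smul, add_zero] at h
        rw [b0, (smul_eq_zero.1 h).resolve_right fun z => hx 0 (by rw [z, smul_zero])]
        rfl)
    have sl := LinearMap.surjective_of_comp_eq_id _ _ hl
    refine Or.inr ⟨l.toAddMonoidHom.comp (QuotientAddGroup.mk' T),
      sl.comp (QuotientAddGroup.mk'_surjective T), fun b => ?_⟩
    have : ((θ b : W) : W ⧸ T) = 0 :=
      (QuotientAddGroup.eq_zero_iff _).2 (AddSubgroup.mem_sup_left ⟨b, rfl⟩)
    exact (congrArg l.toAddMonoidHom this).trans l.toAddMonoidHom.map_zero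

theorem no_sq_cyc {G M Q V : Type} [Group G] [AddCommGroup M] [DistribMulAction G M] [CommGroup Q]
    [Group.FG G] (ι : Multiplicative M →* G) (χ : G →* Q) (hker : ∀ g, χ g = 1 → ∃ a, ι a = g)
    (hι : ∀ (g : G) (a : M), ι (.ofAdd (g • a)) * g = g * ι (.ofAdd a))
    (hc : ∀ (g h : G) (a : M), g • h • a = h • g • a) (na : ∀ p : ℕ, p.Prime → Cyc G M p)
    (L₀ : Finset M) (hL : AddSubgroup.closure {x | ∃ g : G, ∃ l ∈ L₀, x = g • l} = ⊤)
    [AddCommGroup V] [Module (MonoidAlgebra ℤ G) V] (v : V) (h0 : v ≠ 0)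
    (hv : Submodule.span (MonoidAlgebra ℤ G) {v} = ⊤) (e : V ≃ₗ[MonoidAlgebra ℤ G] V × V)
    (hs : Simp G V) : False := by
  classical
  let C := MonoidAlgebra ℤ (Multiplicative M)
  let φ : C →+* MonoidAlgebra ℤ G := mapDomainRingHom ℤ ι
  have hφ : ∀ a z, φ (single a z) = single (ι a) z := fun a z => mapDomain_single
  let : Module C V := Module.compHom V φ
  let o : AddChar M C := AddChar.toMonoidHomEquiv.symm (of ℤ (Multiplicative M))
  have sg : ∀ (a : Multiplicative M) (z : ℤ), (single a z : C) = z • o a.toAdd := fun a z =>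
    show single a z = z • of ℤ _ a by simp
  have ho : Sr o ⊤ = ⊤ := eq_top_iff.2 fun x _ => by
    induction x using MonoidAlgebra.induction_linear with
    | zero => exact zero_mem _
    | add x y h k => exact add_mem (h trivial) (k trivial)
    | single a z => rw [sg]; exact zsmul_mem (Sr.mem o (AddSubgroup.mem_top _)) _
  obtain ⟨B, -, -, hB, ht, -⟩ := package Nat.prime_two hc (na 2 Nat.prime_two) L₀ hL
  obtain ⟨S, hS⟩ := (AddSubgroup.fg_iff_addSubmonoid_fg B).1 hB
  let R := MvPolynomial S ℤ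
  let θ : R →+* C := (MvPolynomial.aeval fun s : S => o s).toRingHom
  let : Algebra R C := θ.toAlgebra
  have hθ : ∀ b ∈ AddSubmonoid.closure (S : Set M), ∃ r, θ r = o b := fun b hb => by
    induction hb using AddSubmonoid.closure_induction with
    | mem x hx => exact ⟨.X ⟨x, hx⟩, MvPolynomial.aeval_X _ _⟩
    | zero => exact ⟨1, by rw [map_one, o.map_zero_eq_one]⟩
    | add x y _ _ h k =>
      obtain ⟨r, h⟩ := h
      obtain ⟨s, k⟩ := k
      exact ⟨r * s, by rw [map_mul, o.map_add_eq_mul, h, k]⟩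
  have : Algebra.IsIntegral R C := ⟨fun x => by
    induction x using MonoidAlgebra.induction_linear with
    | zero => exact isIntegral_zero
    | add x y h k => exact h.add k
    | single a z =>
      obtain ⟨n, hn, h⟩ := ht a.toAdd
      obtain ⟨r, hr⟩ := hθ _ (hS.ge h)
      rw [sg]
      refine IsIntegral.zsmul (IsIntegral.of_pow hn ?_) _
      rw [← o.map_nsmul_eq_pow, ← hr]
      exact isIntegral_algebraMap⟩
  have hd : ringKrullDim R ≤ (1 + Nat.card S : ℕ) := by
    rw [MvPolynomial.ringKrullDim_of_isNoetherianRing,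
      IsPrincipalIdealRing.ringKrullDim_eq_one ℤ Int.not_isField]
    push_cast
    exact le_rfl
  obtain ⟨q, hq, th⟩ := fc χ φ (fun _ _ => rfl) (fun g hg => by
    obtain ⟨a, rfl⟩ := hker g hg
    exact ⟨single a 1, hφ a 1⟩) (fun g => ⟨mapDomainRingEquiv ℤ
      (AddEquiv.toMultiplicative (DistribMulAction.toAddEquiv M g)), fun c => by
        induction c using MonoidAlgebra.induction_linear with
        | zero => simp
        | add x y h k => simp only [map_add, add_mul, mul_add, h, k]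
        | single a z =>
          rw [mapDomainRingEquiv_single, hφ, hφ, of_apply, single_mul_single, single_mul_single,
            mul_one, one_mul]
          exact congrArg (single · z) (hι g a.toAdd)⟩) v h0 hv e hs hd
  have th' : ∀ B : AddSubgroup M, (∀ a, ∃ n : ℕ, 0 < n ∧ n • a ∈ B) → Thick V o q B :=
    fun B ht B' h l => th _ (sr_noeth o h) (sr_int ho fun a => (ht a).imp fun _ t => ⟨t.1, l t.2⟩)
  by_cases c : ∀ (n : ℕ) (w : V), 0 < n → n • w = 0 → w = 0
  · exact char_zero ho (th' B ht) hB ht c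
  push Not at c
  obtain ⟨n, w, n0, h1, h2⟩ := c
  have fo : IsOfFinAddOrder w := isOfFinAddOrder_iff_nsmul_eq_zero.2 ⟨n, n0, h1⟩
  obtain ⟨p, pp, m, hm⟩ := Nat.exists_prime_and_dvd (n := addOrderOf w) (by simpa using h2)
  have hp : (DistribSMul.toAddMonoidHom V p).ker = ⊤ := by
    refine (hs _ (fun g x hx => ?_) fun f x hx => ?_).resolve_left fun h => ?_
    · show p • of ℤ G g • x = 0
      rw [smul_comm, show p • x = 0 from hx, smul_zero]
    · show p • f x = 0
      rw [← map_nsmul, show p • x = 0 from hx, map_zero]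
    · have : m • w ∈ (DistribSMul.toAddMonoidHom V p).ker := by
        show p • m • w = 0
        rw [smul_smul, ← hm, addOrderOf_nsmul_eq_zero]
      rw [h, AddSubgroup.mem_bot, ← addOrderOf_dvd_iff_nsmul_eq_zero] at this
      have m0 : 0 < m := Nat.pos_of_mul_pos_left (hm ▸ fo.addOrderOf_pos)
      have := Nat.le_of_dvd m0 this
      nlinarith [pp.two_le]
  let ρ : G →* Module.End ℤ V :=
    (Module.toModuleEnd ℤ V (S := MonoidAlgebra ℤ G)).toMonoidHom.comp (of ℤ G)
  refine char_p (o := o) (ρ := ρ) (ω := AddChar.toMonoidHomEquiv.symm (ρ.comp ι)) pp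
    (fun g a => ?_) (fun a w => ?_) (fun a => ⟨_, rfl⟩) ho hq th' hc (na p pp) L₀ hL
    (fun w => (hp.ge (AddSubgroup.mem_top w) :)) (v := v) (eq_top_iff.2 fun x _ => ?_)
    fun U h k => hs U h fun f => k f.toAddMonoidHom.toIntLinearMap fun g w => f.map_smul _ _
  · exact ((map_mul ρ _ _).symm.trans (congrArg ρ (hι g a).symm)).trans (map_mul ρ _ _)
  · exact congrArg (· • w) (hφ (.ofAdd a) 1).symm
  · obtain ⟨r, rfl⟩ := Submodule.mem_span_singleton.1 (hv.ge (Submodule.mem_top (x := x)))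
    induction r using MonoidAlgebra.induction_linear with
    | zero => simp
    | add x y h k => rw [add_smul]; exact add_mem (h trivial) (k trivial)
    | single a z =>
      rw [show (single a z : MonoidAlgebra ℤ G) = z • of ℤ G a by simp, smul_assoc]
      exact zsmul_mem (AddSubgroup.subset_closure (Set.mem_range_self (f := fun g => ρ g v) a)) _

/-- The classification. -/
theorem classify {G : Type} [Group G] (fg : Group.FG G) (hm : derivedSeries G 2 = ⊥) :
    HasSq G ↔ ∃ (B : Subgroup G) (t : G) (ht : ∀ b ∈ B, t * b * t⁻¹ ∈ B) (p : ℕ), p.Prime ∧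
      ∃ π : B →* Multiplicative (ZMod p × ZMod p), Function.Surjective π ∧
        ∀ (b : G) (hb : b ∈ B), π ⟨t * b * t⁻¹, ht b hb⟩ = 1 := by
  classical
  refine ⟨?_, fun ⟨B, t, ht, p, pp, π, hs, h0⟩ => by
    have : Fact p.Prime := ⟨pp⟩
    exact crit B t ht π hs h0⟩
  rintro ⟨V, _, _, _, ⟨v, hv⟩, ⟨e⟩⟩
  by_contra na
  obtain ⟨N, hN, ⟨e'⟩, hs⟩ := step0 v hv e
  rw [show (2 : ℕ) = 1 + 1 from rfl, derivedSeries_succ, derivedSeries_one,
    Subgroup.commutator_eq_bot_iff_le_centralizer] at hm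
  have hA : ∀ x ∈ commutator G, ∀ y ∈ commutator G, x * y = y * x := fun x hx y hy =>
    Subgroup.mem_centralizer_iff.1 (hm hy) x hx
  have cm : ∀ a b : G, ⁅a, b⁆ ∈ commutator G := fun a b =>
    Subgroup.commutator_mem_commutator trivial trivial
  let : CommGroup (commutator G) := { (inferInstance : Group (commutator G)) with
    mul_comm := fun x y => Subtype.ext (hA _ x.2 _ y.2) }
  let : DistribMulAction G (Additive (commutator G)) :=
    { smul := fun g a => .ofMul (MulAut.conjNormal g a.toMul)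
      one_smul := fun a => by show Additive.ofMul _ = _; simp
      mul_smul := fun g h a => by show Additive.ofMul _ = Additive.ofMul _; rw [map_mul]; rfl
      smul_zero := fun g => congrArg Additive.ofMul (map_one _)
      smul_add := fun g a b => congrArg Additive.ofMul (map_mul _ _ _) }
  have sm : ∀ (g : G) (a : Additive (commutator G)),
      ((g • a).toMul : G) = g * a.toMul * g⁻¹ := fun _ _ => rfl
  have ex : ∀ {a b : Additive (commutator G)}, (a.toMul : G) = b.toMul → a = b := fun h =>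
    congrArg Additive.ofMul (Subtype.ext h)
  let up : AddSubgroup (Additive (commutator G)) → Subgroup G := fun B =>
    { carrier := {x | ∃ h : x ∈ commutator G, Additive.ofMul (⟨x, h⟩ : commutator G) ∈ B}
      one_mem' := ⟨one_mem _, B.zero_mem⟩
      mul_mem' := fun ⟨a, b⟩ ⟨c, d⟩ => ⟨mul_mem a c, B.add_mem b d⟩
      inv_mem' := fun ⟨a, b⟩ => ⟨inv_mem a, B.neg_mem b⟩ }
  obtain ⟨S, hS⟩ := Group.fg_def.1 fg
  refine no_sq_cyc (M := Additive (commutator G))
    ((commutator G).subtype.comp (MulEquiv.multiplicativeAdditive _).toMonoidHom) Abelianization.of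
    (fun g hg => ⟨.ofAdd (.ofMul ⟨g, Abelianization.ker_of G ▸ hg⟩), rfl⟩)
    (fun g a => inv_mul_cancel_right _ _) (fun g h a => ex ?_) (fun p pp B g hB => ?_)
    (Finset.image₂ (fun s t => .ofMul ⟨_, cm s t⟩) S S) ?_ (N.mkQ v) (fun h => hN ?_) ?_ e'
    fun U h k => ?_
  · have := hA _ (cm g⁻¹ h⁻¹) _ a.toMul.2
    rw [commutatorElement_def] at this
    simp only [sm]
    rw [show h * (g * a.toMul * g⁻¹) * h⁻¹ = g * h * (g⁻¹ * h⁻¹ * g⁻¹⁻¹ * h⁻¹⁻¹)⁻¹ * a.toMul *
      (h * g)⁻¹ by group, mul_assoc (g * h), (Commute.inv_left this).eq]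
    group
  · rcases cyc_or_p (((DistribSMul.toAddMonoidHom _ g).comp B.subtype).codRestrict B
      fun x => hB x x.2) pp with ⟨z, h⟩ | ⟨π, h1, h2⟩
    · refine ⟨z, z.2, fun x hx => ?_⟩
      obtain ⟨b, c, i, e⟩ := h ⟨x, hx⟩
      exact ⟨b, b.2, c, c.2, i, congrArg Subtype.val e⟩
    · refine absurd ⟨up B, g, fun b h => ⟨_, hB _ h.2⟩, p, pp, MonoidHom.mk'
        (fun b => .ofAdd (π ⟨_, b.2.2⟩)) fun a b => congrArg Multiplicative.ofAdd
          (map_add π ⟨_, a.2.2⟩ ⟨_, b.2.2⟩), fun y => ?_, fun b hb => ?_⟩ na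
      · obtain ⟨x, hx⟩ := h1 y.toAdd
        exact ⟨⟨_, x.1.toMul.2, x.2⟩, congrArg Multiplicative.ofAdd hx⟩
      · exact congrArg Multiplicative.ofAdd (h2 ⟨_, hb.2⟩)
  · generalize hU : AddSubgroup.closure (G := Additive (commutator G)) _ = U
    have st : ∀ g : G, ∀ x ∈ U, g • x ∈ U := fun g => hU ▸
      clos_map (DistribSMul.toAddMonoidHom _ g) (by
        rintro _ ⟨h, l, k, rfl⟩
        exact AddSubgroup.subset_closure ⟨g * h, l, k, (mul_smul g h l).symm⟩)
    have : (up U).Normal := ⟨fun x h g => ⟨_, st g _ h.2⟩⟩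
    have su : Subgroup.closure (QuotientGroup.mk' (up U) '' S) = ⊤ := by
      rw [← MonoidHom.map_closure, hS]
      exact Subgroup.map_top_of_surjective _ (QuotientGroup.mk'_surjective _)
    have : commutator G ≤ up U := Subgroup.Normal.quotient_commutative_iff_commutator_le.1
      ⟨⟨fun x y => congrArg Subtype.val ((Subgroup.isMulCommutative_closure
        (k := QuotientGroup.mk' (up U) '' S) (by
          rintro _ ⟨s, hs, rfl⟩ _ ⟨t, ht, rfl⟩
          rw [← commutatorElement_eq_one_iff_mul_comm, ← map_commutatorElement,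
            QuotientGroup.mk'_apply, QuotientGroup.eq_one_iff]
          exact ⟨cm s t, hU ▸ AddSubgroup.subset_closure
            ⟨1, _, Finset.mem_image₂_of_mem hs ht, (one_smul G _).symm⟩⟩)).is_comm.comm
          ⟨x, su.ge trivial⟩ ⟨y, su.ge trivial⟩)⟩⟩
    exact eq_top_iff.2 fun x _ => (this x.toMul.2).2
  · rw [eq_top_iff, ← hv, Submodule.span_singleton_le_iff_mem]
    exact (Submodule.Quotient.mk_eq_zero N).1 h
  · rw [← Set.image_singleton, ← Submodule.map_span, hv, Submodule.map_top, N.range_mkQ]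
  · let U' : Submodule (MonoidAlgebra ℤ G) (V ⧸ N) :=
      { U with
        smul_mem' := fun r x hx => by
          induction r using MonoidAlgebra.induction_linear with
          | zero => rw [zero_smul]; exact U.zero_mem
          | add a b h k => rw [add_smul]; exact U.add_mem h k
          | single a z =>
            rw [show (single a z : MonoidAlgebra ℤ G) = z • of ℤ G a by simp, smul_assoc]
            exact U.zsmul_mem (h a x hx) _ }
    exact (hs U' k).imp (congrArg Submodule.toAddSubgroup) (congrArg Submodule.toAddSubgroup)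

end Pool.Agent.MP_6d5e8e_al.Bd
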