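import Pool.Agent.MP_6d5e8e_al.H27.C1
import Mathlib.RingTheory.Ideal.AssociatedPrime.Localization

/-! The choice of the prime and the final contradiction from a thin vector. -/

set_option autoImplicit false

namespace Pool.Agent.MP_6d5e8e_al.Bd

open MonoidAlgebra

theorem exists_prime' {R C : Type*} [CommRing R] [CommRing C] [Algebra R C]
    [Algebra.IsIntegral R C] {n : ℕ} (hd : ringKrullDim R ≤ n) {I : Ideal C} (hI : I ≠ ⊤) :
    ∃ p : Ideal C, p.IsPrime ∧ I ≤ p ∧ ∀ (D : Subring C), Algebra.IsIntegral D C →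
      ∀ (σ : C ≃+* C) (Q : Ideal C), Q.IsPrime → I ≤ Q →
        Q.comap (algebraMap D C) ≤ (p.comap (σ : C →+* C)).comap (algebraMap D C) →
        Q.comap (algebraMap D C) = (p.comap (σ : C →+* C)).comap (algebraMap D C) := by
  have hb : ∀ y : PrimeSpectrum C, Order.coheight y ≤ n := fun y => by
    have := (Order.coheight_le_krullDim (PrimeSpectrum.comap (algebraMap R C) y)).trans hd
    rw [coheight_comap (R := R)]
    exact_mod_cast this
  obtain ⟨m, hm, hIm⟩ := Ideal.exists_le_maximal I hI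
  obtain ⟨⟨x, hx⟩, e⟩ := exists_max
    (fun x : {x : PrimeSpectrum C // I ≤ x.asIdeal} => Order.coheight x.1) n
    (fun x => hb _) ⟨⟨m, hm.isPrime⟩, hIm⟩
  refine ⟨x.asIdeal, x.2, hx, fun D _ σ Q hQ l h2 => ?_⟩
  by_contra c
  have he := coheight_comap (R := D) (C := C)
  have a1 : Order.coheight (⟨Q, hQ⟩ : PrimeSpectrum C) ≤ Order.coheight x := e ⟨⟨Q, hQ⟩, l⟩
  have a2 := coheight_equiv σ x
  have a3 : PrimeSpectrum.comap (algebraMap D C) ⟨Q, hQ⟩ <
      PrimeSpectrum.comap (algebraMap D C) (PrimeSpectrum.comap (σ : C →+* C) x) := by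
    rw [← PrimeSpectrum.asIdeal_lt_asIdeal]
    exact lt_of_le_of_ne h2 c
  have a4 := Order.coheight_strictAnti a3 (by
    rw [← he]; exact (hb _).trans_lt (ENat.natCast_lt_top n))
  rw [← he, ← he] at a4
  exact absurd (a1.trans a2) a4.not_ge

theorem clos_map {V W : Type*} [AddCommGroup V] [AddCommGroup W] (f : V →+ W) {S : Set V}
    {U : AddSubgroup W} (h : ∀ w ∈ S, f w ∈ U) : ∀ x ∈ AddSubgroup.closure S, f x ∈ U :=
  fun _ hx => (AddSubgroup.closure_le (U.comap f)).2 h hx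

theorem dep_uni {C V : Type*} [CommRing C] [AddCommGroup V] [Module C V] {p : Ideal C}
    (hp : p.IsPrime) {N : Submodule C V} {k : ℕ} (h : Dep p N k) {w : V} (hw : Uni p w) :
    Dep p (N ⊔ Submodule.span C {w}) (k + 1) := by
  refine Dep.step hp h fun y hy z hz => ?_
  obtain ⟨n, hn, y', hy', rfl⟩ := Submodule.mem_sup.1 hy
  obtain ⟨m, hm, z', hz', rfl⟩ := Submodule.mem_sup.1 hz
  obtain ⟨r, rfl⟩ := Submodule.mem_span_singleton.1 hy'
  obtain ⟨s, rfl⟩ := Submodule.mem_span_singleton.1 hz'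
  obtain ⟨a, b, h1, h2⟩ := hw r s
  refine ⟨a, b, h1, ?_⟩
  have : a • (n + r • w) - b • (m + s • w) = a • n - b • m + (a * r - b * s) • w := by module
  rw [this, h2, add_zero]
  exact N.sub_mem (N.smul_mem a hn) (N.smul_mem b hm)

/-- No proper nonzero subgroup is stable under the group and the module endomorphisms. -/
def Simp (G V : Type*) [Group G] [AddCommGroup V] [Module (MonoidAlgebra ℤ G) V] : Prop :=
  ∀ U : AddSubgroup V, (∀ g, ∀ x ∈ U, of ℤ G g • x ∈ U) →
    (∀ f : V →ₗ[MonoidAlgebra ℤ G] V, ∀ x ∈ U, f x ∈ U) → U = ⊥ ∨ U = ⊤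

theorem fc {G Q C V R : Type*} [Group G] [CommGroup Q] (χ : G →* Q) [CommRing C]
    (φ : C →+* MonoidAlgebra ℤ G) [AddCommGroup V] [Module (MonoidAlgebra ℤ G) V] [Module C V]
    (hφ : ∀ (c : C) (x : V), c • x = φ c • x) (hker : ∀ g, χ g = 1 → ∃ c, φ c = of ℤ G g)
    (hσ : ∀ g, ∃ σ : C ≃+* C, ∀ c, φ (σ c) * of ℤ G g = of ℤ G g * φ c)
    (v : V) (h0 : v ≠ 0) (hv : Submodule.span (MonoidAlgebra ℤ G) {v} = ⊤)
    (e : V ≃ₗ[MonoidAlgebra ℤ G] V × V) (hs : Simp G V) [CommRing R] [Algebra R C]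
    [Algebra.IsIntegral R C] {n : ℕ} (hd : ringKrullDim R ≤ n) :
    ∃ p : Ideal C, p.IsPrime ∧ ∀ D : Subring C, IsNoetherianRing D → Algebra.IsIntegral D C →
      ∃ u : V, u ≠ 0 ∧ (∀ c ∈ D, c • u = 0 ↔ c ∈ p) ∧
        ¬∀ P : Ideal C, P.IsPrime → (∀ c ∈ D, c ∈ P ↔ c ∈ p) → Uni P u := by
  let I : Ideal C := LinearMap.ker (LinearMap.toSpanSingleton C V v)
  have hI : ∀ c, c ∈ I ↔ c • v = 0 := fun c => Iff.rfl
  have hne : I ≠ ⊤ := fun h => h0 (by simpa using (hI 1).1 (h ▸ Submodule.mem_top))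
  obtain ⟨p, hp, hIp, hm⟩ := exists_prime' hd hne
  refine ⟨p, hp, fun D _ _ => ?_⟩
  let J := I.comap (algebraMap D C)
  have mn : p.comap (algebraMap D C) ∈ (Module.annihilator D (D ⧸ J)).minimalPrimes := by
    rw [Ideal.annihilator_quotient]
    refine ⟨⟨inferInstance, Ideal.comap_mono hIp⟩, fun q hq l => ?_⟩
    have := hq.1
    obtain ⟨Q, l1, hQ, rfl⟩ := Ideal.exists_ideal_over_prime_of_isIntegral q I hq.2
    exact (hm D inferInstance (RingEquiv.refl C) Q hQ l1 l).ge
  have as := Module.associatedPrimes.minimalPrimes_annihilator_subset_associatedPrimes D _ mn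
  rw [AssociatedPrimes.mem_iff, isAssociatedPrime_iff] at as
  obtain ⟨-, x, ex⟩ := as
  obtain ⟨f, rfl⟩ := Ideal.Quotient.mk_surjective x
  have hu : ∀ c ∈ D, c • (f : C) • v = 0 ↔ c ∈ p := fun c hc => by
    rw [show c ∈ p ↔ (⟨c, hc⟩ : D) ∈ p.comap (algebraMap D C) from Iff.rfl, ex,
      Submodule.mem_colon_singleton, Submodule.mem_bot, Algebra.smul_def,
      Ideal.Quotient.algebraMap_eq, ← map_mul, Ideal.Quotient.eq_zero_iff_mem, ← mul_smul]
    rfl
  have u0 : (f : C) • v ≠ 0 := fun h =>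
    hp.ne_top ((Ideal.eq_top_iff_one _).2 ((hu 1 (one_mem _)).1 (by rw [h, smul_zero])))
  refine ⟨_, u0, hu, fun hU => ?_⟩
  generalize (f : C) • v = u at hu u0 hU
  let S : Set V := {w | ∀ g, Uni p (of ℤ G g • w)}
  have uS : u ∈ S := fun g x y => by
    obtain ⟨σ, k⟩ := hσ g
    have k' : ∀ c : C, σ c • of ℤ G g • u = of ℤ G g • c • u := fun c => by
      rw [hφ, ← mul_smul, k, mul_smul, hφ]
    by_cases c : p.comap (algebraMap D C) ≤ (p.comap (σ : C →+* C)).comap (algebraMap D C)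
    · have := hm D inferInstance σ p hp hIp c
      obtain ⟨a, b, h1, h2⟩ := hU (p.comap (σ : C →+* C)) inferInstance
        (fun c hc => (SetLike.ext_iff.1 this ⟨c, hc⟩).symm) (σ.symm x) (σ.symm y)
      refine ⟨σ a, σ b, h1, ?_⟩
      have := k' (a * σ.symm x - b * σ.symm y)
      rwa [h2, smul_zero, map_sub, map_mul, map_mul, σ.apply_symm_apply, σ.apply_symm_apply] at this
    · obtain ⟨a, ha, hn⟩ := SetLike.not_le_iff_exists.1 c
      refine ⟨σ a, 0, fun h => hn h.1, ?_⟩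
      rw [zero_mul, sub_zero, mul_comm, mul_smul, k', (hu a a.2).2 ha, smul_zero, smul_zero]
  have top : AddSubgroup.closure S = ⊤ := by
    refine (hs _ (fun g => ?_) fun f => ?_).resolve_left fun h => u0 ?_
    · refine clos_map (DistribSMul.toAddMonoidHom V (of ℤ G g)) fun w hw =>
        AddSubgroup.subset_closure (show of ℤ G g • w ∈ S from ?_)
      intro h
      have := hw (h * g)
      rwa [map_mul, mul_smul] at this
    · refine clos_map f.toAddMonoidHom fun w hw =>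
        AddSubgroup.subset_closure (show f w ∈ S from fun g x y => ?_)
      obtain ⟨a, b, h1, h2⟩ := hw g x y
      refine ⟨a, b, h1, ?_⟩
      rw [hφ] at h2 ⊢
      rw [← map_smul, ← map_smul, h2, map_zero]
    · exact AddSubgroup.mem_bot.1 (h ▸ AddSubgroup.subset_closure uS)
  have key : ∀ x ∈ AddSubgroup.closure S, ∃ K : ℕ, ∀ (g : G) (N : Submodule C V) (k : ℕ),
      Dep p N k → Dep p (N ⊔ Submodule.span C {of ℤ G g • x}) (k + K) := fun x hx => by
    induction hx using AddSubgroup.closure_induction with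
    | mem x hx => exact ⟨1, fun g N k h => dep_uni hp h (hx g)⟩
    | zero => exact ⟨0, fun g N k h => by simpa using h⟩
    | add x y _ _ a b =>
      obtain ⟨K, a⟩ := a
      obtain ⟨L, b⟩ := b
      refine ⟨K + L, fun g N k h => (b g _ _ (a g N k h)).mono
        (sup_le (le_sup_left.trans le_sup_left) ?_) (by omega)⟩
      rw [Submodule.span_singleton_le_iff_mem, smul_add]
      exact add_mem (Submodule.mem_sup_left (Submodule.mem_sup_right
        (Submodule.mem_span_singleton_self _))) (Submodule.mem_sup_right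
        (Submodule.mem_span_singleton_self _))
    | neg x _ a =>
      obtain ⟨K, a⟩ := a
      refine ⟨K, fun g N k h => (a g N k h).mono (sup_le le_sup_left ?_) le_rfl⟩
      rw [Submodule.span_singleton_le_iff_mem, smul_neg]
      exact neg_mem (Submodule.mem_sup_right (Submodule.mem_span_singleton_self _))
  obtain ⟨K, hK⟩ := key v (top ▸ AddSubgroup.mem_top v)
  exact grow χ φ hφ hker v hv e hp (fun c h => hIp h) hK

end Pool.Agent.MP_6d5e8e_al.Bd
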