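import Mathlib.Algebra.Group.AddChar
import Mathlib.Algebra.Module.LinearMap.End
import Mathlib.Algebra.Module.Torsion.Basic
import Mathlib.Algebra.CharP.Lemmas
import Mathlib.Algebra.Ring.GeomSum
import Mathlib.FieldTheory.Finite.Basic
import Mathlib.Order.Filter.AtTopBot.Basic
import Mathlib.Order.Filter.Finite
import Mathlib.Tactic.Module

/-! Limits of elements of the normal subgroup acting on a smooth module. -/

set_option autoImplicit false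

namespace Pool.Agent.MP_6d5e8e_al.Bd

open Filter

theorem cop {M : Type*} [AddCommGroup M] {P : AddSubgroup M} {a : M} {m n : ℕ} (h : m.Coprime n)
    (hm : m • a ∈ P) (hn : n • a ∈ P) : a ∈ P := by
  have := P.add_mem (P.zsmul_mem hm (m.gcdA n)) (P.zsmul_mem hn (m.gcdB n))
  rwa [← natCast_zsmul, ← natCast_zsmul, smul_smul, smul_smul, ← add_smul, mul_comm,
    mul_comm _ (n : ℤ), ← Nat.gcd_eq_gcd_ab, h, Nat.cast_one, one_smul] at this

theorem pow_up {M : Type*} [AddCommGroup M] {P : AddSubgroup M} {a : M} {p k l : ℕ}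
    (h : p ^ k • a ∈ P) (hl : k ≤ l) : p ^ l • a ∈ P := by
  rw [← Nat.sub_add_cancel hl, pow_add, mul_smul]
  exact P.nsmul_mem h _

/-- One of the two sides of the normal subgroup. -/
structure Side (G : Type*) {M : Type*} [Group G] [AddCommGroup M] [DistribMulAction G M] (p : ℕ)
    (B P : AddSubgroup M) : Prop where
  le : B ≤ P
  tor : ∀ a, ∃ k : ℕ, p ^ k • a ∈ P
  uni : ∀ x y, ∃ j : ℕ, x - j • y ∈ P ∨ y - j • x ∈ P
  stab : ∀ g : G, ∃ c : ℕ, ∀ a ∈ P, p ^ c • g • a ∈ P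
  con : ∃ τ : G, (∀ a ∈ P, τ • a ∈ P) ∧ ∀ a, ∃ k : ℕ, τ ^ k • a ∈ P

variable {G M V : Type*} [Group G] [AddCommGroup M] [DistribMulAction G M] [AddCommGroup V]
  {p : ℕ} {A B P P' : AddSubgroup M}

theorem Side.link (pp : p.Prime) (s : Side G p B P) {h : G} (hh : ∀ a ∈ P, h • a ∈ P) (a : M) :
    ∃ j : ℕ, h • a - j • a ∈ P := by
  classical
  obtain ⟨j, k | k⟩ := s.uni (h • a) a
  · exact ⟨j, k⟩
  have h1 : p ^ Nat.find (s.tor a) • h • a ∈ P := by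
    rw [smul_comm]; exact hh _ (Nat.find_spec (s.tor a))
  by_cases c : p ∣ j
  · obtain ⟨j, rfl⟩ := c
    rcases e : Nat.find (s.tor a) with _ | n
    · exact ⟨0, by simpa [e] using h1⟩
    · refine absurd ?_ (Nat.find_min (s.tor a) (show n < _ by omega))
      have := P.add_mem (P.nsmul_mem k (p ^ n)) (P.nsmul_mem (e ▸ h1) j)
      convert this using 1
      generalize h • a = x
      module
  · generalize Nat.find (s.tor a) = n at h1
    have j0 : 0 < j := Nat.pos_of_ne_zero fun z => c (z ▸ dvd_zero p)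
    have := (Nat.modEq_iff_dvd' (Nat.one_le_pow _ _ j0)).1 (Nat.ModEq.pow_totient
        ((pp.coprime_iff_not_dvd.2 c).symm.pow_right n)).symm
    obtain ⟨t, ht⟩ := Nat.exists_eq_add_one_of_ne_zero (Nat.totient_pos.2 (pow_pos pp.pos n)).ne'
    obtain ⟨r, hr⟩ := this
    have e : j ^ t * j = p ^ n * r + 1 := by
      rw [← hr, ← pow_succ, ← ht, Nat.sub_add_cancel (Nat.one_le_pow _ _ j0)]
    refine ⟨j ^ t, ?_⟩
    have := P.neg_mem (P.add_mem (P.nsmul_mem k (j ^ t)) (P.nsmul_mem h1 r))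
    rw [smul_sub, smul_smul, e] at this
    convert this using 1
    generalize h • a = x
    module

theorem Side.con' (pp : p.Prime) (s : Side G p B P) :
    ∃ τ : G, ∀ (k : ℕ) (a : M), ∃ j : ℕ, τ ^ k • a - (p ^ k * j) • a ∈ P := by
  obtain ⟨τ, h1, h2⟩ := s.con
  have one : ∀ a, ∃ j : ℕ, τ • a - (p * j) • a ∈ P := fun a => by
    obtain ⟨j, hj⟩ := s.link pp h1 a
    by_cases c : p ∣ j
    · obtain ⟨j, rfl⟩ := c
      exact ⟨j, hj⟩
    have it : ∀ n : ℕ, τ ^ n • a - j ^ n • a ∈ P := fun n => by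
      induction n with
      | zero => simp
      | succ n ih =>
        have := P.add_mem (h1 _ ih) (P.nsmul_mem hj (j ^ n))
        rw [smul_sub, smul_smul, ← pow_succ', smul_comm τ] at this
        convert this using 1
        generalize τ ^ (n + 1) • a = x, τ • a = y
        module
    obtain ⟨n, hn⟩ := h2 a
    obtain ⟨k, hk⟩ := s.tor a
    have := cop (Nat.Coprime.pow n k (pp.coprime_iff_not_dvd.2 c).symm)
      (by simpa using P.sub_mem hn (it n)) hk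
    exact ⟨0, by simpa using h1 a this⟩
  refine ⟨τ, fun k a => ?_⟩
  induction k with
  | zero => exact ⟨1, by simp⟩
  | succ k ih =>
    obtain ⟨j, hj⟩ := ih
    obtain ⟨i, hi⟩ := one a
    refine ⟨j * i, ?_⟩
    have := P.add_mem (h1 _ hj) (P.nsmul_mem hi (p ^ k * j))
    rw [smul_sub, smul_smul, ← pow_succ', smul_comm τ] at this
    convert this using 1
    generalize τ ^ (k + 1) • a = x, τ • a = y
    module

variable {ρ : G →* Module.End ℤ V} {ω : AddChar M (Module.End ℤ V)}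

theorem om (ω : AddChar M (Module.End ℤ V)) (a b : M) (w : V) : ω (a + b) w = ω a (ω b w) := by
  rw [ω.map_add_eq_mul]; rfl

/-- The stabiliser of a vector. -/
def St (ω : AddChar M (Module.End ℤ V)) (w : V) : AddSubgroup M where
  carrier := {a | ω a w = w}
  zero_mem' := by simp
  add_mem' := fun {a b} h k => (om ω a b w).trans ((congrArg _ k).trans h)
  neg_mem' := fun {a} h => by
    have := om ω (-a) a w
    rw [neg_add_cancel, ω.map_zero_eq_one, show ω a w = w from h] at this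
    exact this.symm

theorem St.eq {a b : M} {w : V} (h : a - b ∈ St ω w) : ω a w = ω b w := by
  rw [← add_sub_cancel b a, om, show ω (a - b) w = w from h]

/-- The standing assumptions on the smooth part `A`. -/
structure Env (ρ : G →* Module.End ℤ V) (ω : AddChar M (Module.End ℤ V)) (p : ℕ)
    (A B : AddSubgroup M) : Prop where
  pp : p.Prime
  cj : ∀ g a, ρ g * ω a = ω (g • a) * ρ g
  inv : ∀ g : G, ∀ a ∈ A, g • a ∈ A
  fin : ∀ w, ∃ N : ℕ, 0 < N ∧ ∀ b ∈ A, b ∈ B → N • b ∈ St ω w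

/-- Limits of highly divisible elements of `A` that are bounded with respect to `P`. -/
def Lim (ω : AddChar M (Module.End ℤ V)) (p : ℕ) (A P : AddSubgroup M) : Set (Module.End ℤ V) :=
  {φ | ∃ c : ℕ, ∀ (e : ℕ) (F : Set V), F.Finite → ∃ b ∈ A, p ^ c • b ∈ P ∧
    ∀ w ∈ F, (∃ k : ℕ, p ^ k • b ∈ St ω w) ∧ φ w = ω (p ^ e • b) w}

theorem rho_inv (ρ : G →* Module.End ℤ V) (g : G) (w : V) : ρ g (ρ g⁻¹ w) = w := by
  rw [← Module.End.mul_apply, ← map_mul, mul_inv_cancel, map_one]; rfl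

theorem rho_inv' (ρ : G →* Module.End ℤ V) (g : G) (w : V) : ρ g⁻¹ (ρ g w) = w := by
  simpa using rho_inv ρ g⁻¹ w

theorem Env.app (E : Env ρ ω p A B) (g : G) (a : M) (w : V) :
    ρ g (ω a (ρ g⁻¹ w)) = ω (g • a) w := by
  rw [← Module.End.mul_apply, E.cj, Module.End.mul_apply, rho_inv]

theorem Lim.comm {φ f : Module.End ℤ V} (h : φ ∈ Lim ω p A P) (hf : ∀ a w, f (ω a w) = ω a (f w))
    (w : V) : φ (f w) = f (φ w) := by
  obtain ⟨c, h⟩ := h
  obtain ⟨b, -, -, k⟩ := h 0 {w, f w} (Set.toFinite _)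
  rw [(k w (by simp)).2, (k (f w) (by simp)).2, hf]

theorem Lim.om {φ : Module.End ℤ V} (h : φ ∈ Lim ω p A P) (a : M) (w : V) :
    φ (ω a w) = ω a (φ w) := Lim.comm h (fun b w => by rw [← Bd.om, ← Bd.om, add_comm]) w

theorem Lim.pow_apply {φ : Module.End ℤ V} (h : φ ∈ Lim ω p A P) {a : M} {w : V}
    (e : φ w = ω a w) (j : ℕ) : (φ ^ j) w = ω (j • a) w := by
  induction j with
  | zero => simp
  | succ j ih => rw [pow_succ', Module.End.mul_apply, ih, Lim.om h, e, succ_nsmul, Bd.om]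

theorem Lim.pow {φ : Module.End ℤ V} (h : φ ∈ Lim ω p A P) (j : ℕ) : φ ^ j ∈ Lim ω p A P := by
  obtain ⟨c, k⟩ := id h
  refine ⟨c, fun e F hF => ?_⟩
  obtain ⟨b, h1, h2, h3⟩ := k e F hF
  refine ⟨j • b, nsmul_mem h1 _, smul_comm j (p ^ c) b ▸ nsmul_mem h2 _, fun w hw => ?_⟩
  obtain ⟨⟨l, hl⟩, h4⟩ := h3 w hw
  exact ⟨⟨l, smul_comm j (p ^ l) b ▸ nsmul_mem hl _⟩, by rw [Lim.pow_apply h h4, smul_comm]⟩

theorem Lim.unip {φ : Module.End ℤ V} (h : φ ∈ Lim ω p A P) (w : V) :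
    ∃ k : ℕ, (φ ^ p ^ k) w = w := by
  obtain ⟨c, k⟩ := id h
  obtain ⟨b, -, -, h3⟩ := k 0 {w} (Set.toFinite _)
  obtain ⟨⟨l, hl⟩, h4⟩ := h3 w rfl
  exact ⟨l, by rw [Lim.pow_apply h h4, pow_zero, one_smul]; exact hl⟩

theorem Lim.conj (E : Env ρ ω p A B) (s : Side G p B P) {φ : Module.End ℤ V}
    (h : φ ∈ Lim ω p A P) (g : G) : ρ g * φ * ρ g⁻¹ ∈ Lim ω p A P := by
  obtain ⟨c, k⟩ := h
  obtain ⟨d, hd⟩ := s.stab g
  refine ⟨d + c, fun e F hF => ?_⟩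
  obtain ⟨b, h1, h2, h3⟩ := k e (ρ g⁻¹ '' F) (hF.image _)
  refine ⟨g • b, E.inv g b h1, ?_, fun w hw => ?_⟩
  · rw [pow_add, mul_smul, smul_comm _ g]; exact hd _ h2
  · obtain ⟨⟨l, hl⟩, h4⟩ := h3 _ ⟨w, hw, rfl⟩
    refine ⟨⟨l, ?_⟩, ?_⟩
    · show ω _ w = w
      rw [smul_comm, ← E.app, show ω _ _ = _ from hl, rho_inv]
    · rw [Module.End.mul_apply, Module.End.mul_apply, h4, E.app, smul_comm]

theorem xl (E : Env ρ ω p A B) (hi : ∀ z ∈ P, z ∈ P' → ∃ m, ¬p ∣ m ∧ m • z ∈ B) (c : ℕ)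
    {F : Set V} (hF : F.Finite) : ∃ e : ℕ, ∀ w ∈ F, ∀ z ∈ A, z ∈ P → p ^ c • z ∈ P' →
      (∃ k : ℕ, p ^ k • z ∈ St ω w) → p ^ e • z ∈ St ω w := by
  have : ∀ w, ∀ᶠ e in atTop, ∀ z ∈ A, z ∈ P → p ^ c • z ∈ P' →
      (∃ k : ℕ, p ^ k • z ∈ St ω w) → p ^ e • z ∈ St ω w := fun w => by
    obtain ⟨N, N0, hN⟩ := E.fin w
    obtain ⟨k, n, hn, rfl⟩ := Nat.exists_eq_pow_mul_and_not_dvd N0.ne' p E.pp.ne_one
    refine eventually_atTop.2 ⟨k + c, fun e he z h1 h2 h3 ⟨l, hl⟩ => pow_up ?_ he⟩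
    obtain ⟨m, hm, h4⟩ := hi _ (nsmul_mem h2 _) h3
    have := hN _ (nsmul_mem (nsmul_mem h1 _) _) h4
    refine cop (Nat.Coprime.pow_right l ((E.pp.coprime_iff_not_dvd.2 fun d =>
      (E.pp.dvd_mul.1 d).elim hn hm).symm)) ?_ (smul_comm (p ^ (k + c)) (p ^ l) z ▸ nsmul_mem hl _)
    convert this using 1
    module
  exact ((eventually_all_finite hF).2 fun w _ => this w).exists

theorem Lim.uni (E : Env ρ ω p A B) (s : Side G p B P)
    (hi : ∀ z ∈ P, z ∈ P' → ∃ m, ¬p ∣ m ∧ m • z ∈ B) {φ ψ : Module.End ℤ V}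
    (h : φ ∈ Lim ω p A P') (k : ψ ∈ Lim ω p A P') {F : Set V} (hF : F.Finite) :
    ∃ j : ℕ, (∀ w ∈ F, ψ w = (φ ^ j) w) ∨ ∀ w ∈ F, φ w = (ψ ^ j) w := by
  obtain ⟨c, h'⟩ := id h
  obtain ⟨d, k'⟩ := id k
  obtain ⟨e, he⟩ := xl E hi (c + d) hF
  obtain ⟨a, a1, a2, a3⟩ := h' e F hF
  obtain ⟨b, b1, b2, b3⟩ := k' e F hF
  have key : ∀ {φ ψ : Module.End ℤ V} {a b : M} {j : ℕ}, φ ∈ Lim ω p A P' → a ∈ A → b ∈ A →
      p ^ (c + d) • a ∈ P' → p ^ (c + d) • b ∈ P' →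
      (∀ w ∈ F, (∃ k : ℕ, p ^ k • a ∈ St ω w) ∧ φ w = ω (p ^ e • a) w) →
      (∀ w ∈ F, (∃ k : ℕ, p ^ k • b ∈ St ω w) ∧ ψ w = ω (p ^ e • b) w) → b - j • a ∈ P →
      ∀ w ∈ F, ψ w = (φ ^ j) w := fun {φ ψ a b j} h a1 b1 a2 b2 a3 b3 m w hw => by
    obtain ⟨⟨k, hk⟩, a4⟩ := a3 w hw
    obtain ⟨⟨l, hl⟩, b4⟩ := b3 w hw
    rw [Lim.pow_apply h a4, b4, smul_comm j]
    refine St.eq (smul_sub (p ^ e) b _ ▸ he w hw _ (sub_mem b1 (nsmul_mem a1 _)) m ?_ ⟨k + l, ?_⟩)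
    · rw [smul_sub, smul_comm _ j]
      exact sub_mem b2 (nsmul_mem a2 _)
    · rw [smul_sub, smul_comm _ j]
      exact sub_mem (pow_up hl (by omega)) (nsmul_mem (pow_up hk (by omega)) _)
  have a2' := pow_up a2 (Nat.le_add_right c d)
  have b2' := pow_up b2 (Nat.le_add_left d c)
  obtain ⟨j, m | m⟩ := s.uni b a
  · exact ⟨j, Or.inl (key h a1 b1 a2' b2' a3 b3 m)⟩
  · exact ⟨j, Or.inr (key k b1 a1 b2' a2' b3 a3 m)⟩

theorem Lim.link (E : Env ρ ω p A B) (s' : Side G p B P')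
    (hi : ∀ z ∈ P, z ∈ P' → ∃ m, ¬p ∣ m ∧ m • z ∈ B) {φ : Module.End ℤ V} (h : φ ∈ Lim ω p A P')
    {g : G} {i : ℕ} (hg : ∀ a, ∃ j : ℕ, g • a - (i * j) • a ∈ P) {w : V} (hw : (φ ^ i) w = w) :
    φ (ρ g⁻¹ w) = ρ g⁻¹ w := by
  obtain ⟨c, h'⟩ := id h
  obtain ⟨d, hd⟩ := s'.stab g
  obtain ⟨e, he⟩ := xl E hi (d + c) (Set.toFinite {w})
  obtain ⟨a, a1, a2, a3⟩ := h' e {w, ρ g⁻¹ w} (Set.toFinite _)
  obtain ⟨j, hj⟩ := hg a
  obtain ⟨⟨k, hk⟩, a4⟩ := a3 w (by simp)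
  obtain ⟨⟨l, hl⟩, a5⟩ := a3 (ρ g⁻¹ w) (by simp)
  have hl' : p ^ l • g • a ∈ St ω w := by
    show ω _ w = w
    rw [smul_comm, ← E.app, show ω _ _ = _ from hl, rho_inv]
  have h1 := he w rfl _ (sub_mem (E.inv g a a1) (nsmul_mem a1 _)) hj (by
    rw [smul_sub, smul_comm _ (i * j), pow_add, mul_smul, smul_comm _ g]
    exact sub_mem (hd _ a2) (nsmul_mem (by rw [mul_smul]; exact nsmul_mem a2 _) _)) ⟨k + l, by
    rw [smul_sub, smul_comm _ (i * j)]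
    exact sub_mem (pow_up hl' (by omega)) (nsmul_mem (pow_up hk (by omega)) _)⟩
  have h2 : i • p ^ e • a ∈ St ω w := (Lim.pow_apply h a4 i).symm.trans hw
  have h3 : g • p ^ e • a ∈ St ω w := by
    have := add_mem h1 (nsmul_mem h2 j)
    rw [smul_comm g]
    convert this using 1
    generalize g • a = x
    module
  rw [a5, ← rho_inv' ρ g (ω _ _), E.app, show ω _ w = w from h3]

theorem exists_n (pp : p.Prime) : ∃ n : ℕ → ℤ, (∀ L, (p : ℤ) ^ L ∣ n L - 1) ∧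
    ∀ m : ℕ, ¬p ∣ m → ∀ L, m ≤ L → (m : ℤ) ∣ n L := by
  have : ∀ L : ℕ, ∃ n : ℕ, n ≡ 1 [MOD p ^ L] ∧ ∀ m, ¬p ∣ m → m ≤ L → m ∣ n := fun L => by
    obtain ⟨e, u, hu, h⟩ := Nat.exists_eq_pow_mul_and_not_dvd L.factorial_ne_zero p pp.ne_one
    have c : ∀ m, ¬p ∣ m → ∀ k, m.Coprime (p ^ k) := fun m hm k =>
      ((pp.coprime_iff_not_dvd.2 hm).symm).pow_right k
    refine ⟨u ^ (p ^ L).totient, Nat.ModEq.pow_totient (c u hu L), fun m hm l => ?_⟩
    have m0 : 0 < m := Nat.pos_of_ne_zero fun z => hm (z ▸ dvd_zero p)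
    exact dvd_pow ((c m hm e).dvd_of_dvd_mul_left (h ▸ Nat.dvd_factorial m0 l))
      (Nat.totient_pos.2 (pow_pos pp.pos L)).ne'
  choose n h using this
  exact ⟨fun L => n L, fun L => by exact_mod_cast (h L).1.symm.dvd,
    fun m hm L l => Int.natCast_dvd_natCast.2 ((h L).2 m hm l)⟩

/-- If all limits are trivial, a divisible part acts through `B`. -/
theorem tate (E : Env ρ ω p A B) {W : AddSubgroup M} (hA : W ≤ A) (hP : W ≤ P)
    (div : ∀ a ∈ W, ∃ a' ∈ W, a - p • a' ∈ B) (tr : ∀ φ ∈ Lim ω p A P, ∀ w, φ w = w) {a : M}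
    (ha : a ∈ W) {k : ℕ} (hk : p ^ k • a ∈ B) (w : V) : ∃ b ∈ B, ω a w = ω b w := by
  obtain ⟨n, n1, n2⟩ := exists_n E.pp
  choose! r hr hr' using div
  let x : ℕ → M := fun L => r^[L] a
  have x0 : ∀ L, x L ∈ W := fun L => by
    induction L with
    | zero => exact ha
    | succ L ih => simp only [x, Function.iterate_succ_apply']; exact hr _ ih
  have x1 : ∀ L, x L - p • x (L + 1) ∈ B := fun L => by
    simp only [x, Function.iterate_succ_apply']; exact hr' _ (x0 L)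
  have x2 : ∀ L, a - p ^ L • x L ∈ B := fun L => by
    induction L with
    | zero => simp [x]
    | succ L ih =>
      convert B.add_mem ih (B.nsmul_mem (x1 L) (p ^ L)) using 1
      module
  have x3 : ∀ L, p ^ k • p ^ L • x L ∈ B := fun L => by
    convert B.sub_mem hk (B.nsmul_mem (x2 L) (p ^ k)) using 1
    module
  have kill : ∀ w : V, ∃ e m : ℕ, ¬p ∣ m ∧ ∀ u ∈ A, ∀ (j : ℕ) (N : ℤ), p ^ j • u ∈ B →
      (p : ℤ) ^ (j + e) ∣ N → (m : ℤ) ∣ N → N • u ∈ St ω w := fun w => by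
    obtain ⟨N, N0, h⟩ := E.fin w
    obtain ⟨e, m, hm, rfl⟩ := Nat.exists_eq_pow_mul_and_not_dvd N0.ne' p E.pp.ne_one
    refine ⟨e, m, hm, fun u hu j N h1 d1 d2 => ?_⟩
    obtain ⟨t, rfl⟩ := (Nat.isCoprime_iff_coprime.2
      (E.pp.coprime_iff_not_dvd.2 hm)).pow_left.mul_dvd d1 d2
    convert zsmul_mem (h _ (nsmul_mem hu _) h1) t using 1
    module
  let s : ℕ → M := fun L => n L • p ^ L • x L
  have st : ∀ w, ∃ L₀, ∀ L, L₀ ≤ L → ω (s L) w = ω (s L₀) w := fun w => by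
    obtain ⟨e, m, hm, h⟩ := kill w
    refine ⟨m + (k + e), fun L hL => ?_⟩
    induction L, hL using Nat.le_induction with
    | base => rfl
    | succ L hL ih =>
      rw [← ih]
      have pe : (p : ℤ) ^ (k + e) ∣ p ^ L := pow_dvd_pow _ (by omega)
      have t1 := h _ (hA (nsmul_mem (x0 L) _)) k (n (L + 1) - n L) (x3 L) (pe.trans (by
        convert dvd_sub ((pow_dvd_pow _ L.le_succ).trans (n1 (L + 1))) (n1 L) using 1
        ring)) (dvd_sub (n2 m hm _ (by omega)) (n2 m hm _ (by omega)))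
      have t2 := h _ (hA (sub_mem (x0 L) (nsmul_mem (x0 (L + 1)) p))) 0 (n (L + 1) * p ^ L)
        (by simpa using x1 L) (((pow_dvd_pow _ (by omega)).trans pe).mul_left _)
        ((n2 m hm _ (by omega)).mul_right _)
      refine St.eq ?_
      convert sub_mem t1 t2 using 1
      simp only [s]
      module
  choose L₀ hL using st
  let f : V → V := fun w => ω (s (L₀ w)) w
  have ev : ∀ w, ∀ᶠ L in atTop, f w = ω (s L) w := fun w =>
    eventually_atTop.2 ⟨_, fun L h => (hL w L h).symm⟩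
  let φ : Module.End ℤ V := (AddMonoidHom.mk' f fun x y => by
    obtain ⟨L, h1, h2, h3⟩ := ((ev (x + y)).and ((ev x).and (ev y))).exists
    rw [h1, h2, h3, map_add]).toIntLinearMap
  have hφ : φ ∈ Lim ω p A P := ⟨0, fun e F hF => by
    have : ∀ w, ∀ᶠ L in atTop, (∃ j : ℕ, p ^ j • s L ∈ St ω w) ∧ f w = ω (s L) w := fun w => by
      obtain ⟨d, m, hm, h⟩ := kill w
      refine (eventually_atTop.2 ⟨m, fun L l => ⟨k + d, ?_⟩⟩).and (ev w)
      convert h _ (hA (nsmul_mem (x0 L) _)) k (n L * p ^ (k + d)) (x3 L) (dvd_mul_left _ _)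
        ((n2 m hm L l).mul_right _) using 1
      simp only [s]
      module
    obtain ⟨L, h1, h2⟩ := (((eventually_all_finite hF).2 fun w _ => this w).and
      (eventually_ge_atTop e)).exists
    obtain ⟨L, rfl⟩ := Nat.exists_eq_add_of_le h2
    have m : n (e + L) • p ^ L • x (e + L) ∈ W := zsmul_mem (nsmul_mem (x0 _) _) _
    have q : p ^ e • n (e + L) • p ^ L • x (e + L) = s (e + L) := by
      simp only [s]
      module
    refine ⟨_, hA m, nsmul_mem (hP m) _, fun w hw => ?_⟩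
    obtain ⟨⟨j, h3⟩, h4⟩ := h1 w hw
    exact ⟨⟨j + e, by rwa [pow_add, mul_smul, q]⟩, by rw [q]; exact h4⟩⟩
  obtain ⟨L, h1, h2⟩ := ((ev w).and (eventually_ge_atTop k)).exists
  obtain ⟨t, ht⟩ := (pow_dvd_pow (p : ℤ) h2).trans (n1 L)
  refine ⟨a - s L, ?_, St.eq ?_⟩
  · convert B.sub_mem (x2 L) (B.zsmul_mem (x3 L) t) using 1
    simp only [s]
    rw [sub_eq_iff_eq_add.1 ht]
    module
  · rw [sub_sub_cancel]
    exact h1.symm.trans (tr φ hφ w)

end Pool.Agent.MP_6d5e8e_al.Bd
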