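import Pool.Agent.MP_6d5e8e_al.H27.C1
import Pool.Agent.MP_6d5e8e_al.H27.C4
import Mathlib.RingTheory.AlgebraicIndependent.TranscendenceBasis
import Mathlib.RingTheory.AlgebraicIndependent.AlgebraicClosure
import Mathlib.RingTheory.AlgebraicIndependent.Adjoin
import Mathlib.FieldTheory.RatFunc.AsPolynomial
import Mathlib.FieldTheory.RatFunc.Degree
import Mathlib.FieldTheory.IntermediateField.Adjoin.Algebra
import Mathlib.RingTheory.Norm.Basic
import Mathlib.Algebra.Category.Grp.Injective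
import Mathlib.GroupTheory.Archimedean
import Mathlib.Algebra.Algebra.ZMod

/-! The part of the normal subgroup that acts through roots of unity. -/

set_option autoImplicit false

namespace Pool.Agent.MP_6d5e8e_al.Bd

open IntermediateField

theorem nu0 {F K : Type*} [Field F] [Field K] [Algebra F K] (x : K) (hx : Transcendental F x)
    [Module.Finite F⟮x⟯ K] : ∃ ν : K → ℤ, (∀ a b, a ≠ 0 → b ≠ 0 → ν (a * b) = ν a + ν b) ∧ ν x ≠ 0 := by
  let e := (RatFunc.algEquivOfTranscendental x hx).symm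
  refine ⟨fun a => (e (Algebra.norm F⟮x⟯ a)).intDegree, fun a b ha hb => ?_, ?_⟩
  · beta_reduce
    rw [map_mul, map_mul]
    exact RatFunc.intDegree_mul ((map_ne_zero e).2 (Algebra.norm_ne_zero_iff.2 ha))
      ((map_ne_zero e).2 (Algebra.norm_ne_zero_iff.2 hb))
  · have h1 : Algebra.norm F⟮x⟯ x = AdjoinSimple.gen F x ^ Module.finrank F⟮x⟯ K :=
      Algebra.norm_algebraMap (AdjoinSimple.gen F x)
    have h2 : ∀ n : ℕ, ((RatFunc.X : RatFunc F) ^ n).intDegree = n := fun n => by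
      induction n with
      | zero => simp
      | succ n ih =>
        rw [pow_succ, RatFunc.intDegree_mul (pow_ne_zero _ RatFunc.X_ne_zero) RatFunc.X_ne_zero, ih]
        simp
    beta_reduce
    rw [h1, map_pow, RatFunc.algEquivOfTranscendental_symm_gen, h2]
    exact_mod_cast Module.finrank_pos.ne'

theorem nu {k K : Type*} [Field k] [Field K] [Algebra k K] [Algebra.EssFiniteType k K] (x : K)
    (hx : Transcendental k x) :
    ∃ ν : K → ℤ, (∀ a b, a ≠ 0 → b ≠ 0 → ν (a * b) = ν a + ν b) ∧ ν x ≠ 0 := by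
  obtain ⟨t, h1, ht⟩ := exists_isTranscendenceBasis_superset (R := k) (s := {x})
    (algebraicIndependent_unique_type_iff.2 hx)
  have hxt : x ∈ t := h1 rfl
  let F := adjoin k (t \ {x})
  have tr : Transcendental F x := by
    have := ht.1.transcendental_adjoin (s := {i | i.1 ≠ x}) (i := ⟨x, hxt⟩) (by simp)
    rw [show ((↑) : t → K) '' {i | i.1 ≠ x} = t \ {x} by ext; simp [and_comm]] at this
    exact transcendental_adjoin_iff.2 this
  have al : Algebra.IsAlgebraic F⟮x⟯ K := by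
    have h2 := ht.isAlgebraic_field
    rw [Subtype.range_coe] at h2
    have le : adjoin k t ≤ (F⟮x⟯).restrictScalars k := adjoin_le_iff.2 fun y hy => by
      by_cases c : y = x
      · exact c ▸ mem_adjoin_simple_self F x
      · exact (F⟮x⟯).algebraMap_mem ⟨y, subset_adjoin _ _ ⟨hy, c⟩⟩
    exact ⟨fun y => (h2.1 y).tower_top_of_subalgebra_le (A := (adjoin k t).toSubalgebra)
      (B := ((F⟮x⟯).restrictScalars k).toSubalgebra) le⟩
  have : IsScalarTower k F⟮x⟯ K := IsScalarTower.of_algebraMap_eq fun _ => rfl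
  have : Algebra.EssFiniteType F⟮x⟯ K := Algebra.EssFiniteType.of_comp k _ _
  have : Module.Finite F⟮x⟯ K := Algebra.finite_of_essFiniteType_of_isAlgebraic
  exact nu0 x tr

variable {M : Type*} [AddCommGroup M] {p : ℕ}

/-- Homomorphisms to the rationals with denominators prime to `p`. -/
def PInt (p : ℕ) (M : Type*) [AddCommGroup M] : Set (M →+ ℚ) :=
  {φ | ∀ a, ∃ m : ℕ, ¬p ∣ m ∧ m • φ a ∈ (Int.castAddHom ℚ).range}

/-- Their common kernel. -/
def Core (p : ℕ) (M : Type*) [AddCommGroup M] : AddSubgroup M := ⨅ φ ∈ PInt p M, φ.ker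

theorem mem_core {a : M} : a ∈ Core p M ↔ ∀ φ ∈ PInt p M, φ a = 0 := by
  simp [Core, AddSubgroup.mem_iInf]

theorem core_map (f : M →+ M) {a : M} (h : a ∈ Core p M) : f a ∈ Core p M :=
  mem_core.2 fun φ hφ => mem_core.1 h (φ.comp f) fun a => hφ (f a)

theorem core_bound (pp : p.Prime) {B : AddSubgroup M} (hB : B.FG)
    (ht : ∀ a, ∃ n : ℕ, 0 < n ∧ n • a ∈ B) :
    ∃ k : ℕ, ∀ a, (∃ j : ℕ, p ^ j • a ∈ B) → ∃ b ∈ B, p ^ k • a - b ∈ Core p M := by
  classical
  obtain ⟨S, rfl⟩ := hB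
  have : Module.Finite ℚ (M →+ ℚ) := by
    refine Module.Finite.of_injective (
      { toFun := fun φ s => φ s, map_add' := fun _ _ => rfl, map_smul' := fun _ _ => rfl } :
        (M →+ ℚ) →ₗ[ℚ] S → ℚ) ((injective_iff_map_eq_zero _).2 fun φ h => ?_)
    ext a
    obtain ⟨n, n0, hn⟩ := ht a
    have : φ (n • a) = 0 := (AddSubgroup.closure_le φ.ker).2 (fun s hs => congrFun h ⟨s, hs⟩) hn
    simpa [n0.ne'] using this
  obtain ⟨T, hT, e⟩ := (Submodule.fg_span_iff_fg_span_finset_subset (R := ℚ) (PInt p M)).1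
    (IsNoetherian.noetherian _)
  suffices ∃ k : ℕ, ∀ a, (∃ j : ℕ, p ^ j • a ∈ AddSubgroup.closure (S : Set M)) →
      ∃ b ∈ AddSubgroup.closure (S : Set M), ∀ φ ∈ T, φ (p ^ k • a - b) = 0 by
    obtain ⟨k, h⟩ := this
    refine ⟨k, fun a ha => (h a ha).imp fun b ⟨h1, h2⟩ => ⟨h1, mem_core.2 fun φ hφ => ?_⟩⟩
    have : φ ∈ Submodule.span ℚ (T : Set (M →+ ℚ)) := e ▸ Submodule.subset_span hφ
    clear hφ
    induction this using Submodule.span_induction with
    | mem x hx => exact h2 x hx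
    | zero => rfl
    | add x y _ _ a b => rw [AddMonoidHom.add_apply, a, b, add_zero]
    | smul c x _ a => rw [AddMonoidHom.smul_apply, a, smul_zero]
  clear e
  generalize hB : AddSubgroup.closure (S : Set M) = B
  induction T using Finset.induction_on with
  | empty => exact ⟨0, fun a _ => ⟨0, zero_mem _, by simp⟩⟩
  | insert φ T _ ih =>
    obtain ⟨k, ih⟩ := ih fun x hx => hT (by simp [Finset.mem_coe.1 hx])
    have hφ := hT (Finset.mem_insert_self φ T)
    choose m hm' hm using hφ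
    have m0 : ∀ a, m a ≠ 0 := fun a z => hm' a (z ▸ dvd_zero p)
    let N := ∏ s ∈ S, m s
    have hN : ∀ b ∈ B, N • φ b ∈ (Int.castAddHom ℚ).range := fun b hb =>
      (AddSubgroup.closure_le ((Int.castAddHom ℚ).range.comap (N • φ))).2 (fun s hs => by
        obtain ⟨c, hc⟩ : m s ∣ N := Finset.dvd_prod_of_mem m hs
        show N • φ s ∈ (Int.castAddHom ℚ).range
        rw [hc, mul_comm, mul_smul]
        exact nsmul_mem (hm s) _) (hB ▸ hb)
    let H : AddSubgroup M :=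
      { carrier := {a | (∃ j : ℕ, p ^ j • a ∈ B) ∧ ∀ ψ ∈ T, ψ a = 0}
        zero_mem' := ⟨⟨0, by simp⟩, by simp⟩
        add_mem' := fun ⟨⟨i, h⟩, h'⟩ ⟨⟨j, k⟩, k'⟩ => ⟨⟨i + j, by
          rw [smul_add]; exact add_mem (pow_up h (by omega)) (pow_up k (by omega))⟩,
          fun ψ t => by rw [map_add, h' ψ t, k' ψ t, add_zero]⟩
        neg_mem' := fun ⟨⟨i, h⟩, h'⟩ => ⟨⟨i, by simpa using h⟩, fun ψ t => by simp [h' ψ t]⟩ }
    obtain ⟨g, hg⟩ := Int.subgroup_cyclic ((H.map (N • φ)).comap (Int.castAddHom ℚ))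
    obtain ⟨a₀, ⟨⟨l, h0⟩, h1⟩, h2⟩ : g ∈ (H.map (N • φ)).comap (Int.castAddHom ℚ) :=
      hg ▸ AddSubgroup.subset_closure rfl
    refine ⟨l + k, fun a ⟨j, hj⟩ => ?_⟩
    obtain ⟨b, hb, h3⟩ := ih a ⟨j, hj⟩
    have h4 : p ^ j • (p ^ k • a - b) ∈ B := by
      rw [smul_sub, smul_comm]; exact sub_mem (nsmul_mem hj _) (nsmul_mem hb _)
    obtain ⟨z, hz⟩ : N • φ (p ^ k • a - b) ∈ (Int.castAddHom ℚ).range := by
      refine cop (Nat.Coprime.pow_left j (pp.coprime_iff_not_dvd.2 (hm' _))) ?_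
        (smul_comm N (m _) (φ _) ▸ nsmul_mem (hm _) N)
      rw [smul_comm, ← map_nsmul]
      exact hN _ h4
    have : z ∈ (H.map (N • φ)).comap (Int.castAddHom ℚ) := ⟨_, ⟨⟨j, h4⟩, h3⟩, hz.symm⟩
    rw [hg, AddSubgroup.mem_closure_singleton] at this
    obtain ⟨n, rfl⟩ := this
    have q : p ^ (l + k) • a - (p ^ l • b + n • p ^ l • a₀) =
        p ^ l • (p ^ k • a - b - n • a₀) := by module
    refine ⟨p ^ l • b + n • p ^ l • a₀, add_mem (nsmul_mem hb _) (zsmul_mem h0 _), fun ψ t => ?_⟩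
    rw [q, map_nsmul, map_sub, map_zsmul]
    rcases Finset.mem_insert.1 t with rfl | t
    · have : N • (ψ (p ^ k • a - b) - n • ψ a₀) = 0 := by
        rw [smul_sub, ← hz, map_zsmul, ← h2, smul_comm N]
        exact sub_self _
      rw [(smul_eq_zero.1 this).resolve_left (Finset.prod_ne_zero_iff.2 fun s _ => m0 s), smul_zero]
    · rw [h3 ψ t, h1 ψ t, smul_zero, sub_zero, smul_zero]

variable {C : Type*} [CommRing C] {P : Ideal C}

/-- Elements that are fractions over `D` modulo `P`. -/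
def Fr (hp : P.IsPrime) (D : Subring C) : Subring C where
  carrier := {c | ∃ r ∈ D, ∃ s ∈ D, s ∉ P ∧ s * c - r ∈ P}
  zero_mem' := ⟨0, zero_mem _, 1, one_mem _, hp.one_notMem, by simp⟩
  one_mem' := ⟨1, one_mem _, 1, one_mem _, hp.one_notMem, by simp⟩
  add_mem' := fun {a b} ⟨r, h1, s, h2, h3, h4⟩ ⟨r', k1, s', k2, k3, k4⟩ =>
    ⟨s' * r + s * r', add_mem (mul_mem k2 h1) (mul_mem h2 k1), s * s', mul_mem h2 k2,
      fun m => (hp.mem_or_mem m).elim h3 k3, by
        convert P.add_mem (P.mul_mem_left s' h4) (P.mul_mem_left s k4) using 1; ring⟩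
  mul_mem' := fun {a b} ⟨r, h1, s, h2, h3, h4⟩ ⟨r', k1, s', k2, k3, k4⟩ =>
    ⟨r * r', mul_mem h1 k1, s * s', mul_mem h2 k2, fun m => (hp.mem_or_mem m).elim h3 k3, by
      convert P.add_mem (P.mul_mem_left (s' * b) h4) (P.mul_mem_left r k4) using 1; ring⟩
  neg_mem' := fun {a} ⟨r, h1, s, h2, h3, h4⟩ => ⟨-r, neg_mem h1, s, h2, h3, by
    convert P.neg_mem h4 using 1; ring⟩

theorem le_Fr (hp : P.IsPrime) (D : Subring C) : D ≤ Fr hp D := fun c h =>
  ⟨c, h, 1, one_mem _, hp.one_notMem, by simp⟩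

theorem Fr.div (hp : P.IsPrime) {D : Subring C} {c r s : C} (hr : r ∈ Fr hp D) (hs : s ∈ Fr hp D)
    (h : s ∉ P) (m : s * c - r ∈ P) : c ∈ Fr hp D := by
  obtain ⟨r1, h1, s1, h2, h3, h4⟩ := hs
  obtain ⟨r2, k1, s2, k2, k3, k4⟩ := hr
  refine ⟨s1 * r2, mul_mem h2 k1, s2 * r1, mul_mem k2 h1, fun t => (hp.mem_or_mem t).elim k3
    fun t => (hp.mem_or_mem (by simpa using P.add_mem h4 t)).elim h3 h, ?_⟩
  convert P.add_mem (P.sub_mem (P.mul_mem_left (s1 * s2) m) (P.mul_mem_left (s2 * c) h4))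
    (P.mul_mem_left s1 k4) using 1
  ring

/-- The elements of `M` whose image is a fraction over `D`. -/
def Fg (hp : P.IsPrime) (o : AddChar M C) (D : Subring C) : AddSubgroup M where
  carrier := {a | o a ∈ Fr hp D}
  zero_mem' := by simp
  add_mem' := fun {a b} h k => by
    show o _ ∈ Fr hp D
    rw [o.map_add_eq_mul]; exact mul_mem h k
  neg_mem' := fun {a} h => Fr.div hp (one_mem _) h (unit_notMem hp o a) (by
    simp [← o.map_add_eq_mul])

theorem fin_order (hp : P.IsPrime) (o : AddChar M C) (pp : p.Prime) (hc : (p : C) ∈ P)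
    {B : AddSubgroup M} (hB : B.FG) (h : ∀ a, ∃ m : ℕ, ¬p ∣ m ∧ m • a ∈ Fg hp o (Sr o B)) {b : M}
    (hb : b ∈ B) (hb' : b ∈ Core p M) : ∃ n : ℕ, 0 < n ∧ o (n • b) - 1 ∈ P := by
  obtain ⟨S, hS⟩ := hB
  let K := FractionRing (C ⧸ P)
  let β : C →+* K := (algebraMap (C ⧸ P) K).comp (Ideal.Quotient.mk P)
  have hβ : ∀ c, β c = 0 ↔ c ∈ P := fun c => by
    rw [RingHom.comp_apply, map_eq_zero_iff _ (IsFractionRing.injective _ _),
      Ideal.Quotient.eq_zero_iff_mem]
  have : Fact p.Prime := ⟨pp⟩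
  have : CharP K p := (CharP.charP_iff_prime_eq_zero pp).2 (by rw [← map_natCast β, hβ]; exact hc)
  let : Algebra (ZMod p) K := _root_.ZMod.algebra K p
  let k := adjoin (ZMod p) ((fun a => β (o a)) '' S)
  have : Algebra.EssFiniteType (ZMod p) k :=
    essFiniteType_iff.2 (fg_adjoin_of_finite (S.finite_toSet.image _))
  have n0 : ∀ a, β (o a) ≠ 0 := fun a z => unit_notMem hp o a ((hβ _).1 z)
  have h1 : ∀ a ∈ B, β (o a) ∈ k := fun a ha => by
    rw [← hS] at ha
    induction ha using AddSubgroup.closure_induction with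
    | mem x hx => exact subset_adjoin _ _ ⟨x, hx, rfl⟩
    | zero => simp
    | add x y _ _ a b => rw [o.map_add_eq_mul, map_mul]; exact mul_mem a b
    | neg x _ a =>
      rw [eq_inv_of_mul_eq_one_left (show β (o (-x)) * β (o x) = 1 by
        simp [← map_mul, ← o.map_add_eq_mul])]
      exact inv_mem a
  have h2 : Sr o B ≤ k.toSubfield.toSubring.comap β := Sr.le o h1
  have h3 : ∀ a ∈ Fg hp o (Sr o B), β (o a) ∈ k := fun a ⟨r, t1, s, t2, t3, t4⟩ => by
    have := (hβ _).2 t4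
    rw [map_sub, map_mul, sub_eq_zero, mul_comm, ← eq_div_iff fun z => t3 ((hβ _).1 z)] at this
    rw [this]
    exact div_mem (h2 t1) (h2 t2)
  by_cases c : IsAlgebraic (ZMod p) (β (o b))
  · have := adjoin.finiteDimensional c.isIntegral
    have : Finite (ZMod p)⟮β (o b)⟯ := Module.finite_of_finite (ZMod p)
    let := Fintype.ofFinite (ZMod p)⟮β (o b)⟯
    have e := FiniteField.pow_card_sub_one_eq_one (AdjoinSimple.gen (ZMod p) (β (o b)))
      fun z => n0 b (congrArg Subtype.val z)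
    refine ⟨_, Nat.sub_pos_of_lt (Fintype.one_lt_card (α := (ZMod p)⟮β (o b)⟯)), (hβ _).1 ?_⟩
    rw [map_sub, map_one, o.map_nsmul_eq_pow, map_pow, sub_eq_zero]
    exact congrArg Subtype.val e
  obtain ⟨ν, a1, a2⟩ := nu (k := ZMod p) (⟨_, h1 b hb⟩ : k) fun t => c (t.algebraMap (A := K))
  obtain ⟨φ, hφ⟩ := (Module.Baer.of_divisible ℚ).extension_property_addMonoidHom
    (Fg hp o (Sr o B)).subtype Subtype.val_injective (AddMonoidHom.mk'
      (fun a => (ν ⟨_, h3 a a.2⟩ : ℚ)) fun x y => by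
        rw [← Int.cast_add, ← a1 _ _ (fun z => n0 _ (congrArg Subtype.val z))
          fun z => n0 _ (congrArg Subtype.val z)]
        congr 2
        exact Subtype.ext (by simp [o.map_add_eq_mul]))
  have t : ∀ a (ha : a ∈ Fg hp o (Sr o B)), φ a = ν ⟨_, h3 a ha⟩ := fun a ha =>
    DFunLike.congr_fun hφ ⟨a, ha⟩
  have := mem_core.1 hb' φ fun a => (h a).imp fun m ⟨u, v⟩ =>
    ⟨u, _, by rw [← map_nsmul, t _ v]; rfl⟩
  rw [t b (le_Fr hp _ (Sr.mem o hb))] at this
  exact absurd (by exact_mod_cast this) a2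

end Pool.Agent.MP_6d5e8e_al.Bd
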