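import Pool.Agent.MP_6d5e8e_al.H27.C2
import Pool.Agent.MP_6d5e8e_al.H27.C4

/-! One of the two families of limits acts trivially. -/

set_option autoImplicit false

namespace Pool.Agent.MP_6d5e8e_al.Bd

universe u

theorem exists_comm {R : Type u} [Ring R] (S : Set R) (h : ∀ a ∈ S, ∀ b ∈ S, a * b = b * a) :
    ∃ (E : Type u) (_ : CommRing E) (j : E →+* R), Function.Injective j ∧ ∀ s ∈ S, ∃ e, j e = s :=
  ⟨Subring.centralizer S.centralizer,
    { (inferInstance : Ring (Subring.centralizer S.centralizer)) with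
      mul_comm := fun a b => Subtype.ext (b.2 a fun s hs => (a.2 s fun t ht => h t ht s hs)) },
    Subring.subtype _, Subtype.val_injective, fun s hs => ⟨⟨s, fun _ ht => (ht s hs).symm⟩, rfl⟩⟩

section Abs

variable {E V : Type*} [CommRing E] [AddCommGroup V] [Module E V]

theorem nilZ (Z : Set E) (w : V) (n : ℕ) (h1 : ∀ η ∈ Z, η ^ n • w = 0)
    (h2 : ∀ ξ ∈ Z, ∀ η ∈ Z, ∃ r, ξ • w = (r * η) • w ∨ η • w = (r * ξ) • w) {η₀ : E}
    (h0 : η₀ ∈ Z) : ∀ c ∈ Ideal.span Z ^ n, c • w = 0 := by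
  have key : ∀ k i : ℕ, ∀ η ∈ Z, n ≤ i + k → ∀ c ∈ Ideal.span Z ^ k, (c * η ^ i) • w = 0 :=
    fun k => by
      induction k with
      | zero =>
        intro i η hη l c _
        obtain ⟨d, rfl⟩ := Nat.exists_eq_add_of_le' (show n ≤ i from l)
        rw [pow_add, ← mul_assoc, mul_smul, h1 η hη, smul_zero]
      | succ k ih =>
        intro i η hη l c hc
        rw [pow_succ] at hc
        refine Submodule.mul_induction_on hc (fun m hm x hx => ?_) fun x y a b => by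
          rw [add_mul, add_smul, a, b, add_zero]
        induction hx using Submodule.span_induction with
        | mem ξ hξ =>
          obtain ⟨r, e | e⟩ := h2 ξ hξ η hη
          · have : (m * ξ * η ^ i) • w = r • (m * η ^ (i + 1)) • w := by
              rw [mul_right_comm, mul_smul, e]; module
            rw [this, ih _ η hη (by omega) m hm, smul_zero]
          · have t : ∀ j : ℕ, η ^ j • w = (r * ξ) ^ j • w := fun j => by
              induction j with
              | zero => simp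
              | succ j a => rw [pow_succ, mul_smul, e, smul_comm, a, smul_smul, ← pow_succ']
            have : (m * ξ * η ^ i) • w = r ^ i • (m * ξ ^ (i + 1)) • w := by
              rw [mul_smul, t]; module
            rw [this, ih _ ξ hξ (by omega) m hm, smul_zero]
        | zero => simp
        | add x y _ _ a b => rw [mul_add, add_mul, add_smul, a, b, add_zero]
        | smul a x _ b => rw [smul_eq_mul, mul_left_comm, mul_assoc, mul_smul, b, smul_zero]
  exact fun c hc => by simpa using key n 0 η₀ h0 (by omega) c hc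

theorem bs_abs (T : Submodule E V) (I : Ideal E) (n : ℕ) (S : Set V)
    (hS : AddSubgroup.closure S = ⊤)
    (h : ∀ u ∈ S, u ∈ T ∨ ((∀ c ∈ I ^ n, c • u = 0) ∧ u ∈ I • (⊤ : Submodule E V))) : T = ⊤ := by
  have top : ∀ N : Submodule E V, (∀ u ∈ S, u ∈ N) → N = ⊤ := fun N k => eq_top_iff.2 fun x _ =>
    (AddSubgroup.closure_le N.toAddSubgroup).2 k (hS ▸ AddSubgroup.mem_top x)
  have h1 : T ⊔ I • ⊤ = ⊤ := top _ fun u hu =>
    (h u hu).elim Submodule.mem_sup_left fun k => Submodule.mem_sup_right k.2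
  have h2 : ∀ k, T ⊔ I ^ k • ⊤ = ⊤ := fun k => by
    induction k with
    | zero => simp
    | succ k ih =>
      refine eq_top_iff.2 (ih.ge.trans (sup_le le_sup_left ?_))
      nth_rewrite 1 [← h1]
      rw [Submodule.smul_sup, pow_succ, Submodule.mul_smul]
      exact sup_le (Submodule.smul_le_right.trans le_sup_left) le_sup_right
  have h3 : T ⊔ Submodule.torsionBySet E V (I ^ n : Ideal E) = ⊤ := top _ fun u hu =>
    (h u hu).elim Submodule.mem_sup_left fun k => Submodule.mem_sup_right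
      ((Submodule.mem_torsionBySet_iff _ _).2 fun c => k.1 c c.2)
  refine eq_top_iff.2 ((h2 n).ge.trans (sup_le le_rfl ?_))
  rw [← h3, Submodule.smul_sup]
  refine sup_le Submodule.smul_le_right (Submodule.smul_le.2 fun c hc x hx => ?_)
  rw [(Submodule.mem_torsionBySet_iff _ _).1 hx ⟨c, hc⟩]
  exact zero_mem _

end Abs

variable {G M V : Type*} [Group G] [AddCommGroup M] [DistribMulAction G M] [AddCommGroup V]
  {p : ℕ} {A B P P' : AddSubgroup M} {ρ : G →* Module.End ℤ V} {ω : AddChar M (Module.End ℤ V)}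

theorem fix_pow {φ : Module.End ℤ V} {w : V} (h : φ w = w) (j : ℕ) : (φ ^ j) w = w := by
  induction j with
  | zero => rfl
  | succ j ih => rw [pow_succ, Module.End.mul_apply, h, ih]

theorem bs (E : Env ρ ω p A B) (s : Side G p B P) (s' : Side G p B P')
    (hi : ∀ z ∈ P, z ∈ P' → ∃ m, ¬p ∣ m ∧ m • z ∈ B)
    (anti : ∀ h : G, (∀ a ∈ P, h • a ∈ P) ∨ ∀ a ∈ P', h • a ∈ P') (hp : ∀ w : V, p • w = 0) {v : V}
    (hv : AddSubgroup.closure (Set.range fun g => ρ g v) = ⊤)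
    (top : AddSubgroup.closure {u | ∃ φ ∈ Lim ω p A P', ∃ w, u = φ w - w} = ⊤)
    {y : Module.End ℤ V} (hy : y ∈ Lim ω p A P) (w : V) : y w = w := by
  have hi' : ∀ z ∈ P', z ∈ P → ∃ m, ¬p ∣ m ∧ m • z ∈ B := fun z a b => hi z b a
  suffices h : ∀ x ∈ Lim ω p A P', ∀ w, y (x w - w) = x w - w by
    have := clos_map (y - 1).toAddMonoidHom (U := ⊥)
      (S := {u | ∃ φ ∈ Lim ω p A P', ∃ w, u = φ w - w})
      (by rintro _ ⟨φ, h1, w, rfl⟩; exact sub_eq_zero.2 (h φ h1 w)) w (top ▸ AddSubgroup.mem_top w)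
    exact sub_eq_zero.1 this
  intro x hx w
  obtain ⟨f, hf⟩ : ∃ f : ℕ, v ∈ AddSubgroup.closure
      {u | ∃ φ ∈ Lim ω p A P', (φ ^ p ^ f) v = v ∧ ∃ w, u = φ w - w} := by
    have mo : ∀ {f g : ℕ}, f ≤ g → AddSubgroup.closure
        {u | ∃ φ ∈ Lim ω p A P', (φ ^ p ^ f) v = v ∧ ∃ w, u = φ w - w} ≤ AddSubgroup.closure
        {u | ∃ φ ∈ Lim ω p A P', (φ ^ p ^ g) v = v ∧ ∃ w, u = φ w - w} := fun {f g} l =>
      AddSubgroup.closure_mono fun _ ⟨φ, h1, h2, h3⟩ => ⟨φ, h1, by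
        rw [← Nat.add_sub_cancel' l, pow_add, pow_mul]; exact fix_pow h2 _, h3⟩
    suffices ∀ z ∈ AddSubgroup.closure {u | ∃ φ ∈ Lim ω p A P', ∃ w, u = φ w - w}, ∃ f : ℕ,
        z ∈ AddSubgroup.closure {u | ∃ φ ∈ Lim ω p A P', (φ ^ p ^ f) v = v ∧ ∃ w, u = φ w - w} from
      this v (top ▸ AddSubgroup.mem_top v)
    intro z hz
    induction hz using AddSubgroup.closure_induction with
    | mem u hu =>
      obtain ⟨φ, h1, h2⟩ := hu
      obtain ⟨f, hf⟩ := Lim.unip h1 v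
      exact ⟨f, AddSubgroup.subset_closure ⟨φ, h1, hf, h2⟩⟩
    | zero => exact ⟨0, zero_mem _⟩
    | add a b _ _ h k =>
      obtain ⟨f, h⟩ := h
      obtain ⟨g, k⟩ := k
      exact ⟨f + g, add_mem (mo (by omega) h) (mo (by omega) k)⟩
    | neg a _ h => exact h.imp fun _ => neg_mem
  obtain ⟨τ, hτ⟩ := s'.con' E.pp
  obtain ⟨k, hk⟩ := Lim.unip hy v
  have h0 := Lim.link E s hi' hy (hτ k) hk
  generalize (τ ^ k)⁻¹ = g₀ at h0
  have dic : ∀ g, (∀ φ ∈ Lim ω p A P', φ (ρ g₀ v) = ρ g₀ v → φ (ρ g v) = ρ g v) ∨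
      y (ρ g v) = ρ g v := fun g => by
    have e : ρ (g₀ * g⁻¹)⁻¹ (ρ g₀ v) = ρ g v := by
      rw [← Module.End.mul_apply, ← map_mul]; simp
    rw [← e]
    refine (anti (g₀ * g⁻¹)).imp (fun h φ h1 h2 => ?_) fun h => ?_
    · exact Lim.link E s' hi h1 (i := 1) (by simpa using s.link E.pp h) (by simpa using h2)
    · exact Lim.link E s hi' hy (i := 1) (by simpa using s'.link E.pp h) (by simpa using h0)
  obtain ⟨f', hf'⟩ := Lim.unip hx (ρ g₀ v)
  obtain ⟨R, _, j, inj, hj⟩ := exists_comm (Lim ω p A P' ∪ Lim ω p A P) (by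
    rintro a (h | h) b (k | k) <;> exact LinearMap.ext (Lim.comm h (Lim.om k)))
  let : Module R V := Module.compHom V j
  have sm : ∀ (r : R) (w : V), r • w = j r w := fun _ _ => rfl
  have lf : ∀ φ ∈ Lim ω p A P' ∪ Lim ω p A P, ∃ e, j (e + 1) = φ := fun φ h =>
    (hj φ h).elim fun e k => ⟨e - 1, by rwa [sub_add_cancel]⟩
  have ap : ∀ (e : R) (w : V), j (e + 1) w - w = e • w := fun e w => by simp [sm]
  obtain ⟨a, rfl⟩ := lf x (Or.inl hx)
  obtain ⟨b, rfl⟩ := lf y (Or.inr hy)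
  let Z : Set R := {e | j (e + 1) ∈ Lim ω p A P' ∧ (j (e + 1) ^ p ^ (f + f')) (ρ g₀ v) = ρ g₀ v}
  have aZ : a ∈ Z := ⟨hx, by rw [add_comm f, pow_add, pow_mul]; exact fix_pow hf' _⟩
  have := bs_abs (Submodule.torsionBy R V a ⊔ Submodule.torsionBy R V b) (Ideal.span Z)
    (p ^ (f + f')) _ hv (by
      rintro _ ⟨g, rfl⟩
      beta_reduce
      by_cases c : j (a + 1) (ρ g v) = ρ g v
      · exact Or.inl (Submodule.mem_sup_left (by simpa [← ap, sub_eq_zero] using c))
      refine (dic g).symm.imp (fun h => Submodule.mem_sup_right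
        (by simpa [← ap, sub_eq_zero] using h)) fun h => ⟨nilZ Z _ _ (fun η m => ?_)
          (fun ξ m η n => ?_) aZ, ?_⟩
      · obtain ⟨r, e⟩ := exists_add_pow_prime_pow_eq E.pp η 1 (f + f')
        have := h _ (Lim.pow m.1 _) m.2
        rwa [← map_pow, e, ← sm, add_smul, add_smul, one_pow, one_smul, mul_assoc, mul_assoc,
          mul_smul, Nat.cast_smul_eq_nsmul, hp, add_zero, add_eq_right] at this
      · obtain ⟨i, t⟩ := Lim.uni E s hi n.1 m.1 (Set.toFinite {ρ g v})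
        exact t.elim
          (fun t => ⟨_, Or.inl (by rw [← ap, t _ rfl, ← map_pow, ← geom_sum_mul_add, ap])⟩)
          fun t => ⟨_, Or.inr (by rw [← ap, t _ rfl, ← map_pow, ← geom_sum_mul_add, ap])⟩
      · have := clos_map (ρ g).toAddMonoidHom (U := (Ideal.span Z • ⊤ : Submodule R V).toAddSubgroup)
          ?_ v hf
        · exact this
        rintro _ ⟨φ, h1, h2, w, rfl⟩
        have h3 := Lim.conj E s' h1 g
        obtain ⟨e, he⟩ := lf _ (Or.inl h3)
        have h4 : ((ρ g * φ * ρ g⁻¹) ^ p ^ f) (ρ g v) = ρ g v := by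
          have : ∀ (n : ℕ) (w : V), ((ρ g * φ * ρ g⁻¹) ^ n) (ρ g w) = ρ g ((φ ^ n) w) := fun n w => by
            induction n with
            | zero => rfl
            | succ n ih => simp only [pow_succ', Module.End.mul_apply, ih, rho_inv']
          rw [this, h2]
        have eZ : e ∈ Z := ⟨he ▸ h3, by
          obtain ⟨i, t | t⟩ := Lim.uni E s hi hx (Lim.pow h3 (p ^ f))
            (Set.toFinite {ρ g v, ρ g₀ v})
          · obtain ⟨d, q⟩ := id hx
            obtain ⟨z, -, -, q⟩ := q 0 {ρ g₀ v} (Set.toFinite _)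
            have q1 := (q _ rfl).2
            have q2 := (t (ρ g₀ v) (by simp)).trans (Lim.pow_apply hx q1 i)
            rw [he, pow_add, pow_mul, Lim.pow_apply (Lim.pow h3 _) q2, smul_comm]
            exact (St ω _).nsmul_mem ((Lim.pow_apply hx q1 _).symm.trans hf') i
          · exact absurd ((t _ (by simp)).trans (fix_pow h4 i)) c⟩
        have : ρ g (φ w - w) = e • ρ g w := by
          simp only [← ap, he, Module.End.mul_apply, rho_inv', map_sub]
        exact this ▸ Submodule.smul_mem_smul (Ideal.subset_span eZ) Submodule.mem_top)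
  obtain ⟨c, hc, d, hd, rfl⟩ := Submodule.mem_sup.1 (this ▸ Submodule.mem_top (x := w))
  rw [Submodule.mem_torsionBy_iff] at hc hd
  rw [← sub_eq_zero, ap, ap, smul_add, hc, zero_add, smul_comm, hd, smul_zero]

/-- The dichotomy. -/
theorem sides (E : Env ρ ω p A B) (s : Side G p B P) (s' : Side G p B P')
    (hi : ∀ z ∈ P, z ∈ P' → ∃ m, ¬p ∣ m ∧ m • z ∈ B)
    (anti : ∀ h : G, (∀ a ∈ P, h • a ∈ P) ∨ ∀ a ∈ P', h • a ∈ P') (hp : ∀ w : V, p • w = 0) {v : V}
    (hv : AddSubgroup.closure (Set.range fun g => ρ g v) = ⊤)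
    (hs : ∀ U : AddSubgroup V, (∀ g, ∀ x ∈ U, ρ g x ∈ U) → (∀ f : Module.End ℤ V,
      (∀ g w, f (ρ g w) = ρ g (f w)) → ∀ x ∈ U, f x ∈ U) → U = ⊥ ∨ U = ⊤)
    (hω : ∀ a, ∃ g, ω a = ρ g) :
    (∀ φ ∈ Lim ω p A P', ∀ w, φ w = w) ∨ ∀ φ ∈ Lim ω p A P, ∀ w, φ w = w := by
  refine (hs (AddSubgroup.closure {u | ∃ φ ∈ Lim ω p A P', ∃ w, u = φ w - w}) (fun g => ?_)
    fun f hf => ?_).imp (fun h φ h1 w => ?_) fun h φ => bs E s s' hi anti hp hv h
  · refine clos_map (ρ g).toAddMonoidHom ?_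
    rintro _ ⟨φ, h1, w, rfl⟩
    exact AddSubgroup.subset_closure ⟨_, Lim.conj E s' h1 g, ρ g w, by simp [rho_inv']⟩
  · refine clos_map f.toAddMonoidHom ?_
    rintro _ ⟨φ, h1, w, rfl⟩
    refine AddSubgroup.subset_closure ⟨φ, h1, f w, ?_⟩
    rw [Lim.comm h1 fun a w => by obtain ⟨g, e⟩ := hω a; rw [e, hf]]
    exact map_sub f _ _
  · exact sub_eq_zero.1 (AddSubgroup.mem_bot.1 (h ▸ AddSubgroup.subset_closure ⟨φ, h1, w, rfl⟩))

end Pool.Agent.MP_6d5e8e_al.Bd
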