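import Mathlib.RingTheory.Valuation.LocalSubring
import Mathlib.RingTheory.Polynomial.ScaleRoots
import Mathlib.Data.Nat.Factorization.Basic
import Mathlib.RingTheory.Int.Basic

/-! One element over which all others are integral away from denominators prime to `p`. -/

set_option autoImplicit false

namespace Pool.Agent.MP_6d5e8e_al.Bd

open Polynomial Finset

variable {K Γ : Type*} [Field K] [LinearOrderedCommGroupWithZero Γ]

theorem v_int (v : Valuation K Γ) (n : ℤ) : v n ≤ 1 := by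
  induction n using Int.induction_on with
  | zero => simp
  | succ n ih => push_cast at ih ⊢; exact v.map_add_le ih v.map_one.le
  | pred n ih => push_cast at ih ⊢; exact v.map_sub_le ih v.map_one.le

theorem v_unit (v : Valuation K Γ) {p : ℕ} (hp : p.Prime) (h : v p < 1) {n : ℤ}
    (hn : ¬(p : ℤ) ∣ n) : v n = 1 := by
  obtain ⟨a, b, e⟩ := (Nat.prime_iff_prime_int.1 hp).irreducible.coprime_iff_not_dvd.2 hn
  by_contra c
  have c' := lt_of_le_of_ne (v_int v n) c
  have : v ((a : K) * p + b * n) < 1 := v.map_add_lt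
    (by rw [v.map_mul]; exact (mul_le_of_le_one_left' (v_int v a)).trans_lt h)
    (by rw [v.map_mul]; exact (mul_le_of_le_one_left' (v_int v b)).trans_lt c')
  rw [show (a : K) * p + b * n = 1 by exact_mod_cast congrArg (Int.cast : ℤ → K) e, v.map_one] at this
  exact lt_irrefl _ this

/-- the slopes are bounded in terms of the polynomial -/
theorem slope {p : ℕ} (hp : p.Prime) (F : ℤ[X]) (hF : ∃ i, ¬(p : ℤ) ∣ F.coeff i) :
    ∃ D : ℕ, ∀ (K Γ : Type) [Field K] [LinearOrderedCommGroupWithZero Γ] (v : Valuation K Γ) (x : K),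
      v p < 1 → x ≠ 0 → aeval x F = 0 →
      ∃ d a b : ℕ, 0 < d ∧ d ≤ D ∧ a ≤ D ∧ b ≤ D ∧ v x ^ d * v p ^ a = v p ^ b ∧ v p ^ b ≠ 0 := by
  classical
  have : ∀ i, ∃ (e : ℕ) (u : ℤ), F.coeff i ≠ 0 → ¬(p : ℤ) ∣ u ∧ F.coeff i = p ^ e * u := fun i => by
    by_cases c : F.coeff i = 0
    · exact ⟨0, 0, fun h => absurd c h⟩
    · obtain ⟨u, h1, h2⟩ := (FiniteMultiplicity.of_prime_left (Nat.prime_iff_prime_int.1 hp)
        c).exists_eq_pow_mul_and_not_dvd
      exact ⟨_, u, fun _ => ⟨h2, h1⟩⟩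
  choose e u hu using this
  refine ⟨F.natDegree + F.support.sup e, fun K Γ _ _ v x h x0 hx => ?_⟩
  obtain ⟨i₀, h₀⟩ := hF
  have s₀ : i₀ ∈ F.support := mem_support_iff.2 fun z => h₀ (z ▸ dvd_zero _)
  have vx : v x ≠ 0 := v.ne_zero_iff.2 x0
  let f : ℕ → K := fun i => (F.coeff i : K) * x ^ i
  have vf : ∀ i ∈ F.support, v (f i) = v p ^ e i * v x ^ i := fun i hi => by
    obtain ⟨a, b⟩ := hu i (mem_support_iff.1 hi)
    simp only [f]
    rw [b]
    push_cast
    rw [v.map_mul, v.map_mul, v.map_pow, v.map_pow, v_unit v hp h a, mul_one]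
  obtain ⟨j, hj, hm⟩ := exists_max_image F.support (fun i => v (f i)) ⟨i₀, s₀⟩
  have j0 : v (f j) ≠ 0 := fun z => by
    have := hm i₀ s₀
    simp only [z, f] at this
    rw [v.map_mul, v_unit v hp h h₀, one_mul, v.map_pow] at this
    exact pow_ne_zero _ vx (le_zero_iff.1 this)
  have sm : ∑ i ∈ F.support, f i = 0 := by
    rw [← hx, aeval_def, eval₂_eq_sum, Polynomial.sum]; simp [f]
  obtain ⟨i, hi, ij, e1⟩ : ∃ i ∈ F.support, i ≠ j ∧ v (f i) = v (f j) := by
    by_contra c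
    push Not at c
    have := v.map_sum_eq_of_lt hj (f := f) fun i hi => lt_of_le_of_ne (hm i (mem_sdiff.1 hi).1)
      (c i (mem_sdiff.1 hi).1 (by simpa using (mem_sdiff.1 hi).2))
    rw [sm, v.map_zero] at this
    exact j0 this.symm
  have key : ∀ i ∈ F.support, ∀ j ∈ F.support, i < j → v (f i) = v (f j) → v (f i) ≠ 0 →
      ∃ d a b : ℕ, 0 < d ∧ d ≤ F.natDegree + F.support.sup e ∧ a ≤ F.natDegree + F.support.sup e ∧
        b ≤ F.natDegree + F.support.sup e ∧ v x ^ d * v p ^ a = v p ^ b ∧ v p ^ b ≠ 0 :=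
    fun i hi j hj l e1 n0 => by
      rw [vf i hi] at n0
      rw [vf i hi, vf j hj, ← Nat.sub_add_cancel l.le, pow_add, ← mul_assoc] at e1
      have a1 := le_natDegree_of_mem_supp j hj
      have a2 := le_sup (f := e) hi
      have a3 := le_sup (f := e) hj
      refine ⟨j - i, e j, e i, by omega, by omega, by omega, by omega, ?_, left_ne_zero_of_mul n0⟩
      rw [Nat.sub_add_cancel l.le] at e1
      rw [mul_right_cancel₀ (pow_ne_zero _ vx) e1, mul_comm]
  rcases lt_or_gt_of_ne ij with l | l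
  · exact key i hi j hj l e1 (e1 ▸ j0)
  · exact key j hj i hi l e1.symm j0

/-- two slopes cannot cancel -/
theorem two {x y π : Γ} (h : π < 1) {D E d a b d' a' b' : ℕ} (d0 : 0 < d) (dD : d ≤ D)
    (e1 : x ^ d * π ^ a = π ^ b) (n1 : π ^ b ≠ 0) (d0' : 0 < d') (aE : a' ≤ E) (bE : b' ≤ E)
    (e2 : y ^ d' * π ^ a' = π ^ b') (hxy : x ^ (D * E + 1) * y = 1) : x = 1 ∧ y = 1 := by
  have hx : x = 1 := by
    by_cases c : a = b
    · subst c
      exact (pow_eq_one_iff_left d0.ne').1 (mul_right_cancel₀ n1 (e1.trans (one_mul _).symm))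
    have p0 : π ≠ 0 := fun z => by
      have b0 : b = 0 := by by_contra k; exact n1 (by rw [z, zero_pow k])
      rw [z, zero_pow (fun k => c (k.trans b0.symm)), mul_zero] at e1
      exact n1 (z ▸ e1.symm)
    have k : π ^ (a * ((D * E + 1) * d') + a' * d) = π ^ (b * ((D * E + 1) * d') + b' * d) := by
      rw [pow_add, pow_add, pow_mul π b, pow_mul π b', ← e1, ← e2, mul_pow, mul_pow,
        mul_mul_mul_comm, ← pow_mul x, ← pow_mul y, mul_comm d' d,
        show d * ((D * E + 1) * d') = (D * E + 1) * (d * d') by ring, pow_mul x, ← mul_pow, hxy,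
        one_pow, one_mul, ← pow_mul, ← pow_mul]
    have k' := pow_right_injective₀ (zero_lt_iff.2 p0) h.ne k
    have m1 : a' * d ≤ D * E := by nlinarith [Nat.mul_le_mul aE dD]
    have m2 : b' * d ≤ D * E := by nlinarith [Nat.mul_le_mul bE dD]
    have m3 : D * E + 1 ≤ (D * E + 1) * d' := Nat.le_mul_of_pos_right _ d0'
    rcases Nat.lt_or_gt_of_ne c with l | l
    · have := Nat.mul_le_mul_right ((D * E + 1) * d') (Nat.succ_le_of_lt l)
      rw [Nat.succ_mul] at this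
      omega
    · have := Nat.mul_le_mul_right ((D * E + 1) * d') (Nat.succ_le_of_lt l)
      rw [Nat.succ_mul] at this
      omega
  exact ⟨hx, by rwa [hx, one_pow, one_mul] at hxy⟩

/-- one element that sees all slopes -/
theorem one_t {E : Type} [CommRing E] {p : ℕ} (hp : p.Prime) (U : Subgroup Eˣ)
    (hU : ∀ q ∈ U, ∃ F : ℤ[X], (∃ i, ¬(p : ℤ) ∣ F.coeff i) ∧ aeval (q : E) F = 0) (S : Finset Eˣ)
    (hS : ∀ q ∈ S, q ∈ U) : ∃ t ∈ U, ∀ (K Γ : Type) [Field K] [LinearOrderedCommGroupWithZero Γ]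
      (v : Valuation K Γ) (θ : E →+* K), v p < 1 → v (θ t) = 1 → ∀ q ∈ S, v (θ q) = 1 := by
  classical
  induction S using Finset.induction_on with
  | empty => exact ⟨1, U.one_mem, by simp⟩
  | insert q S _ ih =>
    obtain ⟨t, ht, h⟩ := ih fun z hz => hS z (mem_insert_of_mem hz)
    have hq := hS q (mem_insert_self _ _)
    obtain ⟨F, F1, F2⟩ := hU t ht
    obtain ⟨G, G1, G2⟩ := hU q hq
    obtain ⟨D, hD⟩ := slope hp F F1
    obtain ⟨D', hD'⟩ := slope hp G G1
    refine ⟨t ^ (D * D' + 1) * q, U.mul_mem (U.pow_mem ht _) hq, fun K Γ _ _ v θ h1 h2 => ?_⟩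
    have ev : ∀ (z : Eˣ) (H : ℤ[X]), aeval (z : E) H = 0 → aeval (θ z) H = 0 := fun z H k => by
      have := aeval_algHom_apply θ.toIntAlgHom (z : E) H
      rwa [k, map_zero] at this
    obtain ⟨d, a, b, d0, dD, -, -, e1, n1⟩ := hD K Γ v _ h1 (t.isUnit.map θ).ne_zero (ev t F F2)
    obtain ⟨d', a', b', d0', -, aE, bE, e2, -⟩ :=
      hD' K Γ v _ h1 (q.isUnit.map θ).ne_zero (ev q G G2)
    obtain ⟨k1, k2⟩ := two h1 d0 dD e1 n1 d0' aE bE e2 (by simpa using h2)
    exact fun z hz => (mem_insert.1 hz).elim (fun e => e ▸ k2) (h K Γ v θ h1 k1 z)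

/-- step G1 -/
theorem g1 {E : Type} [CommRing E] {p : ℕ} (hp : p.Prime) (U : Subgroup Eˣ)
    (hU : ∀ q ∈ U, ∃ F : ℤ[X], (∃ i, ¬(p : ℤ) ∣ F.coeff i) ∧ aeval (q : E) F = 0) (S : Finset Eˣ)
    (hS : ∀ q ∈ S, q ∈ U) : ∃ t ∈ U, ∀ q ∈ S, ∃ u : ℤ, ¬(p : ℤ) ∣ u ∧
      IsIntegral (Subring.closure {(t : E), ((t⁻¹ : Eˣ) : E)}) ((u : E) * q) := by
  obtain ⟨t, ht, h⟩ := one_t hp U hU S hS
  refine ⟨t, ht, fun q hq => ?_⟩
  obtain ⟨F, ⟨i, F1⟩, F2⟩ := hU q (hS q hq)
  have F0 : F ≠ 0 := fun z => F1 (by simp [z])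
  obtain ⟨u, h1, h2⟩ := (FiniteMultiplicity.of_prime_left (Nat.prime_iff_prime_int.1 hp)
    (leadingCoeff_ne_zero.2 F0)).exists_eq_pow_mul_and_not_dvd
  refine ⟨u, h2, by_contra fun c => ?_⟩
  set E₀ := Subring.closure {(t : E), ((t⁻¹ : Eˣ) : E)}
  let T : Submonoid E :=
    { carrier := {y | ∃ f : E₀[X], f.Monic ∧ aeval ((u : E) * q) f = y}
      one_mem' := ⟨1, monic_one, map_one _⟩
      mul_mem' := by
        rintro _ _ ⟨f, f1, rfl⟩ ⟨g, g1, rfl⟩
        exact ⟨f * g, f1.mul g1, map_mul _ _ _⟩ }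
  obtain ⟨P, hP, -, dj⟩ := Ideal.exists_le_prime_disjoint (⊥ : Ideal E) T (Set.disjoint_left.2
    fun y hy ⟨f, f1, f2⟩ => c ⟨f, f1, f2.trans hy⟩)
  let K := FractionRing (E ⧸ P)
  let θ : E →+* K := (algebraMap (E ⧸ P) K).comp (Ideal.Quotient.mk P)
  have ke : ∀ y, θ y = 0 → y ∈ P := fun y hy => Ideal.Quotient.eq_zero_iff_mem.1
    (IsFractionRing.injective (E ⧸ P) K (hy.trans (map_zero _).symm))
  have : θ ((u : E) * q) ∈ (integralClosure (Subring.closure (θ '' {(t : E), ((t⁻¹ : Eˣ) : E)}))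
      K).toSubring := by
    rw [← iInf_valuationSubring_superset, Subring.mem_iInf]
    rintro ⟨V, hV⟩
    show _ ∈ V
    have a1 : V.valuation (θ t) ≤ 1 := (V.valuation_le_one_iff _).2 (hV ⟨_, by simp, rfl⟩)
    have a2 : V.valuation (θ (t⁻¹ : Eˣ)) ≤ 1 := (V.valuation_le_one_iff _).2 (hV ⟨_, by simp, rfl⟩)
    have a3 : V.valuation (θ t) = 1 := le_antisymm a1 (by
      have := mul_le_mul_right a2 (V.valuation (θ t))
      rwa [← map_mul, ← map_mul, Units.mul_inv, map_one, map_one, mul_one] at this)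
    rw [← V.valuation_le_one_iff]
    rcases (v_int V.valuation p).lt_or_eq with l | l
    · rw [map_mul, map_mul, h K _ V.valuation θ (by simpa using l) a3 q hq, mul_one, map_intCast]
      exact v_int _ _
    · obtain ⟨f, f1, f2⟩ := isIntegral_leadingCoeff_smul F (q : E) F2
      have i2 : IsIntegral V (θ (F.leadingCoeff • (q : E))) := ⟨f.map (Int.castRingHom V), f1.map _, by
        rw [eval₂_map, RingHom.ext_int (RingHom.comp _ _) (θ.comp (algebraMap ℤ E)), ← hom_eval₂, f2,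
          map_zero]⟩
      obtain ⟨y, hy⟩ := (IsIntegrallyClosed.isIntegral_iff (R := V) (K := K)).1 i2
      have i3 : V.valuation (θ (F.leadingCoeff • (q : E))) ≤ 1 := hy ▸ V.valuation_le_one y
      rw [h1, zsmul_eq_mul] at i3
      push_cast at i3 l
      rwa [mul_assoc, map_mul, map_mul, map_pow, map_pow, map_natCast, l, one_pow, one_mul] at i3
  obtain ⟨g, g1, g2⟩ := this
  let θ₀ : E₀ →+* Subring.closure (θ '' {(t : E), ((t⁻¹ : Eˣ) : E)}) :=
    θ.restrict _ _ fun y hy => by rw [← RingHom.map_closure]; exact ⟨y, hy, rfl⟩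
  have su : Function.Surjective θ₀ := fun ⟨y, hy⟩ => by
    rw [← RingHom.map_closure] at hy
    obtain ⟨z, hz, rfl⟩ := hy
    exact ⟨⟨z, hz⟩, rfl⟩
  obtain ⟨f, f1, -, f2⟩ := lifts_and_degree_eq_and_monic (mem_lifts_of_surjective su g) g1
  refine Set.disjoint_left.1 dj (ke _ ?_) ⟨f, f2, rfl⟩
  rw [← g2, ← f1, eval₂_map, aeval_def, hom_eval₂]
  rfl

end Pool.Agent.MP_6d5e8e_al.Bd
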