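import Pool.Agent.MP_6d5e8e_al.H27.C5
import Pool.Agent.MP_6d5e8e_al.H27.C6

/-! The structure of the normal subgroup when all coinvariants are cyclic. -/

set_option autoImplicit false

namespace Pool.Agent.MP_6d5e8e_al.Bd

open Polynomial

variable {G M : Type*} [Group G] [AddCommGroup M] [DistribMulAction G M] {p : ℕ}
  {B P P' : AddSubgroup M}

/-- All quotients `B / (g B + p B)` are cyclic. -/
def Cyc (G M : Type*) [Group G] [AddCommGroup M] [DistribMulAction G M] (p : ℕ) : Prop :=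
  ∀ (B : AddSubgroup M) (g : G), (∀ a ∈ B, g • a ∈ B) →
    ∃ z ∈ B, ∀ x ∈ B, ∃ b ∈ B, ∃ c ∈ B, ∃ i : ℤ, x = g • b + p • c + i • z

theorem fg_le {S T : AddSubgroup M} (hT : T.FG) (h : S ≤ T) : S.FG := by
  rw [← AddSubgroup.toIntSubmodule_toAddSubgroup S, ← Submodule.fg_iff_addSubgroup_fg]
  rw [← AddSubgroup.toIntSubmodule_toAddSubgroup T, ← Submodule.fg_iff_addSubgroup_fg] at hT
  exact hT.of_le h

/-- Elements with a multiple prime to `p` in `N`. -/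
def hull (pp : p.Prime) (N : AddSubgroup M) : AddSubgroup M where
  carrier := {a | ∃ m : ℕ, ¬p ∣ m ∧ m • a ∈ N}
  zero_mem' := ⟨1, pp.not_dvd_one, by simp⟩
  add_mem' := fun {a b} ⟨m, h, h'⟩ ⟨n, k, k'⟩ => ⟨m * n, fun d => (pp.dvd_mul.1 d).elim h k, by
    convert N.add_mem (N.nsmul_mem h' n) (N.nsmul_mem k' m) using 1; module⟩
  neg_mem' := fun ⟨m, h, h'⟩ => ⟨m, h, by simpa using h'⟩

theorem le_hull (pp : p.Prime) (N : AddSubgroup M) : N ≤ hull pp N := fun a h =>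
  ⟨1, pp.not_dvd_one, by simpa using h⟩

theorem hull_of (pp : p.Prime) {N : AddSubgroup M} {a : M} {m : ℕ} (h : ¬p ∣ m)
    (k : m • a ∈ hull pp N) : a ∈ hull pp N := by
  obtain ⟨n, h1, h2⟩ := k
  exact ⟨n * m, fun d => (pp.dvd_mul.1 d).elim h1 h, by rwa [mul_smul]⟩

theorem iter {T : AddSubgroup M} (h : ∀ x ∈ B, ∃ c ∈ B, x - p • c ∈ T) (s : ℕ) :
    ∀ x ∈ B, ∃ c ∈ B, x - p ^ s • c ∈ T := fun x hx => by
  induction s with
  | zero => exact ⟨x, hx, by simp⟩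
  | succ s ih =>
    obtain ⟨c, h1, h2⟩ := ih
    obtain ⟨d, h3, h4⟩ := h c h1
    exact ⟨d, h3, by convert T.add_mem h2 (T.nsmul_mem h4 (p ^ s)) using 1; module⟩

theorem uni_cyc (pp : p.Prime) (tor : ∀ a, ∃ k : ℕ, p ^ k • a ∈ P) {x y z : M} {i j : ℤ}
    (hx : x - i • z ∈ P) (hy : y - j • z ∈ P) : ∃ n : ℕ, x - n • y ∈ P ∨ y - n • x ∈ P := by
  have key : ∀ {x y : M} {i j a b : ℤ}, x - i • z ∈ P → y - j • z ∈ P → ¬(p : ℤ) ∣ a →
      a * i = b * j → ∃ n : ℕ, x - n • y ∈ P := fun {x y i j a b} hx hy ha e => by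
    obtain ⟨k, hk⟩ := tor x
    obtain ⟨l, hl⟩ := tor y
    obtain ⟨u, v, e'⟩ := (((Nat.prime_iff_prime_int.1 pp).irreducible.coprime_iff_not_dvd.2
      ha).pow_left (m := k))
    have p0 : (p : ℤ) ^ l ≠ 0 := pow_ne_zero _ (by exact_mod_cast pp.ne_zero)
    refine ⟨(v * b % p ^ l).toNat, ?_⟩
    rw [← natCast_zsmul, Int.toNat_of_nonneg (Int.emod_nonneg _ p0), Int.emod_def]
    have := P.add_mem (P.add_mem (P.zsmul_mem hk u) (P.zsmul_mem hl (v * b / p ^ l)))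
      (P.zsmul_mem (P.sub_mem (P.zsmul_mem hx a) (P.zsmul_mem hy b)) v)
    convert this using 1
    linear_combination (norm := module) (-e') • x + (congrArg (v * ·) e) • z
  by_cases c : 0 < i.gcd j
  · obtain ⟨a, b, h, h1, h2⟩ := Int.exists_gcd_one c
    by_cases d : (p : ℤ) ∣ b
    · have : ¬(p : ℤ) ∣ a := fun t => pp.not_dvd_one (h ▸ Int.dvd_gcd t d)
      exact (key hy hx this (b := b) (by linear_combination a * h2 - b * h1)).imp fun _ => Or.inr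
    · exact (key hx hy d (b := a) (by linear_combination b * h1 - a * h2)).imp fun _ => Or.inl
  · exact ⟨0, Or.inl (by simpa [(Int.gcd_eq_zero_iff.1 (Nat.eq_zero_of_not_pos c)).1] using hx)⟩

/-- The span of the forward orbit. -/
def Fw (τ : G) (L : Finset M) : AddSubgroup M :=
  AddSubgroup.closure {x | ∃ i : ℕ, ∃ l ∈ L, x = τ ^ i • l}

theorem Fw.mem (τ : G) {L : Finset M} (i : ℕ) {l : M} (h : l ∈ L) : τ ^ i • l ∈ Fw τ L :=
  AddSubgroup.subset_closure ⟨i, l, h, rfl⟩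

theorem Fw.smul (τ : G) (L : Finset M) : ∀ a ∈ Fw τ L, τ • a ∈ Fw τ L :=
  clos_map (DistribSMul.toAddMonoidHom M τ) (by
    rintro _ ⟨i, l, h, rfl⟩
    simpa [pow_succ', mul_smul] using Fw.mem τ (i + 1) h)

theorem smul_pow_mem {τ : G} (h : ∀ a ∈ P, τ • a ∈ P) (k : ℕ) : ∀ a ∈ P, τ ^ k • a ∈ P :=
  fun a ha => by
    induction k with
    | zero => simpa using ha
    | succ k ih => rw [pow_succ', mul_smul]; exact h _ ih

theorem side (pp : p.Prime) (hc : ∀ (g h : G) (a : M), g • h • a = h • g • a) (na : Cyc G M p)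
    (τ : G) (L : Finset M) (h1 : hull pp (Fw τ L ⊔ Fw τ⁻¹ L) = ⊤) {n : ℕ} (n0 : 0 < n)
    (h2 : ∀ a ∈ Fw τ L, n • τ⁻¹ • a ∈ Fw τ L) (hB : B ≤ Fw τ L) :
    (∀ a, ∃ m : ℕ, 0 < m ∧ m • a ∈ Fw τ L) ∧ Side G p B (hull pp (Fw τ L)) := by
  have st : ∀ a ∈ hull pp (Fw τ L), τ • a ∈ hull pp (Fw τ L) := fun a ⟨m, h, k⟩ =>
    ⟨m, h, smul_comm τ m a ▸ Fw.smul τ L _ k⟩
  have up : ∀ {P : AddSubgroup M} {a : M} {k l : ℕ}, (∀ a ∈ P, τ • a ∈ P) → τ ^ k • a ∈ P →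
      k ≤ l → τ ^ l • a ∈ P := fun {P a k l} h m t => by
    rw [← Nat.sub_add_cancel t, pow_add, mul_smul]
    exact smul_pow_mem h _ _ m
  have e1 : ∀ a ∈ Fw τ⁻¹ L, ∃ k : ℕ, τ ^ k • a ∈ Fw τ L := fun a ha => by
    induction ha using AddSubgroup.closure_induction with
    | mem x hx =>
      obtain ⟨i, l, h, rfl⟩ := hx
      exact ⟨i, by simpa using Fw.mem τ 0 h⟩
    | zero => exact ⟨0, by simp⟩
    | add x y _ _ a b =>
      obtain ⟨k, a⟩ := a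
      obtain ⟨l, b⟩ := b
      exact ⟨k + l, by
        rw [smul_add]
        exact add_mem (up (Fw.smul τ L) a (by omega)) (up (Fw.smul τ L) b (by omega))⟩
    | neg x _ a => exact a.imp fun k a => by simpa using a
  have e2 : ∀ a, ∃ m k : ℕ, ¬p ∣ m ∧ τ ^ k • m • a ∈ Fw τ L := fun a => by
    obtain ⟨m, h, k⟩ : a ∈ hull pp _ := h1 ▸ AddSubgroup.mem_top a
    obtain ⟨x, hx, y, hy, e⟩ := AddSubgroup.mem_sup.1 k
    obtain ⟨k, hk⟩ := e1 y hy
    exact ⟨m, k, h, by rw [← e, smul_add]; exact add_mem (smul_pow_mem (Fw.smul τ L) _ _ hx) hk⟩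
  have e3 : ∀ (k : ℕ) (a : M), τ ^ k • a ∈ Fw τ L → n ^ k • a ∈ Fw τ L := fun k => by
    induction k with
    | zero => simp
    | succ k ih =>
      intro a h
      rw [pow_succ, mul_smul] at h
      have := h2 _ (ih _ h)
      rwa [smul_comm τ⁻¹, inv_smul_smul, smul_smul, ← pow_succ'] at this
  have e4 : ∀ a, ∃ m : ℕ, 0 < m ∧ m • a ∈ Fw τ L := fun a => by
    obtain ⟨m, k, h, t⟩ := e2 a
    exact ⟨n ^ k * m, mul_pos (pow_pos n0 _) (Nat.pos_of_ne_zero fun z => h (z ▸ dvd_zero p)),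
      by rw [mul_smul]; exact e3 k _ t⟩
  have tor : ∀ a, ∃ k : ℕ, p ^ k • a ∈ hull pp (Fw τ L) := fun a => by
    obtain ⟨m, m0, h⟩ := e4 a
    obtain ⟨k, u, hu, rfl⟩ := Nat.exists_eq_pow_mul_and_not_dvd m0.ne' p pp.ne_one
    exact ⟨k, u, hu, by rwa [smul_smul, mul_comm]⟩
  have con : ∀ a, ∃ k : ℕ, τ ^ k • a ∈ hull pp (Fw τ L) := fun a => by
    obtain ⟨m, k, h, t⟩ := e2 a
    exact ⟨k, m, h, smul_comm (τ ^ k) m a ▸ t⟩
  have stab : ∀ g : G, ∃ c : ℕ, ∀ a ∈ hull pp (Fw τ L), p ^ c • g • a ∈ hull pp (Fw τ L) :=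
    fun g => by
      choose c hc' using fun l => tor (g • l)
      refine ⟨L.sup c, fun a ⟨m, h, t⟩ => hull_of pp h ?_⟩
      rw [smul_comm m, smul_comm m]
      refine clos_map (p ^ L.sup c • DistribSMul.toAddMonoidHom M g) ?_ _ t
      rintro _ ⟨i, l, h, rfl⟩
      show p ^ L.sup c • g • τ ^ i • l ∈ _
      rw [hc, smul_comm]
      exact smul_pow_mem st _ _ (pow_up (hc' l) (Finset.le_sup h))
  refine ⟨e4, hB.trans (le_hull pp _), tor, fun x y => ?_, stab, τ, st, con⟩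
  obtain ⟨k, hk⟩ := con x
  obtain ⟨l, hl⟩ := con y
  obtain ⟨z, -, hz⟩ := na ((hull pp (Fw τ L)).comap (DistribSMul.toAddMonoidHom M (τ ^ (k + l))))
    (τ ^ (k + l)) fun a ha => smul_pow_mem st _ _ ha
  obtain ⟨c, hc'⟩ := stab (τ ^ (k + l))⁻¹
  have t : ∀ x, τ ^ (k + l) • x ∈ hull pp (Fw τ L) → ∃ i : ℤ, x - i • z ∈ hull pp (Fw τ L) :=
    fun x hx => by
      obtain ⟨b, h1, h2⟩ := iter (p := p) (T := hull pp (Fw τ L) ⊔ AddSubgroup.zmultiples z)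
        (fun x hx => by
          obtain ⟨b, h1, c, h2, i, rfl⟩ := hz x hx
          refine ⟨c, h2, ?_⟩
          rw [add_right_comm, add_sub_cancel_right]
          exact AddSubgroup.add_mem_sup h1 ⟨i, rfl⟩) c x hx
      obtain ⟨u, h3, _, ⟨i, rfl⟩, e⟩ := AddSubgroup.mem_sup.1 h2
      have := hc' _ h1
      rw [DistribSMul.toAddMonoidHom_apply, inv_smul_smul] at this
      refine ⟨i, ?_⟩
      convert add_mem h3 this using 1
      linear_combination (norm := module) -e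
  obtain ⟨i, hi⟩ := t x (up st hk (by omega))
  obtain ⟨j, hj⟩ := t y (up st hl (by omega))
  exact uni_cyc pp tor hi hj

theorem fw_fg (τ : G) (L : Finset M) : (Fw τ L ⊓ Fw τ⁻¹ L).FG := by
  let T : ℕ → AddSubgroup M := fun k => AddSubgroup.closure {x | ∃ i < k, ∃ l ∈ L, x = τ ^ i • l}
  have mo : ∀ {k l}, k ≤ l → T k ≤ T l := fun h =>
    AddSubgroup.closure_mono fun _ ⟨i, a, b⟩ => ⟨i, a.trans_le h, b⟩
  have sh : ∀ n k, ∀ x ∈ T k, τ ^ n • x ∈ T (n + k) := fun n k =>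
    clos_map (DistribSMul.toAddMonoidHom M (τ ^ n)) (by
      rintro _ ⟨i, a, l, h, rfl⟩
      exact AddSubgroup.subset_closure ⟨n + i, by omega, l, h, by simp [pow_add, mul_smul]⟩)
  let A := AddSubgroup.closure (L : Set M)
  have : Module.Finite ℤ A := Module.Finite.iff_addGroup_fg.2 inferInstance
  let K : ℕ →o Submodule ℤ A := ⟨fun k => AddSubgroup.toIntSubmodule
    ((T k).comap ((DistribSMul.toAddMonoidHom M (τ ^ k)).comp A.subtype)),
    monotone_nat_of_le_succ fun k x hx => by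
      have := sh 1 k _ hx
      show τ ^ (k + 1) • (x : M) ∈ T (k + 1)
      rwa [add_comm, pow_add, mul_smul]⟩
  obtain ⟨N, hN⟩ := monotone_stabilizes_iff_noetherian.2 inferInstance K
  have dec : ∀ k, T (k + 1) ≤ T k ⊔ A.map (DistribSMul.toAddMonoidHom M (τ ^ k)) := fun k =>
    (AddSubgroup.closure_le _).2 (by
      rintro _ ⟨i, a, l, h, rfl⟩
      rcases (Nat.lt_succ_iff.1 a).lt_or_eq with a | rfl
      · exact AddSubgroup.mem_sup_left (AddSubgroup.subset_closure ⟨i, a, l, h, rfl⟩)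
      · exact AddSubgroup.mem_sup_right ⟨l, AddSubgroup.subset_closure h, rfl⟩)
  have dn : ∀ (n k : ℕ) (x : M), τ ^ n • x ∈ T (n + 1) → x ∈ T (N + 1 + k) → x ∈ T (N + 1) :=
    fun n k x h => by
      induction k with
      | zero => exact id
      | succ k ih =>
        refine fun m => ih ?_
        obtain ⟨y, hy, _, ⟨b, hb, rfl⟩, rfl⟩ := AddSubgroup.mem_sup.1 (dec _ m)
        have : (⟨b, hb⟩ : A) ∈ K (n + (N + 1 + k)) := by
          have := sub_mem (mo (l := n + (N + 1 + k)) (by omega) h) (sh n _ y hy)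
          show τ ^ (n + (N + 1 + k)) • b ∈ T _
          simpa [pow_add _ n, mul_smul] using this
        rw [← hN _ (by omega), hN (N + 1 + k) (by omega)] at this
        exact add_mem hy this
  refine fg_le (T := T (N + 1)) ((AddSubgroup.fg_iff _).2 ⟨_, rfl, ?_⟩) fun x hx => ?_
  · refine (((Set.finite_lt_nat (N + 1)).prod L.finite_toSet).image
      fun q => τ ^ q.1 • q.2).subset ?_
    rintro _ ⟨i, a, l, h, rfl⟩
    exact ⟨(i, l), ⟨a, h⟩, rfl⟩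
  have a1 : ∀ x ∈ Fw τ L, ∃ k, x ∈ T k := fun x h1 => by
    induction h1 using AddSubgroup.closure_induction with
    | mem x hx =>
      obtain ⟨i, l, h, rfl⟩ := hx
      exact ⟨i + 1, AddSubgroup.subset_closure ⟨i, by omega, l, h, rfl⟩⟩
    | zero => exact ⟨0, zero_mem _⟩
    | add x y _ _ a b =>
      obtain ⟨k, a⟩ := a
      obtain ⟨l, b⟩ := b
      exact ⟨k + l, add_mem (mo (by omega) a) (mo (by omega) b)⟩
    | neg x _ a => exact a.imp fun k => neg_mem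
  have a2 : ∀ x ∈ Fw τ⁻¹ L, ∃ n : ℕ, τ ^ n • x ∈ T (n + 1) := fun x h2 => by
    have up : ∀ {x : M} {k : ℕ} (l : ℕ), τ ^ k • x ∈ T (k + 1) →
        τ ^ (l + k) • x ∈ T (l + k + 1) := fun l h => by
      rw [pow_add, mul_smul, add_assoc]; exact sh l _ _ h
    induction h2 using AddSubgroup.closure_induction with
    | mem x hx =>
      obtain ⟨i, l, h, rfl⟩ := hx
      exact ⟨i, AddSubgroup.subset_closure ⟨0, by omega, l, h, by simp⟩⟩
    | zero => exact ⟨0, by simp⟩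
    | add x y _ _ a b =>
      obtain ⟨k, a⟩ := a
      obtain ⟨l, b⟩ := b
      exact ⟨l + k, by rw [smul_add]; exact add_mem (up l a) (add_comm k l ▸ up k b)⟩
    | neg x _ a => exact a.imp fun k a => by simpa using a
  obtain ⟨k, hk⟩ := a1 x hx.1
  obtain ⟨n, hn⟩ := a2 x hx.2
  exact dn n k x hn (mo (by omega) hk)

theorem Side.cmp (pp : p.Prime) (hc : ∀ (g h : G) (a : M), g • h • a = h • g • a)
    (s : Side G p B P) (h : G) (k : ¬∀ a ∈ P, h • a ∈ P) : ∀ b ∈ P, h⁻¹ • b ∈ P := fun b hb => by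
  obtain ⟨τ, hτ⟩ := s.con' pp
  obtain ⟨c, t⟩ := s.stab h⁻¹
  simp only [not_forall] at k
  obtain ⟨a, ha, k⟩ := k
  obtain ⟨j, m | m⟩ := s.uni ((τ ^ c)⁻¹ • h • a) ((τ ^ c)⁻¹ • b)
  · obtain ⟨i, e⟩ := hτ c ((τ ^ c)⁻¹ • h • a - j • (τ ^ c)⁻¹ • b)
    have := add_mem (add_mem e (nsmul_mem m (p ^ c * i))) (nsmul_mem hb j)
    rw [sub_add_cancel, smul_sub, smul_comm _ j, smul_inv_smul, smul_inv_smul,
      sub_add_cancel] at this
    exact absurd this k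
  · obtain ⟨i, e⟩ := hτ c (h⁻¹ • ((τ ^ c)⁻¹ • b - j • (τ ^ c)⁻¹ • h • a))
    have := add_mem (add_mem e (nsmul_mem (t _ m) i)) (nsmul_mem ha j)
    rwa [smul_smul i, mul_comm i, sub_add_cancel, hc, smul_sub, smul_comm _ j, smul_inv_smul,
      smul_inv_smul, smul_sub, smul_comm _ j, inv_smul_smul, sub_add_cancel] at this

theorem anti (pp : p.Prime) (hc : ∀ (g h : G) (a : M), g • h • a = h • g • a) (na : Cyc G M p)
    (s : Side G p B P) (s' : Side G p B P') (sup : ∀ a, ∃ x ∈ P, ∃ y ∈ P', a = x + y) (h : G) :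
    (∀ a ∈ P, h • a ∈ P) ∨ ∀ a ∈ P', h • a ∈ P' := by
  by_contra c
  rw [not_or] at c
  let S : AddSubgroup M → AddSubgroup M := fun P =>
    P.map (DistribSMul.toAddMonoidHom M h⁻¹) ⊔ P.map (DistribSMul.toAddMonoidHom M p)
  have gap : ∀ {P P' : AddSubgroup M}, Side G p B P → (∀ a, ∃ x ∈ P, ∃ y ∈ P', a = x + y) →
      (¬∀ a ∈ P, h • a ∈ P) → ∃ a ∈ P', h⁻¹ • a ∈ P ∧ h⁻¹ • a ∉ S P := fun {P P'} s sup c => by
    obtain ⟨x, hx, n⟩ : ∃ x ∈ P, x ∉ S P := by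
      by_contra k
      push Not at k
      obtain ⟨d, t⟩ := s.stab h
      refine c fun a ha => ?_
      obtain ⟨u, h1, v, h2, e⟩ := iter (p := p) (T := P.map (DistribSMul.toAddMonoidHom M h⁻¹))
        (fun x hx => by
          obtain ⟨y, h1, _, ⟨z, h2, rfl⟩, rfl⟩ := AddSubgroup.mem_sup.1 (k x hx)
          exact ⟨z, h2, by simpa using h1⟩) d a ha
      rw [DistribSMul.toAddMonoidHom_apply, eq_sub_iff_add_eq] at e
      rw [← e, smul_add, smul_inv_smul, smul_comm]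
      exact add_mem h2 (t u h1)
    obtain ⟨u, hu, v, hv, e⟩ := sup (h • x)
    have e' : x = h⁻¹ • u + h⁻¹ • v := by rw [← smul_add, ← e, inv_smul_smul]
    refine ⟨v, hv, ?_, fun m => n (e' ▸ add_mem (AddSubgroup.mem_sup_left ⟨u, hu, rfl⟩) m)⟩
    rw [eq_sub_of_add_eq' e'.symm]
    exact sub_mem hx (s.cmp pp hc h c u hu)
  have k1 := s.cmp pp hc h c.1
  have k2 := s'.cmp pp hc h c.2
  obtain ⟨x, x1, x2, x3⟩ := gap s sup c.1
  obtain ⟨y, y1, y2, y3⟩ := gap s' (P' := P) (fun a => by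
    obtain ⟨x, h, y, k, e⟩ := sup a
    exact ⟨y, k, x, h, e.trans (add_comm _ _)⟩) c.2
  obtain ⟨z, hz, t⟩ := na (P ⊓ P') h⁻¹ fun a ha => ⟨k1 a ha.1, k2 a ha.2⟩
  obtain ⟨b, b1, c, c1, i, e1⟩ := t _ ⟨x2, k2 x x1⟩
  obtain ⟨b', b2, c', c2, j, e2⟩ := t _ ⟨k1 y y1, y2⟩
  have m : ∀ {P : AddSubgroup M} {b c : M}, b ∈ P → c ∈ P → h⁻¹ • b + p • c ∈ S P := fun h k =>
    AddSubgroup.add_mem_sup ⟨_, h, rfl⟩ ⟨_, k, rfl⟩
  by_cases d : (p : ℤ) ∣ i
  · obtain ⟨i, rfl⟩ := d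
    refine x3 ?_
    rw [e1, mul_smul, natCast_zsmul, add_assoc, ← smul_add]
    exact m b1.1 (P.add_mem c1.1 (P.zsmul_mem hz.1 _))
  · have h1 : i • z ∈ S P' := by
      rw [← sub_eq_of_eq_add' e1]
      exact sub_mem (AddSubgroup.mem_sup_left ⟨x, x1, rfl⟩) (m b1.2 c1.2)
    have h2 : z ∈ S P' := cop (pp.coprime_iff_not_dvd.2 fun t => d (Int.natCast_dvd.2 t))
      (AddSubgroup.mem_sup_right ⟨z, hz.2, rfl⟩) (by
        rw [← natCast_zsmul, ← Int.sign_mul_self_eq_natAbs, mul_smul]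
        exact zsmul_mem h1 _)
    exact y3 (e2 ▸ add_mem (m b2.2 c2.2) (zsmul_mem h2 _))

end Pool.Agent.MP_6d5e8e_al.Bd
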