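import Pool.Agent.MP_6d5e8e_al.H27.C7

/-! The two sides of the normal subgroup. -/

set_option autoImplicit false

namespace Pool.Agent.MP_6d5e8e_al.Bd

open Polynomial

variable {G M E : Type} [Group G] [AddCommGroup M] [DistribMulAction G M] {p : ℕ}
  [CommRing E] [Module E M]

theorem prim_one (pp : p.Prime) (na : Cyc G M p) (γ : G →* Eˣ)
    (hγ : ∀ g (a : M), (γ g : E) • a = g • a) (q : G) (b : M) :
    ∃ F : ℤ[X], F.map (Int.castRingHom (ZMod p)) ≠ 0 ∧ aeval (γ q : E) F • b = 0 := by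
  have : Fact p.Prime := ⟨pp⟩
  let θ : ℤ[X] →+ M := (LinearMap.toSpanSingleton E M b).toAddMonoidHom.comp
    (aeval (γ q : E)).toRingHom.toAddMonoidHom
  have hθ : ∀ f, θ f = aeval (γ q : E) f • b := fun _ => rfl
  have sq : ∀ f, q ^ 2 • θ f = θ (X ^ 2 * f) := fun f => by
    simp [hθ, ← hγ, mul_smul]
  obtain ⟨_, ⟨h, rfl⟩, hz⟩ := na θ.range (q ^ 2) (by rintro _ ⟨f, rfl⟩; exact ⟨_, (sq f).symm⟩)
  obtain ⟨_, ⟨f, rfl⟩, _, ⟨c, rfl⟩, i, e1⟩ := hz _ ⟨1, rfl⟩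
  obtain ⟨_, ⟨f', rfl⟩, _, ⟨c', rfl⟩, j, e2⟩ := hz _ ⟨X, rfl⟩
  rw [sq, ← map_nsmul, ← map_zsmul, ← map_add, ← map_add, ← sub_eq_zero, ← map_sub] at e1 e2
  by_cases d : (i : ZMod p) = 0
  · refine ⟨_, fun k => ?_, e1⟩
    have := congrArg (coeff · 0) k
    simp [d, coeff_X_pow_mul'] at this
  · refine ⟨j • (1 - (X ^ 2 * f + p • c + i • h)) - i • (X - (X ^ 2 * f' + p • c' + j • h)),
      fun k => ?_, by rw [← hθ, map_sub, map_zsmul, map_zsmul, e1, e2]; simp⟩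
    have := congrArg (coeff · 1) k
    simp [coeff_X_pow_mul', coeff_one, mul_left_comm] at this
    exact d (by linear_combination -this)

theorem package (pp : p.Prime) (hc : ∀ (g h : G) (a : M), g • h • a = h • g • a) (na : Cyc G M p)
    [Group.FG G] (L₀ : Finset M)
    (hL : AddSubgroup.closure {x | ∃ g : G, ∃ l ∈ L₀, x = g • l} = ⊤) :
    ∃ B P P' : AddSubgroup M, B.FG ∧ (∀ a, ∃ n : ℕ, 0 < n ∧ n • a ∈ B) ∧ Side G p B P ∧
      Side G p B P' ∧ (∀ a, ∃ x ∈ P, ∃ y ∈ P', a = x + y) ∧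
      (∀ z ∈ P, z ∈ P' → ∃ m, ¬p ∣ m ∧ m • z ∈ B) ∧
      ∀ h : G, (∀ a ∈ P, h • a ∈ P) ∨ ∀ a ∈ P', h • a ∈ P' := by
  classical
  have : Fact p.Prime := ⟨pp⟩
  obtain ⟨E, _, j, inj, hj⟩ := exists_comm (Set.range (DistribMulAction.toModuleEnd ℤ M (S := G)))
    (by rintro _ ⟨g, rfl⟩ _ ⟨h, rfl⟩; exact LinearMap.ext (hc g h))
  choose γ₀ h0 using fun g => hj _ ⟨g, rfl⟩
  let γ : G →* Eˣ := MonoidHom.toHomUnits
    { toFun := γ₀
      map_one' := inj (by rw [h0, map_one, map_one])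
      map_mul' := fun a b => inj (by rw [map_mul, h0, h0, h0, map_mul]) }
  let : Module E M := Module.compHom M j
  have hγ : ∀ g (a : M), (γ g : E) • a = g • a := fun g a => DFunLike.congr_fun (h0 g) a
  have top : ∀ U : AddSubgroup M, (∀ g : G, ∀ l ∈ L₀, g • l ∈ U) → ∀ a, a ∈ U := fun U h a =>
    (AddSubgroup.closure_le U).2 (by rintro _ ⟨g, l, k, rfl⟩; exact h g l k)
      (hL ▸ AddSubgroup.mem_top a)
  have prim : ∀ q : G, ∃ F : ℤ[X], (∃ i, ¬(p : ℤ) ∣ F.coeff i) ∧ aeval (γ q : E) F = 0 := fun q => by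
    choose F h1 h2 using prim_one pp na γ hγ q
    refine ⟨∏ l ∈ L₀, F l, ?_, inj ?_⟩
    · by_contra k
      push Not at k
      refine Finset.prod_ne_zero_iff.2 (fun l _ => h1 l) ((Polynomial.map_prod _ _ L₀).symm.trans ?_)
      ext i
      simpa [ZMod.intCast_zmod_eq_zero_iff_dvd] using k i
    · rw [map_zero]
      refine LinearMap.ext (top (j _).toAddMonoidHom.ker fun g l hl => ?_)
      obtain ⟨c, hc⟩ := Finset.dvd_prod_of_mem F hl
      show aeval (γ q : E) _ • g • l = 0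
      rw [← hγ, smul_comm, hc, mul_comm, map_mul, mul_smul, h2, smul_zero, smul_zero]
  obtain ⟨S, hS⟩ := Monoid.fg_def.1 (Group.fg_iff_monoid_fg.1 ‹Group.FG G›)
  obtain ⟨_, ⟨τ, rfl⟩, ht⟩ := g1 pp γ.range (by rintro _ ⟨q, rfl⟩; exact prim q) (S.image γ)
    (by simp)
  choose! u hu hi using fun q (h : q ∈ S) => ht _ (Finset.mem_image_of_mem γ h)
  generalize hE : Subring.closure {(γ τ : E), (((γ τ)⁻¹ : Eˣ) : E)} = E₀ at hi
  obtain ⟨Y, hY⟩ := fg_adjoin_of_finite (R := E₀) (S.finite_toSet.image fun q => (u q : E) * γ q)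
    (by rintro _ ⟨q, h, rfl⟩; exact hi q h)
  let L := Finset.image₂ (fun (y : E) (l : M) => y • l) Y L₀
  have st : ∀ e ∈ E₀, ∀ x ∈ Fw τ L ⊔ Fw τ⁻¹ L, e • x ∈ Fw τ L ⊔ Fw τ⁻¹ L := fun e he => by
    have key : ∀ τ : G, ∀ x ∈ Fw τ L ⊔ Fw τ⁻¹ L, τ • x ∈ Fw τ L ⊔ Fw τ⁻¹ L := fun τ x hx => by
      obtain ⟨a, ha, b, hb, rfl⟩ := AddSubgroup.mem_sup.1 hx
      rw [smul_add]
      refine add_mem (AddSubgroup.mem_sup_left (Fw.smul τ L a ha))
        (clos_map (DistribSMul.toAddMonoidHom M τ) ?_ b hb)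
      rintro _ ⟨_ | i, l, h, rfl⟩
      · exact AddSubgroup.mem_sup_left (by simpa using Fw.mem τ 1 h)
      · exact AddSubgroup.mem_sup_right (by
          rw [DistribSMul.toAddMonoidHom_apply, pow_succ', mul_smul, smul_inv_smul]
          exact Fw.mem τ⁻¹ i h)
    rw [← hE] at he
    induction he using Subring.closure_induction with
    | mem x hx =>
      rcases hx with rfl | rfl
      · simpa only [hγ] using key τ
      · simpa only [← map_inv, hγ, inv_inv, sup_comm] using key τ⁻¹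
    | zero => simp
    | one => simp
    | add x y _ _ a b => exact fun z h => add_smul x y z ▸ add_mem (a z h) (b z h)
    | neg x _ a => exact fun z h => neg_smul x z ▸ neg_mem (a z h)
    | mul x y _ _ a b => exact fun z h => mul_smul x y z ▸ a _ (b z h)
  have h1 : hull pp (Fw τ L ⊔ Fw τ⁻¹ L) = ⊤ := eq_top_iff.2 fun a _ => top _ (fun g l hl => by
    obtain ⟨m, h1, h2⟩ : ∃ m : ℤ, ¬(p : ℤ) ∣ m ∧ (m : E) * γ g ∈
        Algebra.adjoin E₀ ((fun q => (u q : E) * γ q) '' S) := by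
      have : g ∈ Submonoid.closure (S : Set G) := hS ▸ Submonoid.mem_top g
      induction this using Submonoid.closure_induction with
      | mem x hx => exact ⟨u x, hu x hx, Algebra.subset_adjoin ⟨x, hx, rfl⟩⟩
      | one => exact ⟨1, (Nat.prime_iff_prime_int.1 pp).not_dvd_one, by simp⟩
      | mul x y _ _ a b =>
        obtain ⟨m, a, a'⟩ := a
        obtain ⟨n, b, b'⟩ := b
        refine ⟨m * n, fun d => ((Nat.prime_iff_prime_int.1 pp).dvd_or_dvd d).elim a b, ?_⟩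
        convert mul_mem a' b' using 1
        rw [map_mul, Units.val_mul, Int.cast_mul, mul_mul_mul_comm]
    have h3 : ∀ e ∈ Submodule.span E₀ (Y : Set E), e • l ∈ Fw τ L ⊔ Fw τ⁻¹ L := fun e he => by
      induction he using Submodule.span_induction with
      | mem x hx => exact AddSubgroup.mem_sup_left (by
          simpa using Fw.mem τ 0 (Finset.mem_image₂_of_mem hx hl))
      | zero => simp
      | add x y _ _ a b => exact add_smul x y l ▸ add_mem a b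
      | smul c x _ a => exact mul_smul (c : E) x l ▸ st c c.2 _ a
    have := h3 _ (hY.ge h2)
    rw [mul_smul, hγ, Int.cast_smul_eq_zsmul] at this
    refine ⟨m.natAbs, fun t => h1 (Int.natCast_dvd.2 t), ?_⟩
    rw [← natCast_zsmul, ← Int.sign_mul_self_eq_natAbs, mul_smul]
    exact zsmul_mem this _) a
  have h2 : ∀ τ : G, ∃ n : ℕ, 0 < n ∧ ∀ a ∈ Fw τ L, n • τ⁻¹ • a ∈ Fw τ L := fun τ => by
    obtain ⟨F, ⟨i, f1⟩, f2⟩ := prim τ
    obtain ⟨H, e, d⟩ := exists_eq_pow_rootMultiplicity_mul_and_not_dvd F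
      (fun z => f1 (by simp [z])) 0
    rw [map_zero, sub_zero] at e d
    rw [e, map_mul, map_pow, aeval_X, ((γ τ).isUnit.pow _).mul_right_eq_zero,
      ← X_mul_divX_add H, map_add, map_mul, aeval_X, aeval_C] at f2
    refine ⟨(H.coeff 0).natAbs, Int.natAbs_pos.2 fun z => d (X_dvd_iff.2 z), fun a ha => ?_⟩
    rw [← natCast_zsmul, ← Int.sign_mul_self_eq_natAbs, mul_smul]
    refine zsmul_mem ?_ _
    rw [← Int.cast_smul_eq_zsmul E, ← eq_intCast (algebraMap ℤ E), eq_neg_of_add_eq_zero_right f2,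
      neg_smul, mul_comm, mul_smul, hγ, smul_inv_smul, aeval_eq_sum_range, Finset.sum_smul]
    refine neg_mem (sum_mem fun i _ => ?_)
    rw [smul_assoc, ← Units.val_pow_eq_pow_val, ← map_pow, hγ]
    exact zsmul_mem (smul_pow_mem (Fw.smul τ L) _ _ ha) _
  obtain ⟨n, n0, hn⟩ := h2 τ
  obtain ⟨n', n0', hn'⟩ := h2 τ⁻¹
  obtain ⟨t1, s1⟩ := side pp hc na τ L h1 n0 hn (B := Fw τ L ⊓ Fw τ⁻¹ L) inf_le_left
  obtain ⟨t2, s2⟩ := side pp hc na τ⁻¹ L (by rwa [inv_inv, sup_comm]) n0' hn'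
    (B := Fw τ L ⊓ Fw τ⁻¹ L) inf_le_right
  have sup : ∀ a, ∃ x ∈ hull pp (Fw τ L), ∃ y ∈ hull pp (Fw τ⁻¹ L), a = x + y := fun a => by
    obtain ⟨m, h, k⟩ : a ∈ hull pp _ := h1 ▸ AddSubgroup.mem_top a
    obtain ⟨c, t⟩ := s1.tor a
    obtain ⟨x, hx, y, hy, e⟩ := AddSubgroup.mem_sup.1 (cop
      ((pp.coprime_iff_not_dvd.2 h).pow_left c) (AddSubgroup.mem_sup_left t)
      (sup_le_sup (le_hull pp _) (le_hull pp _) k))
    exact ⟨x, hx, y, hy, e.symm⟩
  refine ⟨_, _, _, fw_fg τ L, fun a => ?_, s1, s2, sup, fun z ⟨m, a, b⟩ ⟨n, c, d⟩ =>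
    ⟨m * n, fun t => (pp.dvd_mul.1 t).elim a c, ?_⟩, anti pp hc na s1 s2 sup⟩
  · obtain ⟨m, e, b⟩ := t1 a
    obtain ⟨n, c, d⟩ := t2 a
    exact ⟨m * n, mul_pos e c, by rw [mul_comm, mul_smul]; exact nsmul_mem b _,
      by rw [mul_smul]; exact nsmul_mem d _⟩
  · exact ⟨by rw [mul_comm, mul_smul]; exact nsmul_mem b _, by rw [mul_smul]; exact nsmul_mem d _⟩

end Pool.Agent.MP_6d5e8e_al.Bd
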