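import Pool.Agent.MP_6d5e8e_al.H27.C3
import Pool.Agent.MP_6d5e8e_al.H27.C8

/-! The case analysis in positive characteristic. -/

set_option autoImplicit false

namespace Pool.Agent.MP_6d5e8e_al.Bd

variable {G M V C : Type*} [Group G] [AddCommGroup M] [DistribMulAction G M] [AddCommGroup V]
  [CommRing C] [Module C V] {p : ℕ} {B P P' : AddSubgroup M} {o : AddChar M C} {q : Ideal C}

/-- Every finitely generated subgroup over `B` has a vector with prime annihilator that is not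
thin. -/
def Thick (V : Type*) [AddCommGroup V] [Module C V] (o : AddChar M C) (q : Ideal C)
    (B : AddSubgroup M) : Prop :=
  ∀ B' : AddSubgroup M, B'.FG → B ≤ B' → ∃ u : V, u ≠ 0 ∧ (∀ c ∈ Sr o B', c • u = 0 ↔ c ∈ q) ∧
    ¬∀ Q : Ideal C, Q.IsPrime → (∀ c ∈ Sr o B', c ∈ Q ↔ c ∈ q) → Uni Q u

theorem sr_noeth (o : AddChar M C) (hB : B.FG) : IsNoetherianRing (Sr o B) := by
  obtain ⟨S, hS⟩ := (AddSubgroup.fg_iff_addSubmonoid_fg B).1 hB
  have : Sr o B = Subring.closure (o '' S) := le_antisymm (Sr.le o fun a ha => by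
    have : a ∈ AddSubmonoid.closure (S : Set M) := hS ▸ ha
    induction this using AddSubmonoid.closure_induction with
    | mem x hx => exact Subring.subset_closure ⟨x, hx, rfl⟩
    | zero => simp
    | add x y h k a b =>
      rw [o.map_add_eq_mul]
      exact mul_mem (a (hS.le h)) (b (hS.le k)))
    (Subring.closure_mono (Set.image_mono fun x hx => hS.le (AddSubmonoid.subset_closure hx)))
  rw [this]
  exact is_noetherian_subring_closure _ (S.finite_toSet.image _)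

theorem sr_int (ho : Sr o ⊤ = ⊤) (ht : ∀ a, ∃ n : ℕ, 0 < n ∧ n • a ∈ B) :
    Algebra.IsIntegral (Sr o B) C := ⟨fun c => by
  have : c ∈ Sr o ⊤ := ho ▸ Subring.mem_top c
  induction this using Subring.closure_induction with
  | mem x hx =>
    obtain ⟨a, -, rfl⟩ := hx
    obtain ⟨n, n0, h⟩ := ht a
    refine IsIntegral.of_pow n0 ?_
    rw [← o.map_nsmul_eq_pow]
    exact isIntegral_algebraMap (x := (⟨_, Sr.mem o h⟩ : Sr o B))
  | zero => exact isIntegral_zero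
  | one => exact isIntegral_one
  | add x y _ _ a b => exact a.add b
  | neg x _ a => exact a.neg
  | mul x y _ _ a b => exact a.mul b⟩

theorem loc_base {Q : Ideal C} (hQ : Q.IsPrime) {D : Subring C} {u : V}
    (hu : ∀ c ∈ D, c • u = 0 ↔ c ∈ q) (h : ∀ c ∈ D, c ∈ Q ↔ c ∈ q) : Loc Q u D := fun c a b =>
  ⟨1, hQ.one_notMem, by rw [one_mul]; exact (hu c a).2 ((h c a).1 b)⟩

theorem char_zero (ho : Sr o ⊤ = ⊤) (th : Thick V o q B) (hB : B.FG)
    (ht : ∀ a, ∃ n : ℕ, 0 < n ∧ n • a ∈ B) (hV : ∀ (n : ℕ) (w : V), 0 < n → n • w = 0 → w = 0) :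
    False := by
  obtain ⟨u, u0, hu, hn⟩ := th B hB le_rfl
  refine hn fun Q hQ h => uni_of hQ o ho (H := ⊤) (H' := ⊤)
    (loc_unram hQ o (loc_base hQ hu h) fun a _ => (ht a).imp fun n ⟨n0, t⟩ => ⟨fun m => ?_, t⟩)
    (fun x _ y _ => ⟨0, Or.inl trivial⟩) fun a => ⟨a, trivial, rfl⟩
  exact u0 (hV n u n0 (by
    rw [← Nat.cast_smul_eq_nsmul C]
    exact (hu _ (natCast_mem _ _)).2 ((h _ (natCast_mem _ _)).1 m)))

theorem nat_notMem (pp : p.Prime) {Q : Ideal C} (hQ : Q.IsPrime) (h : (p : C) ∈ Q) {m : ℕ}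
    (hm : ¬p ∣ m) : (m : C) ∉ Q := fun k => hQ.one_notMem
  (cop (P := Q.toAddSubgroup) (pp.coprime_iff_not_dvd.2 hm) (by simpa using h) (by simpa using k))

/-- The part of `P` that is `p`-torsion modulo `B`. -/
def Bx (p : ℕ) (B P : AddSubgroup M) : AddSubgroup M where
  carrier := {a | a ∈ P ∧ ∃ k : ℕ, p ^ k • a ∈ B}
  zero_mem' := ⟨zero_mem _, 0, by simp⟩
  add_mem' := fun ⟨a, i, h⟩ ⟨b, j, k⟩ => ⟨add_mem a b, i + j, by
    rw [smul_add]; exact add_mem (pow_up h (by omega)) (pow_up k (by omega))⟩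
  neg_mem' := fun ⟨a, i, h⟩ => ⟨neg_mem a, i, by simpa using h⟩

theorem bx_uni (pp : p.Prime) (s : Side G p B P) (hi : ∀ z ∈ P, z ∈ P' → ∃ m, ¬p ∣ m ∧ m • z ∈ B) :
    ∀ x ∈ Bx p B P', ∀ y ∈ Bx p B P', ∃ j : ℕ, x - j • y ∈ B ∨ y - j • x ∈ B := by
  have : ∀ z ∈ Bx p B P', z ∈ P → z ∈ B := fun z ⟨a, k, b⟩ c => by
    obtain ⟨m, h1, h2⟩ := hi z c a
    exact cop ((pp.coprime_iff_not_dvd.2 h1).pow_left k) b h2
  exact fun x hx y hy => (s.uni x y).imp fun j => Or.imp (this _ (sub_mem hx (nsmul_mem hy _)))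
    (this _ (sub_mem hy (nsmul_mem hx _)))

theorem bx_hull (pp : p.Prime) (ht : ∀ a, ∃ n : ℕ, 0 < n ∧ n • a ∈ B) :
    ∀ a ∈ P, ∃ m : ℕ, ¬p ∣ m ∧ m • a ∈ Bx p B P := fun a ha => by
  obtain ⟨n, n0, h⟩ := ht a
  obtain ⟨k, m, hm, rfl⟩ := Nat.exists_eq_pow_mul_and_not_dvd n0.ne' p pp.ne_one
  exact ⟨m, hm, nsmul_mem ha _, k, by rwa [smul_smul]⟩

theorem bx_sup (pp : p.Prime) (ht : ∀ a, ∃ n : ℕ, 0 < n ∧ n • a ∈ B) (s : Side G p B P)
    (sup : ∀ a, ∃ x ∈ P, ∃ y ∈ P', a = x + y) (a : M) : a ∈ Bx p B P' ⊔ P := by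
  obtain ⟨x, hx, y, hy, rfl⟩ := sup a
  obtain ⟨m, h1, h2⟩ := bx_hull pp ht y hy
  obtain ⟨k, h3⟩ := s.tor y
  exact add_mem (AddSubgroup.mem_sup_right hx) (cop ((pp.coprime_iff_not_dvd.2 h1).pow_left k)
    (AddSubgroup.mem_sup_right h3) (AddSubgroup.mem_sup_left h2))

theorem fg_sup (hB : B.FG) (a : M) : (B ⊔ AddSubgroup.zmultiples a).FG :=
  hB.sup ((AddSubgroup.fg_iff _).2
    ⟨{a}, (AddSubgroup.zmultiples_eq_closure a).symm, Set.finite_singleton a⟩)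

theorem good (pp : p.Prime) (hq : q.IsPrime) (hc : (p : C) ∈ q) (ho : Sr o ⊤ = ⊤)
    (th : Thick V o q B) (hB : B.FG) (ht : ∀ a, ∃ n : ℕ, 0 < n ∧ n • a ∈ B) (s : Side G p B P)
    (s' : Side G p B P') (hi : ∀ z ∈ P, z ∈ P' → ∃ m, ¬p ∣ m ∧ m • z ∈ B) :
    Bx p B P' ≤ Fg hq o (Sr o B) := fun a ha => by
  by_contra n
  have l : B ≤ Fg hq o (Sr o B) := fun b h => le_Fr hq _ (Sr.mem o h)
  have l' : B ≤ Bx p B P' ⊓ Fg hq o (Sr o B) := le_inf (fun b h => ⟨s'.le h, 0, by simpa⟩) l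
  obtain ⟨u, -, hu, hn⟩ := th (Bx p B P' ⊓ Fg hq o (Sr o B)) (fg_le (fg_sup hB a) fun z hz => by
    obtain ⟨j, t | t⟩ := bx_uni pp s hi z hz.1 a ha
    · simpa using AddSubgroup.add_mem_sup t (AddSubgroup.nsmul_mem_zmultiples a j)
    · exact absurd (by simpa using add_mem (l t) (nsmul_mem hz.2 j)) n) l'
  refine hn fun Q hQ h => ?_
  have pQ : (p : C) ∈ Q := (h _ (natCast_mem _ _)).2 hc
  refine uni_of hQ o ho (H := P') (H' := ⊤) (loc_unram hQ o (loc_insep hQ o pp pQ (H := Bx p B P')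
    (loc_base hQ hu h) (fun x a y b => (bx_uni pp s hi x a y b).imp fun _ => Or.imp (@l' _) (@l' _))
    (fun z a => a.2.imp fun _ => @l' _) fun z a r hr t ht' m1 m2 => ⟨a, ?_⟩)
    fun a ha => (bx_hull pp ht a ha).imp fun m t => ⟨nat_notMem pp hQ pQ t.1, t.2⟩)
    (fun x _ y _ => s'.uni x y) fun a => ⟨a, trivial, rfl⟩
  obtain ⟨k, hk⟩ := a.2
  have le : Sr o (Bx p B P' ⊓ Fg hq o (Sr o B)) ≤ Fr hq (Sr o B) := Sr.le o fun _ h => h.2
  refine Fr.div hq (le hr) (le ht') (fun m => m1 ((h _ ht').2 m)) (frob hq pp hc h (k := k) ?_ hr m2)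
  rw [mul_pow, ← o.map_nsmul_eq_pow]
  exact mul_mem (pow_mem ht' _) (Sr.mem o (l' hk))

theorem thin (pp : p.Prime) (hc : (p : C) ∈ q) (ho : Sr o ⊤ = ⊤) (th : Thick V o q B)
    (s' : Side G p B P') (hi : ∀ z ∈ P, z ∈ P' → ∃ m, ¬p ∣ m ∧ m • z ∈ B) {B' : AddSubgroup M}
    (hB : B'.FG) (l : B ≤ B') (ha : ∀ (w : V) a, ∃ b ∈ B' ⊔ P, o a • w = o b • w) : False := by
  obtain ⟨u, -, hu, hn⟩ := th B' hB l
  refine hn fun Q hQ h => uni_of hQ o ho (H := hull pp B') (loc_unram hQ o (loc_base hQ hu h)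
    fun a ha => ha.imp fun m t => ⟨nat_notMem pp hQ ((h _ (natCast_mem _ _)).2 hc) t.1, t.2⟩)
    (fun x hx y hy => ?_) (ha u)
  obtain ⟨b, hb, x', hx', rfl⟩ := AddSubgroup.mem_sup.1 hx
  obtain ⟨c, hc, y', hy', rfl⟩ := AddSubgroup.mem_sup.1 hy
  have key : ∀ {b c x y : M} {j : ℕ}, b ∈ B' → c ∈ B' → x ∈ P → y ∈ P → x - j • y ∈ P' →
      b + x - j • (c + y) ∈ hull pp B' := fun {b c x y j} hb hc hx hy t => by
    obtain ⟨m, h1, h2⟩ := hi _ (sub_mem hx (nsmul_mem hy _)) t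
    have : x - j • y ∈ hull pp B' := ⟨m, h1, l h2⟩
    convert add_mem this (le_hull pp _ (sub_mem hb (nsmul_mem hc j))) using 1
    module
  exact (s'.uni x' y').imp fun j => Or.imp (key hb hc hx' hy') (key hc hb hy' hx')

variable {ρ : G →* Module.End ℤ V} {ω : AddChar M (Module.End ℤ V)}

theorem one_side (E : Env ρ ω p (Core p M) B) (hω : ∀ a w, ω a w = o a • w) (hc : (p : C) ∈ q)
    (ho : Sr o ⊤ = ⊤) (th : Thick V o q B) (hB : B.FG) (ht : ∀ a, ∃ n : ℕ, 0 < n ∧ n • a ∈ B)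
    (s : Side G p B P) (s' : Side G p B P') (sup : ∀ a, ∃ x ∈ P, ∃ y ∈ P', a = x + y)
    (hi : ∀ z ∈ P, z ∈ P' → ∃ m, ¬p ∣ m ∧ m • z ∈ B)
    (tr : ∀ φ ∈ Lim ω p (Core p M) P', ∀ w, φ w = w) : False := by
  have pp := E.pp
  by_cases c : ∀ a ∈ Bx p B P', ∃ a' ∈ Bx p B P', a - p • a' ∈ B
  · obtain ⟨k, hk⟩ := core_bound pp hB ht
    have l : B ≤ Bx p B P' := fun b h => ⟨s'.le h, 0, by simpa⟩
    have dec : ∀ a ∈ Bx p B P', ∃ x ∈ Core p M ⊓ Bx p B P', a - x ∈ B := fun a ha => by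
      obtain ⟨a', h1, h2⟩ := iter c k a ha
      obtain ⟨b, h3, h4⟩ := hk a' h1.2
      refine ⟨_, ⟨h4, (Bx p B P').sub_mem (nsmul_mem h1 _) (l h3)⟩, ?_⟩
      convert add_mem h2 h3 using 1
      abel
    refine thin pp hc ho th s' hi hB le_rfl fun w a => ?_
    obtain ⟨y, hy, x, hx, rfl⟩ := AddSubgroup.mem_sup.1 (bx_sup pp ht s sup a)
    obtain ⟨z, hz, h1⟩ := dec y hy
    obtain ⟨j, hj⟩ := hz.2.2
    obtain ⟨b, hb, e⟩ := tate E (W := Core p M ⊓ Bx p B P') inf_le_left (fun _ h => h.2.1)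
      (fun a ha => by
        obtain ⟨a', h1, h2⟩ := c a ha.2
        obtain ⟨x, h3, h4⟩ := dec a' h1
        exact ⟨x, h3, by convert add_mem h2 (nsmul_mem h4 p) using 1; module⟩) tr hz hj w
    refine ⟨y - z + b + x, AddSubgroup.add_mem_sup (add_mem h1 hb) hx, ?_⟩
    rw [← hω, ← hω, show y + x = y - z + x + z by abel, add_right_comm _ b, om ω _ z, om ω _ b, e]
  · push Not at c
    obtain ⟨a, ha, c⟩ := c
    refine thin pp hc ho th s' hi (fg_sup hB a) le_sup_left fun w x =>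
      ⟨x, sup_le_sup_right (fun z hz => ?_) P (bx_sup pp ht s sup x), rfl⟩
    obtain ⟨j, t | t⟩ := bx_uni pp s hi z hz a ha
    · simpa using AddSubgroup.add_mem_sup t (AddSubgroup.nsmul_mem_zmultiples a j)
    · obtain ⟨k, hk⟩ := hz.2
      refine cop ((pp.coprime_iff_not_dvd.2 ?_).pow_left k) (AddSubgroup.mem_sup_left hk) (n := j) ?_
      · rintro ⟨i, rfl⟩
        exact c _ (nsmul_mem hz i) (by rwa [smul_smul])
      · simpa using AddSubgroup.add_mem_sup (neg_mem t) (AddSubgroup.mem_zmultiples a)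

theorem char_p {G M : Type} [Group G] [AddCommGroup M] [DistribMulAction G M] [Group.FG G]
    {o : AddChar M C} {ρ : G →* Module.End ℤ V} {ω : AddChar M (Module.End ℤ V)} (pp : p.Prime)
    (cj : ∀ g a, ρ g * ω a = ω (g • a) * ρ g) (hω : ∀ a w, ω a w = o a • w)
    (hω' : ∀ a, ∃ g, ω a = ρ g) (ho : Sr o ⊤ = ⊤) (hq : q.IsPrime)
    (th : ∀ B : AddSubgroup M, (∀ a, ∃ n : ℕ, 0 < n ∧ n • a ∈ B) → Thick V o q B)
    (hc : ∀ (g h : G) (a : M), g • h • a = h • g • a) (na : Cyc G M p) (L₀ : Finset M)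
    (hL : AddSubgroup.closure {x | ∃ g : G, ∃ l ∈ L₀, x = g • l} = ⊤) (hp : ∀ w : V, p • w = 0)
    {v : V} (hv : AddSubgroup.closure (Set.range fun g => ρ g v) = ⊤)
    (hs : ∀ U : AddSubgroup V, (∀ g, ∀ x ∈ U, ρ g x ∈ U) → (∀ f : Module.End ℤ V,
      (∀ g w, f (ρ g w) = ρ g (f w)) → ∀ x ∈ U, f x ∈ U) → U = ⊥ ∨ U = ⊤) : False := by
  obtain ⟨B, P, P', hB, ht, s, s', sup, hi, an⟩ := package pp hc na L₀ hL
  replace th := th B ht
  have hi' : ∀ z ∈ P', z ∈ P → ∃ m, ¬p ∣ m ∧ m • z ∈ B := fun z a b => hi z b a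
  obtain ⟨u, u0, hu, -⟩ := th B hB le_rfl
  have pq : (p : C) ∈ q := (hu _ (natCast_mem _ _)).1 (by rw [Nat.cast_smul_eq_nsmul, hp])
  have g1 := good pp hq pq ho th hB ht s s' hi
  have g2 := good pp hq pq ho th hB ht s' s hi'
  have fo := @fin_order M _ p C _ q hq o pp pq B hB fun a => by
    obtain ⟨x, hx, y, hy, rfl⟩ := sup a
    exact (hull pp _).add_mem ((bx_hull pp ht x hx).imp fun m t => ⟨t.1, g2 t.2⟩)
      ((bx_hull pp ht y hy).imp fun m t => ⟨t.1, g1 t.2⟩)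
  have inv : ∀ g : G, ∀ a ∈ Core p M, g • a ∈ Core p M := fun g a =>
    core_map (DistribSMul.toAddMonoidHom M g)
  let U : AddSubgroup V :=
    { carrier := {w | ∀ a ∈ Core p M, ∃ n : ℕ, 0 < n ∧ n • a ∈ St ω w}
      zero_mem' := fun a _ => ⟨1, one_pos, map_zero _⟩
      add_mem' := fun {x y} h k a ha => by
        obtain ⟨m, m0, h⟩ := h a ha
        obtain ⟨n, n0, k⟩ := k a ha
        have h' : (m * n) • a ∈ St ω x := by rw [mul_comm, mul_smul]; exact nsmul_mem h _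
        have k' : (m * n) • a ∈ St ω y := by rw [mul_smul]; exact nsmul_mem k _
        exact ⟨m * n, mul_pos m0 n0, (map_add _ _ _).trans (congrArg₂ _ h' k')⟩
      neg_mem' := fun h a ha => (h a ha).imp fun n t =>
        ⟨t.1, (map_neg _ _).trans (congrArg _ t.2)⟩ }
  have top : U = ⊤ := by
    refine (hs U (fun g x hx a ha => (hx _ (inv g⁻¹ a ha)).imp fun n t => ⟨t.1, ?_⟩)
      fun f hf x hx a ha => (hx a ha).imp fun n t => ⟨t.1, ?_⟩).resolve_left fun h => u0 ?_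
    · have := DFunLike.congr_fun (cj g (n • g⁻¹ • a)) x
      rw [Module.End.mul_apply, show ω _ x = x from t.2, smul_comm g, smul_inv_smul] at this
      exact this.symm
    · obtain ⟨g, e⟩ := hω' (n • a)
      have := t.2
      change ω _ _ = _ at this ⊢
      rw [e] at this ⊢
      rw [← hf, this]
    · refine AddSubgroup.mem_bot.1 (h ▸ fun a ha => ?_)
      obtain ⟨m, m0, t⟩ := ht a
      obtain ⟨n, n0, e⟩ := fo t (nsmul_mem ha _)
      have := (hu _ (sub_mem (Sr.mem o (nsmul_mem t n)) (one_mem _))).2 e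
      rw [sub_smul, one_smul, sub_eq_zero, ← hω, smul_smul] at this
      exact ⟨_, mul_pos n0 m0, this⟩
  have E : Env ρ ω p (Core p M) B := ⟨pp, cj, inv, fun w => by
    obtain ⟨S, hS⟩ := fg_le hB (inf_le_right (a := Core p M))
    choose! n n0 hn using (top ▸ AddSubgroup.mem_top w : w ∈ U)
    have m : ∀ a ∈ S, a ∈ Core p M := fun a h => (hS.le (AddSubgroup.subset_closure h)).1
    refine ⟨∏ a ∈ S, n a, Finset.prod_pos fun a h => n0 a (m a h), fun b h1 h2 =>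
      clos_map (DistribSMul.toAddMonoidHom M (∏ a ∈ S, n a)) (fun a h => ?_) b (hS.ge ⟨h1, h2⟩)⟩
    obtain ⟨c, e⟩ := Finset.dvd_prod_of_mem n h
    rw [DistribSMul.toAddMonoidHom_apply, e, mul_comm, mul_smul]
    exact nsmul_mem (hn a (m a h)) _⟩
  refine (sides E s s' hi an hp hv hs hω').elim (one_side E hω pq ho th hB ht s s' sup hi)
    (one_side E hω pq ho th hB ht s' s (fun a => ?_) hi')
  obtain ⟨x, h, y, k, e⟩ := sup a
  exact ⟨y, k, x, h, e.trans (add_comm _ _)⟩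

end Pool.Agent.MP_6d5e8e_al.Bd
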