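import Mathlib.RingTheory.Ideal.HasGoingUp
import Mathlib.RingTheory.Ideal.AssociatedPrime.Basic
import Mathlib.RingTheory.Localization.Integral
import Mathlib.RingTheory.KrullDimension.Basic
import Mathlib.RingTheory.Polynomial.Basic
import Mathlib.RingTheory.PrincipalIdealDomain
import Mathlib.Algebra.Polynomial.FieldDivision
import Mathlib.Data.ENat.Lattice

/-! Commutative algebra: a uniform bound for the number of locally independent elements of a cyclic
module over a ring that is integral and locally monogenic over a Noetherian ring. -/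

set_option autoImplicit false

namespace Pool.Agent.MP_6d5e8e_al.Bd

open Finset Polynomial

section Dep

variable {C V : Type*} [CommRing C] [AddCommGroup V] [Module C V] {p : Ideal C}
  {N N' : Submodule C V} {k : ℕ}

/-- More than `k` elements of `N` always satisfy a relation with a coefficient outside `p`. -/
def Dep (p : Ideal C) (N : Submodule C V) (k : ℕ) : Prop :=
  ∀ (ι : Type) (s : Finset ι) (u : ι → V), (∀ i ∈ s, u i ∈ N) → k < s.card →
    ∃ l : ι → C, (∃ i ∈ s, l i ∉ p) ∧ ∑ i ∈ s, l i • u i = 0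

theorem dep_bot (hp : p.IsPrime) : Dep p (⊥ : Submodule C V) 0 := fun _ s u hu hs => by
  obtain ⟨i, hi⟩ := card_pos.1 hs
  refine ⟨fun _ => 1, ⟨i, hi, fun h => hp.ne_top ((Ideal.eq_top_iff_one _).2 h)⟩, ?_⟩
  exact sum_eq_zero fun j hj => by rw [(Submodule.mem_bot C).1 (hu j hj), smul_zero]

theorem Dep.mono (h : Dep p N k) (hN : N' ≤ N) {k' : ℕ} (hk : k ≤ k') : Dep p N' k' :=
  fun ι s u hu hs => h ι s u (fun i hi => hN (hu i hi)) (hk.trans_lt hs)

theorem Dep.kill (hp : p.IsPrime) (h : Dep p N k) {a : C} (ha : a ∉ p)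
    (hN : ∀ x ∈ N', a • x ∈ N) : Dep p N' k := fun ι s u hu hs => by
  obtain ⟨l, ⟨i, hi, hl⟩, e⟩ := h ι s (fun i => a • u i) (fun i hi => hN _ (hu i hi)) hs
  refine ⟨fun i => l i * a, ⟨i, hi, fun m => (hp.mem_or_mem m).elim hl ha⟩, ?_⟩
  simpa only [mul_smul] using e

theorem exists_top {ι : Type*} (r : ι → ι → Prop) (s : Finset ι) (hs : s.Nonempty)
    (tot : ∀ i ∈ s, ∀ j ∈ s, r i j ∨ r j i) (tr : ∀ i j k, r i j → r j k → r i k) :
    ∃ j ∈ s, ∀ i ∈ s, r i j := by
  induction hs using Finset.Nonempty.cons_induction with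
  | singleton a =>
    exact ⟨a, by simp, fun i hi => by
      rw [mem_singleton.1 hi]; exact (tot a (by simp) a (by simp)).elim id id⟩
  | cons a s ha hs ih =>
    obtain ⟨j, hj, h⟩ := ih fun i hi j hj => tot i (by simp [hi]) j (by simp [hj])
    rcases tot a (by simp) j (by simp [hj]) with c | c
    · refine ⟨j, by simp [hj], fun i hi => ?_⟩
      rcases mem_cons.1 hi with rfl | hi
      · exact c
      · exact h i hi
    · refine ⟨a, by simp, fun i hi => ?_⟩
      rcases mem_cons.1 hi with rfl | hi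
      · exact (tot i (by simp) i (by simp)).elim id id
      · exact tr _ _ _ (h i hi) c

theorem Dep.step (hp : p.IsPrime) (h : Dep p N k)
    (hN : ∀ x ∈ N', ∀ y ∈ N', ∃ a b : C, ¬(a ∈ p ∧ b ∈ p) ∧ a • x - b • y ∈ N) :
    Dep p N' (k + 1) := fun ι s u hu hs => by
  classical
  obtain ⟨j, hj, hr⟩ := exists_top (fun i j => ∃ a b : C, a ∉ p ∧ a • u i - b • u j ∈ N) s
    (card_pos.1 (by omega)) (fun i hi j hj => by
      obtain ⟨a, b, c, m⟩ := hN _ (hu i hi) _ (hu j hj)
      by_cases d : a ∈ p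
      · exact Or.inr ⟨b, a, fun e => c ⟨d, e⟩, by simpa using N.neg_mem m⟩
      · exact Or.inl ⟨a, b, d, m⟩) (by
      rintro i j k ⟨a, b, c, m⟩ ⟨a', b', c', m'⟩
      refine ⟨a' * a, b * b', fun e => (hp.mem_or_mem e).elim c' c, ?_⟩
      have : (a' * a) • u i - (b * b') • u k =
          a' • (a • u i - b • u j) + b • (a' • u j - b' • u k) := by module
      rw [this]
      exact N.add_mem (N.smul_mem _ m) (N.smul_mem _ m'))
  choose! a b hab using hr
  obtain ⟨l, ⟨i, hi, hl⟩, e⟩ := h ι (s.erase j) (fun i => a i • u i - b i • u j)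
    (fun i hi => (hab i (mem_of_mem_erase hi)).2) (by rw [card_erase_of_mem hj]; omega)
  refine ⟨fun i => if i = j then -∑ i ∈ s.erase j, l i * b i else l i * a i,
    ⟨i, mem_of_mem_erase hi, ?_⟩, ?_⟩
  · simp only [if_neg (ne_of_mem_erase hi)]
    exact fun m => (hp.mem_or_mem m).elim hl (hab i (mem_of_mem_erase hi)).1
  · beta_reduce
    rw [← add_sum_erase s _ hj, if_pos rfl, ← e, neg_smul, sum_smul,
      ← sum_neg_distrib, ← sum_add_distrib]
    exact sum_congr rfl fun i hi => by rw [if_neg (ne_of_mem_erase hi)]; module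

end Dep

/-- Two polynomials over a domain have a relation whose coefficients generate a constant. -/
theorem bez_dom {R : Type*} [CommRing R] [IsDomain R] (P Q : R[X]) :
    ∃ (a b c d : R[X]) (e : R), e ≠ 0 ∧ a * P = b * Q ∧ c * a + d * b = C e := by
  classical
  let K := FractionRing R
  have inj : Function.Injective (Polynomial.map (algebraMap R K)) :=
    Polynomial.map_injective _ (IsFractionRing.injective R K)
  have cl : ∀ F : K[X], ∃ (b : R) (G : R[X]), b ≠ 0 ∧
      G.map (algebraMap R K) = C (algebraMap R K b) * F := fun F => by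
    obtain ⟨b, hb, h⟩ := IsLocalization.integerNormalization_spec (nonZeroDivisors R) F
    refine ⟨b, _, nonZeroDivisors.ne_zero hb, h.trans ?_⟩
    rw [← smul_eq_C_mul, algebraMap_smul]
  let := EuclideanDomain.gcdMonoid K[X]
  obtain ⟨P₁, Q₁, h1, h2, h3⟩ := extract_gcd (P.map (algebraMap R K)) (Q.map (algebraMap R K))
  obtain ⟨c, d, h4⟩ := (gcd_isUnit_iff _ _).1 h3
  generalize gcd (P.map (algebraMap R K)) (Q.map (algebraMap R K)) = D at h1 h2
  obtain ⟨b1, G1, n1, e1⟩ := cl Q₁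
  obtain ⟨b2, G2, n2, e2⟩ := cl P₁
  obtain ⟨b3, G3, n3, e3⟩ := cl c
  obtain ⟨b4, G4, n4, e4⟩ := cl d
  refine ⟨C b2 * G1, C b1 * G2, C b3 * G4, C b4 * G3, b1 * b2 * b3 * b4,
    mul_ne_zero (mul_ne_zero (mul_ne_zero n1 n2) n3) n4, inj ?_, inj ?_⟩
  · simp only [Polynomial.map_mul, map_C, e1, e2]
    rw [h1, h2]; ring
  · simp only [Polynomial.map_mul, Polynomial.map_add, map_C, e1, e2, e3, e4, map_mul]
    linear_combination (C (algebraMap R K b1) * C (algebraMap R K b2) * C (algebraMap R K b3) *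
      C (algebraMap R K b4)) * h4

/-- The same modulo a prime, evaluated in a ring over `R`. -/
theorem bez {R C : Type*} [CommRing R] [CommRing C] (ρ : R →+* C) {p : Ideal C} (hp : p.IsPrime)
    (s : C) (P Q : R[X]) : ∃ a b : C, ¬(a ∈ p ∧ b ∈ p) ∧
      a * P.eval₂ ρ s - b * Q.eval₂ ρ s ∈ (p.comap ρ).map ρ := by
  set q := p.comap ρ
  have su := Polynomial.map_surjective _ (Ideal.Quotient.mk_surjective (I := q))
  have ke : ∀ F : R[X], F.map (Ideal.Quotient.mk q) = 0 → F.eval₂ ρ s ∈ q.map ρ := fun F h => by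
    rw [eval₂_eq_sum, Polynomial.sum]
    refine Submodule.sum_mem _ fun n _ => Ideal.mul_mem_right _ _ (Ideal.mem_map_of_mem _ ?_)
    rw [← Ideal.Quotient.eq_zero_iff_mem, ← coeff_map, h, coeff_zero]
  obtain ⟨a, b, c, d, e, he, h1, h2⟩ :=
    bez_dom (P.map (Ideal.Quotient.mk q)) (Q.map (Ideal.Quotient.mk q))
  obtain ⟨a, rfl⟩ := su a
  obtain ⟨b, rfl⟩ := su b
  obtain ⟨c, rfl⟩ := su c
  obtain ⟨d, rfl⟩ := su d
  obtain ⟨e, rfl⟩ := Ideal.Quotient.mk_surjective e
  refine ⟨a.eval₂ ρ s, b.eval₂ ρ s, fun h => he ?_, ?_⟩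
  · have k := ke (c * a + d * b - Polynomial.C e) (by simp [h2])
    have k' : _ ∈ p := Ideal.map_comap_le k
    rw [eval₂_sub, eval₂_add, eval₂_mul, eval₂_mul, eval₂_C] at k'
    have := p.sub_mem (p.add_mem (p.mul_mem_left (c.eval₂ ρ s) h.1)
      (p.mul_mem_left (d.eval₂ ρ s) h.2)) k'
    rw [sub_sub_cancel] at this
    exact Ideal.Quotient.eq_zero_iff_mem.2 this
  · have k := ke (a * P - b * Q) (by simp [h1])
    rwa [eval₂_sub, eval₂_mul, eval₂_mul] at k

/-- Prime filtration of a quotient of a Noetherian ring, as an induction principle. -/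
theorem chain {R : Type*} [CommRing R] [IsNoetherianRing R] (J : Ideal R) :
    ∃ K : ℕ, ∀ Q : Ideal R → ℕ → Prop,
      (∀ (J' q : Ideal R) (f : R) (k : ℕ), J ≤ J' → q.IsPrime → (∀ c, c ∈ q ↔ c * f ∈ J') →
        Q J' k → Q (J' ⊔ Ideal.span {f}) (k + 1)) → ∀ k, Q J k → Q ⊤ (k + K) := by
  induction J using IsNoetherian.induction with
  | hgt J ih =>
    by_cases hJ : J = ⊤
    · exact ⟨0, fun Q _ k h => hJ ▸ h⟩
    have := Ideal.Quotient.nontrivial_iff.2 hJ
    obtain ⟨q, hq⟩ := associatedPrimes.nonempty R (R ⧸ J)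
    rw [AssociatedPrimes.mem_iff, isAssociatedPrime_iff] at hq
    obtain ⟨hq, x, e⟩ := hq
    obtain ⟨f, rfl⟩ := Ideal.Quotient.mk_surjective x
    have hf : ∀ c, c ∈ q ↔ c * f ∈ J := fun c => by
      rw [e, Submodule.mem_colon_singleton, Submodule.mem_bot, ← Ideal.Quotient.eq_zero_iff_mem,
        map_mul, Algebra.smul_def, Ideal.Quotient.algebraMap_eq]
    have lt : J < J ⊔ Ideal.span {f} := lt_of_le_of_ne le_sup_left fun h => hq.ne_top <| by
      rw [Ideal.eq_top_iff_one, hf, one_mul, h]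
      exact Ideal.mem_sup_right (Ideal.mem_span_singleton_self f)
    obtain ⟨K, hK⟩ := ih _ lt
    refine ⟨1 + K, fun Q hQ k h => ?_⟩
    rw [← add_assoc]
    exact hK Q (fun J' q f k l => hQ J' q f k (lt.le.trans l)) _ (hQ J q f k le_rfl hq hf h)

theorem coheight_comap {R C : Type*} [CommRing R] [CommRing C] [Algebra R C]
    [Algebra.IsIntegral R C] (x : PrimeSpectrum C) :
    Order.coheight x = Order.coheight (PrimeSpectrum.comap (algebraMap R C) x) := by
  refine Order.coheight_eq_of_strictMono _ (fun a b h => ?_) (fun a b h => ?_) x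
  · have h' : a.asIdeal < b.asIdeal := h
    exact Ideal.IsIntegral.comap_lt_comap (R := R) h'
  · have : a.asIdeal.LiesOver (a.asIdeal.comap (algebraMap R C)) := ⟨rfl⟩
    have h' : a.asIdeal.comap (algebraMap R C) < b.asIdeal := h
    obtain ⟨Q, h1, h2, h3⟩ := Ideal.exists_ideal_gt_liesOver_of_lt a.asIdeal h'
    exact ⟨⟨Q, h2⟩, h1, PrimeSpectrum.ext h3.over.symm⟩

theorem coheight_equiv {C : Type*} [CommRing C] (σ : C ≃+* C) (x : PrimeSpectrum C) :
    Order.coheight x ≤ Order.coheight (PrimeSpectrum.comap (σ : C →+* C) x) := by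
  refine Order.coheight_le_coheight_apply_of_strictMono _ (fun a b h => ?_) x
  refine lt_of_le_of_ne ?_ fun k => h.ne
      (PrimeSpectrum.comap_injective_of_surjective (σ : C →+* C) σ.surjective k)
  have : a.asIdeal.comap (σ : C →+* C) ≤ b.asIdeal.comap (σ : C →+* C) := Ideal.comap_mono h.le
  exact this

theorem exists_max {α : Type*} (f : α → ℕ∞) (D : ℕ) (h : ∀ x, f x ≤ D) (a : α) :
    ∃ x, ∀ y, f y ≤ f x := by
  have : Nonempty α := ⟨a⟩
  obtain ⟨x, e⟩ := ENat.exists_eq_iSup_of_lt_top ((iSup_le h).trans_lt (ENat.natCast_lt_top D))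
  exact ⟨x, fun y => (le_iSup f y).trans e.ge⟩

/-- A prime over `I` of largest dimension. -/
theorem exists_prime {R C : Type*} [CommRing R] [CommRing C] [Algebra R C]
    [Algebra.IsIntegral R C] {D : ℕ} (hd : ringKrullDim R ≤ D) {I : Ideal C} (hI : I ≠ ⊤) :
    ∃ p : Ideal C, p.IsPrime ∧ I ≤ p ∧ ∀ (σ : C ≃+* C) (q : Ideal R), q.IsPrime →
      I.comap (algebraMap R C) ≤ q → q ≤ p.comap ((σ : C →+* C).comp (algebraMap R C)) →
        q = p.comap ((σ : C →+* C).comp (algebraMap R C)) := by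
  have he := coheight_comap (R := R) (C := C)
  have hb : ∀ y : PrimeSpectrum R, Order.coheight y ≤ D := fun y => by
    have := (Order.coheight_le_krullDim y).trans hd
    exact_mod_cast this
  obtain ⟨m, hm, hIm⟩ := Ideal.exists_le_maximal I hI
  obtain ⟨⟨x, hx⟩, e⟩ := exists_max
    (fun x : {x : PrimeSpectrum C // I ≤ x.asIdeal} => Order.coheight x.1) D
    (fun x => (he x.1).le.trans (hb _)) ⟨⟨m, hm.isPrime⟩, hIm⟩
  refine ⟨x.asIdeal, x.2, hx, fun σ q hq h1 h2 => ?_⟩
  by_contra c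
  obtain ⟨Q, l, hQ, e'⟩ := Ideal.exists_ideal_over_prime_of_isIntegral q I h1
  have a1 : Order.coheight (⟨Q, hQ⟩ : PrimeSpectrum C) ≤ Order.coheight x := e ⟨⟨Q, hQ⟩, l⟩
  have a2 := coheight_equiv σ x
  have a3 : PrimeSpectrum.comap (algebraMap R C) ⟨Q, hQ⟩ <
      PrimeSpectrum.comap (algebraMap R C) (PrimeSpectrum.comap (σ : C →+* C) x) := by
    rw [← PrimeSpectrum.asIdeal_lt_asIdeal, PrimeSpectrum.comap_asIdeal,
      PrimeSpectrum.comap_asIdeal, PrimeSpectrum.comap_asIdeal, Ideal.comap_comap, e']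
    exact lt_of_le_of_ne h2 c
  have a4 := Order.coheight_strictAnti a3 ((hb _).trans_lt (ENat.natCast_lt_top D))
  rw [← he, ← he] at a4
  exact absurd (a1.trans a2) a4.not_ge

/-- The uniform bound. -/
theorem core {R C : Type*} [CommRing R] [CommRing C] [Algebra R C] [IsNoetherianRing R]
    [Algebra.IsIntegral R C] {D : ℕ} (hd : ringKrullDim R ≤ D)
    (hm : ∀ x y : C, ∃ (s : C) (P Q : R[X]),
      P.eval₂ (algebraMap R C) s = x ∧ Q.eval₂ (algebraMap R C) s = y)
    {I : Ideal C} (hI : I ≠ ⊤) (V : Type*) [AddCommGroup V] [Module C V] :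
    ∃ p : Ideal C, p.IsPrime ∧ I ≤ p ∧ ∃ K : ℕ, ∀ (σ : C ≃+* C) (g : V),
      (∀ c ∈ I, σ c • g = 0) → ∀ (N : Submodule C V) (k : ℕ), Dep p N k →
        Dep p (N ⊔ Submodule.span C {g}) (k + K) := by
  obtain ⟨p, hp, hIp, hmin⟩ := exists_prime hd hI
  obtain ⟨K, hK⟩ := chain (I.comap (algebraMap R C))
  refine ⟨p, hp, hIp, K, fun σ g hg N k h => ?_⟩
  by_cases c : I ≤ p.comap σ
  swap
  · obtain ⟨a, ha, hn⟩ := SetLike.not_le_iff_exists.1 c
    refine (h.kill hp (a := σ a) hn fun x hx => ?_).mono le_rfl (Nat.le_add_right _ _)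
    obtain ⟨n, hn, z, hz, rfl⟩ := Submodule.mem_sup.1 hx
    obtain ⟨r, rfl⟩ := Submodule.mem_span_singleton.1 hz
    rw [smul_add, smul_comm, hg a ha, smul_zero, add_zero]
    exact N.smul_mem _ hn
  let ρ : R →+* C := (σ : C →+* C).comp (algebraMap R C)
  let T := LinearMap.toSpanSingleton C V g
  have := hK (fun J k => Dep p (N ⊔ Submodule.map T (J.map ρ)) k) ?_ k ?_
  · rwa [Ideal.map_top, Submodule.map_top, ← LinearMap.span_singleton_eq_range] at this
  · intro J q f k hJ hq hf h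
    have dec : ∀ x ∈ N ⊔ Submodule.map T ((J ⊔ Ideal.span {f}).map ρ),
        ∃ r : C, x - (r * ρ f) • g ∈ N ⊔ Submodule.map T (J.map ρ) := fun x hx => by
      obtain ⟨n, hn, z, ⟨w, hw, rfl⟩, rfl⟩ := Submodule.mem_sup.1 hx
      rw [Ideal.map_sup, Ideal.map_span, Set.image_singleton] at hw
      obtain ⟨w', hw', z, hz, rfl⟩ := Submodule.mem_sup.1 hw
      obtain ⟨r, rfl⟩ := Ideal.mem_span_singleton'.1 hz
      refine ⟨r, Submodule.mem_sup.2 ⟨n, hn, _, ⟨w', hw', rfl⟩, ?_⟩⟩
      simp only [T, LinearMap.toSpanSingleton_apply, add_smul]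
      abel
    have mul : ∀ z ∈ q.map ρ, z * ρ f ∈ J.map ρ := fun z hz => by
      have : q.map ρ ≤ (J.map ρ).colon {ρ f} := Ideal.map_le_iff_le_comap.2 fun c hc => by
        rw [Ideal.mem_comap, Submodule.mem_colon_singleton, smul_eq_mul, ← map_mul]
        exact Ideal.mem_map_of_mem _ ((hf c).1 hc)
      simpa [Submodule.mem_colon_singleton] using this hz
    refine h.step hp fun x hx y hy => ?_
    obtain ⟨r, hr⟩ := dec x hx
    obtain ⟨r', hr'⟩ := dec y hy
    have fin : ∃ a b : C, ¬(a ∈ p ∧ b ∈ p) ∧ a * r - b * r' ∈ q.map ρ := by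
      by_cases d : q ≤ p.comap ρ
      · have e : q = p.comap ρ := hmin σ q hq
          (fun c hc => (hf c).2 (Ideal.mul_mem_right _ _ (hJ hc))) d
        obtain ⟨s, P, Q, h1, h2⟩ := hm (σ.symm r) (σ.symm r')
        have t : ∀ F : R[X], F.eval₂ ρ (σ s) = σ (F.eval₂ (algebraMap R C) s) := fun F =>
          (Polynomial.hom_eval₂ F (algebraMap R C) (σ : C →+* C) s).symm
        have := bez ρ hp (σ s) P Q
        rwa [t, t, h1, h2, σ.apply_symm_apply, σ.apply_symm_apply, ← e] at this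
      · obtain ⟨a, ha, hn⟩ := SetLike.not_le_iff_exists.1 d
        refine ⟨ρ a, 0, fun h => hn h.1, ?_⟩
        rw [zero_mul, sub_zero]
        exact Ideal.mul_mem_right _ _ (Ideal.mem_map_of_mem _ ha)
    obtain ⟨a, b, hab, m⟩ := fin
    refine ⟨a, b, hab, ?_⟩
    have : a • x - b • y = a • (x - (r * ρ f) • g) - b • (y - (r' * ρ f) • g) +
        ((a * r - b * r') * ρ f) • g := by module
    rw [this]
    exact Submodule.add_mem _ (Submodule.sub_mem _ (Submodule.smul_mem _ _ hr)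
      (Submodule.smul_mem _ _ hr')) (Submodule.mem_sup_right ⟨_, mul _ m, rfl⟩)
  · refine h.mono (sup_le le_rfl ?_) le_rfl
    rw [Submodule.map_le_iff_le_comap]
    refine Ideal.map_le_iff_le_comap.2 fun c hc => ?_
    show ρ c • g ∈ N
    rw [show ρ c • g = 0 from hg _ hc]
    exact N.zero_mem

end Pool.Agent.MP_6d5e8e_al.Bd
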