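import Mathlib.Algebra.MonoidAlgebra.Basic
import Mathlib.LinearAlgebra.Span.Basic
import Mathlib.LinearAlgebra.Prod
import Mathlib.GroupTheory.FreeGroup.Basic

set_option autoImplicit false

namespace Pool.Agent.MP_6d5e8e_al.Bd

/-- There is a nonzero cyclic module `V` over the integral group ring of `G` with `V ≅ V ⊕ V`. -/
def HasSq (G : Type) [Group G] : Prop :=
  ∃ (V : Type) (_ : AddCommGroup V) (_ : Module (MonoidAlgebra ℤ G) V),
    Nontrivial V ∧
    (∃ v : V, Submodule.span (MonoidAlgebra ℤ G) {v} = ⊤) ∧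
    Nonempty (V ≃ₗ[MonoidAlgebra ℤ G] (V × V))

/-- The relators `[a i, a j]` and `t * a i * t⁻¹ * (a i ^ m)⁻¹`, where `t` is the generator `none`
and `a i` is the generator `some i`. -/
def rels (r m : ℕ) : Set (FreeGroup (Option (Fin r))) :=
  {w | (∃ i j : Fin r, w = FreeGroup.of (some i) * FreeGroup.of (some j) *
      (FreeGroup.of (some i))⁻¹ * (FreeGroup.of (some j))⁻¹) ∨
    ∃ i : Fin r, w = FreeGroup.of none * FreeGroup.of (some i) * (FreeGroup.of none)⁻¹ *
      (FreeGroup.of (some i) ^ m)⁻¹}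

end Pool.Agent.MP_6d5e8e_al.Bd
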