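import Pool.Agent.MP_6d5e8e_al.H27.Dich

/-! The dichotomy for groups whose derived subgroup is pushed into a finitely generated abelian
subgroup by the powers of one element. -/

set_option autoImplicit false

namespace Pool.Agent.MP_6d5e8e_al.Bd

/-- The dichotomy, wide form. -/
theorem wide {G : Type} [Group G] (B : Subgroup G) (t : G) (hfg : B.FG)
    (hB : ∀ x ∈ B, ∀ y ∈ B, x * y = y * x) (ht : ∀ b ∈ B, t * b * t⁻¹ ∈ B)
    (hG : ∀ x ∈ commutator G, ∃ n : ℕ, t ^ n * x * (t ^ n)⁻¹ ∈ B) :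
    HasSq G ↔ ¬∃ z ∈ B, ∀ x ∈ B, ∃ b ∈ B, ∃ i : ℤ, x = t ^ 2 * b * (t ^ 2)⁻¹ * z ^ i := by
  have hp : ∀ n : ℕ, ∀ b ∈ B, t ^ n * b * (t ^ n)⁻¹ ∈ B := fun n b hb => by
    induction n with
    | zero => simpa using hb
    | succ n ih =>
      have := ht _ ih
      rwa [show t * (t ^ n * b * (t ^ n)⁻¹) * t⁻¹ = t ^ (n + 1) * b * (t ^ (n + 1))⁻¹ by group]
        at this
  have up : ∀ (x : G) (n k : ℕ), t ^ n * x * (t ^ n)⁻¹ ∈ B →
      t ^ (n + k) * x * (t ^ (n + k))⁻¹ ∈ B := fun x n k h => by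
    have := hp k _ h
    rwa [show t ^ k * (t ^ n * x * (t ^ n)⁻¹) * (t ^ k)⁻¹ = t ^ (n + k) * x * (t ^ (n + k))⁻¹ by
      group] at this
  have both : ∀ x y : G, (∃ n : ℕ, t ^ n * x * (t ^ n)⁻¹ ∈ B) → (∃ n : ℕ, t ^ n * y * (t ^ n)⁻¹ ∈ B) →
      ∃ n : ℕ, t ^ n * x * (t ^ n)⁻¹ ∈ B ∧ t ^ n * y * (t ^ n)⁻¹ ∈ B := fun x y ⟨n, h⟩ ⟨k, l⟩ =>
    ⟨n + k, up x n k h, add_comm k n ▸ up y k n l⟩
  let A : Subgroup G :=
    { carrier := {x | ∃ n : ℕ, t ^ n * x * (t ^ n)⁻¹ ∈ B}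
      one_mem' := ⟨0, by simp⟩
      mul_mem' := fun {x y} h k => by
        obtain ⟨n, h, k⟩ := both x y h k
        exact ⟨n, by simpa [mul_assoc] using B.mul_mem h k⟩
      inv_mem' := fun {x} ⟨n, h⟩ => ⟨n, by simpa [mul_assoc] using B.inv_mem h⟩ }
  have hBA : B ≤ A := fun x h => ⟨0, by simpa using h⟩
  have hA : ∀ x ∈ A, ∀ y ∈ A, x * y = y * x := fun x h y k => by
    obtain ⟨n, h, k⟩ := both x y h k
    have := hB _ h _ k
    simp only [← mul_assoc, inv_mul_cancel_right, mul_left_inj] at this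
    simpa only [mul_assoc, mul_right_inj] using this
  have hQ : commutator G ≤ A := hG
  let : CommGroup B := { (inferInstance : Group B) with
    mul_comm := fun x y => Subtype.ext (hB _ x.2 _ y.2) }
  have : Group.FG B := (Group.fg_iff_subgroup_fg B).2 hfg
  let θ : AddMonoid.End (Additive B) := AddMonoidHom.mk'
    (fun b => .ofMul ⟨t * b.toMul * t⁻¹, ht _ b.toMul.2⟩) fun a b =>
      congrArg Additive.ofMul (Subtype.ext (by simp [mul_assoc]))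
  have hθ : ∀ (n : ℕ) (b : Additive B), (((θ ^ n) b).toMul : G) = t ^ n * b.toMul * (t ^ n)⁻¹ := by
    intro n b
    induction n with
    | zero => simp
    | succ n ih =>
      rw [pow_succ' θ]
      show t * (((θ ^ n) b).toMul : G) * t⁻¹ = _
      rw [ih]
      group
  have conv : ∀ n : ℕ, (∃ z, ∀ x, ∃ (b : Additive B) (i : ℤ), x = (θ ^ n) b + i • z) ↔
      ∃ z ∈ B, ∀ x ∈ B, ∃ b ∈ B, ∃ i : ℤ, x = t ^ n * b * (t ^ n)⁻¹ * z ^ i := fun n => by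
    constructor
    · rintro ⟨z, h⟩
      refine ⟨_, z.toMul.2, fun x hx => ?_⟩
      obtain ⟨b, i, e⟩ := h (.ofMul ⟨x, hx⟩)
      refine ⟨_, b.toMul.2, i, ?_⟩
      rw [← hθ]
      exact congrArg (fun y : Additive B => (y.toMul : G)) e
    · rintro ⟨z, hz, h⟩
      refine ⟨.ofMul ⟨z, hz⟩, fun x => ?_⟩
      obtain ⟨b, hb, i, e⟩ := h _ x.toMul.2
      refine ⟨.ofMul ⟨b, hb⟩, i, congrArg Additive.ofMul (Subtype.ext (e.trans ?_))⟩
      exact congrArg (· * z ^ i) (hθ n (.ofMul ⟨b, hb⟩)).symm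
  refine ⟨?_, fun h => ?_⟩
  · rintro ⟨V, _, _, _, ⟨v, hv⟩, ⟨e⟩⟩ h
    obtain ⟨z, hz⟩ := (conv 2).2 h
    refine no_sq A B hA hQ hBA hfg (fun x hx y hy => ?_) v hv e
    obtain ⟨n, hx, hy⟩ := both x y hx hy
    obtain ⟨w, hw, k⟩ := (conv n).1 (cyc_pow θ z (fun x => by simpa [pow_two] using hz x) n)
    obtain ⟨b, hb, i, e1⟩ := k _ hx
    obtain ⟨b', hb', j, e2⟩ := k _ hy
    refine ⟨(t ^ n)⁻¹ * w * (t ^ n)⁻¹⁻¹, ⟨n, by simpa [mul_assoc] using hw⟩, b, hb, b', hb', i, j,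
      ?_, ?_⟩
    · rw [conj_zpow, show x = (t ^ n)⁻¹ * (t ^ n * x * (t ^ n)⁻¹) * t ^ n by group, e1]
      group
    · rw [conj_zpow, show y = (t ^ n)⁻¹ * (t ^ n * y * (t ^ n)⁻¹) * t ^ n by group, e2]
      group
  · obtain ⟨p, pp, π, hs, h0⟩ :=
      (cyc_or' (θ ^ 2 : AddMonoid.End (Additive B))).resolve_left fun k => h ((conv 2).1 k)
    have : Fact p.Prime := ⟨pp⟩
    refine crit B (t ^ 2) (hp 2) (AddMonoidHom.toMultiplicativeRight π) hs fun b hb => ?_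
    have e : (.ofMul ⟨_, hp 2 b hb⟩ : Additive B) = (θ ^ 2) (.ofMul ⟨b, hb⟩) :=
      congrArg Additive.ofMul (Subtype.ext (hθ 2 (.ofMul ⟨b, hb⟩)).symm)
    exact congrArg Multiplicative.ofAdd ((congrArg π e).trans (h0 _))

end Pool.Agent.MP_6d5e8e_al.Bd
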