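import Pool.Agent.MP_6d5e8e_al.H27.Defs
import Pool.Agent.MP_6d5e8e_al.Basic
import Mathlib.LinearAlgebra.Matrix.Notation
import Mathlib.GroupTheory.Coset.Basic
import Mathlib.Tactic.Group

/-! A criterion for the existence of a cyclic module isomorphic to its square. -/

set_option autoImplicit false

namespace Pool.Agent.MP_6d5e8e_al.Bd

section Fun

variable {G L : Type} [Group G] [Ring L]

/-- Right translation on functions. -/
def tr (G L : Type) [Group G] [Ring L] : Representation ℤ G (G → L) where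
  toFun g := LinearMap.funLeft ℤ L (fun h => h * g)
  map_one' := by
    ext F h
    simp
  map_mul' g g' := by
    ext F h
    simp [mul_assoc]

theorem tr_apply (g : G) (F : G → L) (h : G) : tr G L g F h = F (h * g) := rfl

/-- Pointwise right multiplication. -/
noncomputable def rm (G : Type) [Group G] (c : L) :
    (tr G L).asModule →ₗ[MonoidAlgebra ℤ G] (tr G L).asModule where
  toFun F := (tr G L).asModuleEquiv.symm (fun h => (tr G L).asModuleEquiv F h * c)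
  map_add' F F' := by
    apply (tr G L).asModuleEquiv.injective
    ext h
    simp [add_mul]
  map_smul' r F := by
    apply (tr G L).asModuleEquiv.injective
    simp only [LinearEquiv.apply_symm_apply, RingHom.id_apply,
      Representation.asModuleEquiv_map_smul]
    induction r using MonoidAlgebra.induction_linear with
    | zero => ext h; simp
    | add r s hr hs =>
      ext h
      have h1 := congrFun hr h
      have h2 := congrFun hs h
      simp only [map_add, LinearMap.add_apply, Pi.add_apply, add_mul] at h1 h2 ⊢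
      rw [h1, h2]
    | single g z =>
      ext h
      simp [tr_apply, mul_assoc]

theorem rm_apply (c : L) (F : (tr G L).asModule) (h : G) :
    (tr G L).asModuleEquiv (rm G c F) h = (tr G L).asModuleEquiv F h * c := rfl

theorem rm_rm (c d : L) (F : (tr G L).asModule) : rm G d (rm G c F) = rm G (c * d) F := by
  apply (tr G L).asModuleEquiv.injective
  ext h
  simp only [rm_apply, mul_assoc]

theorem rm_one (F : (tr G L).asModule) : rm G (1 : L) F = F := by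
  apply (tr G L).asModuleEquiv.injective
  ext h
  simp only [rm_apply, mul_one]

theorem rm_zero (F : (tr G L).asModule) : rm G (0 : L) F = 0 := by
  apply (tr G L).asModuleEquiv.injective
  ext h
  simp only [rm_apply, mul_zero, map_zero, Pi.zero_apply]

theorem rm_add (c d : L) (F : (tr G L).asModule) : rm G c F + rm G d F = rm G (c + d) F := by
  apply (tr G L).asModuleEquiv.injective
  ext h
  simp only [rm_apply, mul_add, map_add, Pi.add_apply]

theorem sq_of_fun (φ : G → L) (h1 : φ 1 ≠ 0) (a₁ a₂ b₁ b₂ : L) (h0 : a₁ * b₁ + a₂ * b₂ = 1)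
    (h11 : b₁ * a₁ = 1) (h12 : b₂ * a₁ = 0) (h21 : b₁ * a₂ = 0) (h22 : b₂ * a₂ = 1)
    (h : ∀ c, c = a₁ ∨ c = a₂ ∨ c = b₁ ∨ c = b₂ → ∃ g₁ g₂ g₃ g₄ : G, ∀ x,
      φ (x * g₁) - φ (x * g₂) - (φ (x * g₃) - φ (x * g₄)) = φ x * c) : HasSq G := by
  let m : (tr G L).asModule := (tr G L).asModuleEquiv.symm φ
  have hm : m ≠ 0 := fun k => h1 <| by
    have : (tr G L).asModuleEquiv m 1 = φ 1 := rfl
    rw [← this, k]
    simp
  have mem : ∀ c, c = a₁ ∨ c = a₂ ∨ c = b₁ ∨ c = b₂ →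
      rm G c m ∈ Submodule.span (MonoidAlgebra ℤ G) {m} := fun c hc => by
    obtain ⟨g₁, g₂, g₃, g₄, k⟩ := h c hc
    refine Submodule.mem_span_singleton.2 ⟨MonoidAlgebra.of ℤ G g₁ - MonoidAlgebra.of ℤ G g₂ -
      (MonoidAlgebra.of ℤ G g₃ - MonoidAlgebra.of ℤ G g₄), ?_⟩
    simp only [sub_smul, m, ← Representation.asModuleEquiv_symm_map_rho]
    apply (tr G L).asModuleEquiv.injective
    ext x
    rw [rm_apply]
    simp only [map_sub, LinearEquiv.apply_symm_apply, Pi.sub_apply, tr_apply]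
    exact k x
  refine ⟨Submodule.span (MonoidAlgebra ℤ G) {m}, inferInstance, inferInstance,
    ⟨⟨m, Submodule.mem_span_singleton_self m⟩, 0, fun k => hm (congrArg Subtype.val k)⟩,
    ⟨⟨m, Submodule.mem_span_singleton_self m⟩, ?_⟩,
    span_equiv_sq m (rm G a₁) (rm G a₂) (rm G b₁) (rm G b₂) (fun F => ?_) (fun F => ?_)
      (fun F => ?_) (fun F => ?_) (fun F => ?_) (mem _ (by simp)) (mem _ (by simp))
      (mem _ (by simp)) (mem _ (by simp))⟩
  · rw [eq_top_iff]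
    rintro ⟨x, hx⟩ -
    obtain ⟨r, rfl⟩ := Submodule.mem_span_singleton.mp hx
    exact Submodule.mem_span_singleton.mpr ⟨r, rfl⟩
  · rw [rm_rm, rm_rm, rm_add, h0, rm_one]
  · rw [rm_rm, h11, rm_one]
  · rw [rm_rm, h12, rm_zero]
  · rw [rm_rm, h21, rm_zero]
  · rw [rm_rm, h22, rm_one]

end Fun

theorem leavitt (k : Type) [CommRing k] : ∃ a₁ a₂ b₁ b₂ : Module.End k (ℕ → k),
    a₁ * b₁ + a₂ * b₂ = 1 ∧ b₁ * a₁ = 1 ∧ b₂ * a₁ = 0 ∧ b₁ * a₂ = 0 ∧ b₂ * a₂ = 1 := by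
  have e0 : ℕ ≃ ℕ ⊕ ℕ := Nonempty.some inferInstance
  let e : (ℕ → k) ≃ₗ[k] (ℕ → k) × (ℕ → k) :=
    (LinearEquiv.funCongrLeft k k e0.symm).trans (LinearEquiv.sumArrowLequivProdArrow ℕ ℕ k k)
  refine ⟨e.symm.toLinearMap ∘ₗ LinearMap.inl k _ _, e.symm.toLinearMap ∘ₗ LinearMap.inr k _ _,
    LinearMap.fst k _ _ ∘ₗ e.toLinearMap, LinearMap.snd k _ _ ∘ₗ e.toLinearMap,
    ?_, ?_, ?_, ?_, ?_⟩
  · apply LinearMap.ext
    intro x
    simp only [LinearMap.add_apply, Module.End.mul_apply, LinearMap.comp_apply,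
      LinearEquiv.coe_coe, LinearMap.inl_apply, LinearMap.inr_apply, LinearMap.fst_apply,
      LinearMap.snd_apply, Module.End.one_apply]
    rw [← map_add]
    simp
  all_goals
    apply LinearMap.ext
    intro x
    simp [Module.End.mul_apply]

/-- The ordered product of the labels along the path to the root. -/
def pth {G L : Type} [Group G] [Ring L] (t : G) (μ : G → L) : ℕ → G → L
  | 0, _ => 1
  | n + 1, y => pth t μ n (y * t⁻¹) * μ y

/-- A function whose first differences are right multiples of itself. -/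
theorem exists_fun {G L : Type} [Group G] [Ring L] (B : Subgroup G) (t : G)
    (ht : ∀ b ∈ B, t * b * t⁻¹ ∈ B) (π : G → L) (hπ : ∀ a ∈ B, ∀ b ∈ B, π (a * b) = π a + π b)
    (h0 : ∀ b ∈ B, π (t * b * t⁻¹) = 0) (hne : ∃ b ∈ B, π b ≠ 0) :
    ∃ Φ : G → L, Φ 1 = 1 ∧ ∀ b ∈ B, ∀ x, Φ (x * (t * b)) - Φ (x * t) = Φ x * π b := by
  classical
  have hp : ∀ n : ℕ, ∀ b ∈ B, t ^ n * b * t⁻¹ ^ n ∈ B := fun n b hb => by
    induction n with
    | zero => simpa using hb
    | succ n ih =>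
      have := ht _ ih
      rwa [show t * (t ^ n * b * t⁻¹ ^ n) * t⁻¹ = t ^ (n + 1) * b * t⁻¹ ^ (n + 1) by
        rw [pow_succ' t, pow_succ t⁻¹]; group] at this
  have hD : ∀ (n : ℕ) (y : G), ∀ b ∈ B, y * b * t⁻¹ ^ n ∈ B ↔ y * t⁻¹ ^ n ∈ B := fun n y b hb => by
    rw [show y * b * t⁻¹ ^ n = y * t⁻¹ ^ n * (t ^ n * b * t⁻¹ ^ n) by group,
      B.mul_mem_cancel_right (hp n b hb)]
  have hlt : ∀ (n m : ℕ) (y : G), y * t⁻¹ ^ n ∈ B → y * t⁻¹ ^ (n + m + 1) ∈ B → False := by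
    intro n m y h1 h2
    obtain ⟨b, hb, hb0⟩ := hne
    have h3 : t⁻¹ ^ (m + 1) ∈ B := by
      rwa [add_assoc, pow_add, ← mul_assoc, B.mul_mem_cancel_left h1] at h2
    have := h0 _ (hp m _ (B.mul_mem (B.mul_mem h3 hb) (B.inv_mem h3)))
    rw [show t * (t ^ m * (t⁻¹ ^ (m + 1) * b * (t⁻¹ ^ (m + 1))⁻¹) * t⁻¹ ^ m) * t⁻¹ = b by group]
      at this
    exact hb0 this
  have hu : ∀ (n m : ℕ) (y : G), y * t⁻¹ ^ n ∈ B → y * t⁻¹ ^ m ∈ B → n = m := by
    intro n m y h1 h2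
    rcases lt_trichotomy n m with h | h | h
    · obtain ⟨k, rfl⟩ := Nat.exists_eq_add_of_lt h
      exact (hlt _ _ y h1 h2).elim
    · exact h
    · obtain ⟨k, rfl⟩ := Nat.exists_eq_add_of_lt h
      exact (hlt _ _ y h2 h1).elim
  let μ : G → L := fun y => π ((y : G ⧸ B).out⁻¹ * y)
  have hμ : ∀ y, ∀ b ∈ B, μ (y * b) = μ y + π b := fun y b hb => by
    simp only [μ]
    rw [QuotientGroup.mk_mul_of_mem y hb, ← mul_assoc,
      hπ _ (QuotientGroup.eq.1 (QuotientGroup.out_eq' _)) b hb]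
  have hP : ∀ (n : ℕ) (y : G), ∀ b ∈ B, pth t μ n (y * (t * b * t⁻¹)) = pth t μ n y := by
    intro n
    induction n with
    | zero => exact fun _ _ _ => rfl
    | succ n ih =>
      intro y b hb
      rw [pth, pth, hμ y _ (ht b hb), h0 b hb, add_zero, ← ih (y * t⁻¹) _ (ht b hb)]
      congr 2
      group
  let Φ : G → L := fun y => if h : ∃ n : ℕ, y * t⁻¹ ^ n ∈ B then pth t μ (Nat.find h) y else 0
  have hΦ : ∀ (n : ℕ) (y : G), y * t⁻¹ ^ n ∈ B → Φ y = pth t μ n y := fun n y h => by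
    have k : ∃ n : ℕ, y * t⁻¹ ^ n ∈ B := ⟨n, h⟩
    simp only [Φ]
    rw [dif_pos k, hu _ _ y (Nat.find_spec k) h]
  have sh : ∀ (n : ℕ) (x : G), x * t * t⁻¹ ^ (n + 1) = x * t⁻¹ ^ n := fun n x => by group
  refine ⟨Φ, hΦ 0 1 (by simp), fun b hb x => ?_⟩
  rw [← mul_assoc]
  by_cases c : ∃ n : ℕ, x * t⁻¹ ^ n ∈ B
  · obtain ⟨n, c⟩ := c
    have c1 : x * t * t⁻¹ ^ (n + 1) ∈ B := by rwa [sh]
    rw [hΦ n x c, hΦ _ _ c1, hΦ _ _ ((hD _ _ b hb).2 c1), pth, pth, hμ _ b hb,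
      mul_inv_cancel_right, show x * t * b * t⁻¹ = x * (t * b * t⁻¹) by group, hP n x b hb,
      mul_add, add_sub_cancel_left]
  · rw [show Φ x = 0 from dif_neg c, zero_mul, sub_eq_zero]
    by_cases d : ∃ n : ℕ, x * t * t⁻¹ ^ n ∈ B
    · obtain ⟨_ | n, d⟩ := d
      · rw [hΦ _ _ d, hΦ _ _ ((hD _ _ b hb).2 d), pth, pth]
      · exact (c ⟨n, by rwa [sh] at d⟩).elim
    · rw [show Φ (x * t) = 0 from dif_neg d]
      exact dif_neg fun ⟨n, h⟩ => d ⟨n, (hD _ _ b hb).1 h⟩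

/-- The criterion. -/
theorem crit {G k : Type} [Group G] [CommRing k] [Nontrivial k] (B : Subgroup G) (t : G)
    (ht : ∀ b ∈ B, t * b * t⁻¹ ∈ B) (π : B →* Multiplicative (k × k))
    (hs : Function.Surjective π) (h0 : ∀ b (hb : b ∈ B), π ⟨t * b * t⁻¹, ht b hb⟩ = 1) :
    HasSq G := by
  classical
  obtain ⟨a₁, a₂, b₁, b₂, l0, l11, l12, l21, l22⟩ := leavitt k
  let c₁ : Matrix (Fin 3) (Fin 3) (Module.End k (ℕ → k)) := !![0, 1, 0; a₁, 0, 0; b₁, 0, 0]
  let c₂ : Matrix (Fin 3) (Fin 3) (Module.End k (ℕ → k)) := !![0, 0, 1; a₂, 0, 0; b₂, 0, 0]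
  let c : k × k → Matrix (Fin 3) (Fin 3) (Module.End k (ℕ → k)) := fun z => z.1 • c₁ + z.2 • c₂
  obtain ⟨u, hu⟩ := hs (.ofAdd (1, 0))
  obtain ⟨w, hw⟩ := hs (.ofAdd (0, 1))
  let π' : G → _ := fun g => if h : g ∈ B then c (π ⟨g, h⟩).toAdd else 0
  have e : ∀ b : B, π' b = c (π b).toAdd := fun b => dif_pos b.2
  have eu : π' u = c₁ := by simp [e, hu, c]
  have ew : π' w = c₂ := by simp [e, hw, c]
  obtain ⟨Φ, h1, h⟩ := exists_fun B t ht π' (fun a ha b hb => by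
      have := e (⟨a, ha⟩ * ⟨b, hb⟩)
      rw [map_mul, toAdd_mul] at this
      rw [e ⟨a, ha⟩, e ⟨b, hb⟩]
      refine this.trans ?_
      simp only [c, Prod.fst_add, Prod.snd_add, add_smul]
      abel) (fun b hb => by rw [e ⟨_, ht b hb⟩, h0 b hb]; simp [c]) ⟨u, u.2, fun z => by
      have := congrFun (congrFun (eu.symm.trans z) 0) 1
      simp [c₁] at this⟩
  have two : ∀ a b : B, ∀ x, Φ (x * (t * a * (t * b))) 0 0 - Φ (x * (t * a * t)) 0 0 -
      (Φ (x * (t * (t * b))) 0 0 - Φ (x * (t * t)) 0 0) = (Φ x * π' a * π' b) 0 0 := by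
    intro a b x
    rw [← h a a.2, sub_mul, ← h b b.2, ← h b b.2]
    simp only [Matrix.sub_apply, mul_assoc]
  refine sq_of_fun (fun x => Φ x 0 0) (by simp [h1]) a₁ a₂ b₁ b₂ l0 l11 l12 l21 l22 ?_
  rintro z (rfl | rfl | rfl | rfl)
  · exact ⟨_, _, _, _, fun x => (two u u x).trans (by
      simp [eu, c₁, Matrix.mul_apply, Fin.sum_univ_three])⟩
  · exact ⟨_, _, _, _, fun x => (two u w x).trans (by
      simp [eu, ew, c₁, c₂, Matrix.mul_apply, Fin.sum_univ_three])⟩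
  · exact ⟨_, _, _, _, fun x => (two w u x).trans (by
      simp [eu, ew, c₁, c₂, Matrix.mul_apply, Fin.sum_univ_three])⟩
  · exact ⟨_, _, _, _, fun x => (two w w x).trans (by
      simp [ew, c₂, Matrix.mul_apply, Fin.sum_univ_three])⟩

end Pool.Agent.MP_6d5e8e_al.Bd
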